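import Mathlib

/-! # Changing the signs of a completely multiplicative function at primes -/

set_option autoImplicit false

namespace Pool.Agent.K9h88.FC

open Finset

/-- `g` is completely multiplicative on the positive integers, with values `1` and `-1` -/
def CM (g : ℕ → ℤˣ) : Prop := ∀ a b : ℕ, a ≠ 0 → b ≠ 0 → g (a * b) = g a * g b

open Classical in
/-- the function `g` with its sign changed at the primes of `D`: the value at `m` is `g m` times
`(-1) ^ k` for each prime `p ∈ D` that divides `m` exactly `k` times -/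
noncomputable def change (g : ℕ → ℤˣ) (D : Set ℕ) (m : ℕ) : ℤˣ :=
  g m * m.factorization.prod fun p k => if p ∈ D then (-1) ^ k else 1

lemma change_cm {g : ℕ → ℤˣ} (hg : CM g) (D : Set ℕ) : CM (change g D) := by
  classical
  intro a b ha hb
  unfold change
  rw [hg a b ha hb, Nat.factorization_mul ha hb, Finsupp.prod_add_index']
  · rw [mul_mul_mul_comm]
  · intro p
    simp
  · intro p k l
    split_ifs
    · rw [pow_add]
    · simp

lemma change_prime_mem (g : ℕ → ℤˣ) (D : Set ℕ) (p : ℕ) (hp : p.Prime) (h : p ∈ D) :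
    change g D p = - g p := by
  unfold change
  rw [hp.factorization, Finsupp.prod_single_index (by simp)]
  simp [h]

lemma change_prime_notMem (g : ℕ → ℤˣ) (D : Set ℕ) (p : ℕ) (hp : p.Prime) (h : p ∉ D) :
    change g D p = g p := by
  unfold change
  rw [hp.factorization, Finsupp.prod_single_index (by simp)]
  simp [h]

lemma change_change (g : ℕ → ℤˣ) (A B : Set ℕ) (m : ℕ) :
    change (change g A) B m = change g (symmDiff A B) m := by
  classical
  unfold change
  rw [mul_assoc, ← Finsupp.prod_mul]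
  congr 1
  unfold Finsupp.prod
  refine prod_congr rfl fun p _ => ?_
  by_cases hA : p ∈ A <;> by_cases hB : p ∈ B <;> simp [hA, hB, Set.mem_symmDiff, ← mul_pow]

/-- the value at a number which among the primes of `P` is divisible by `q` only, and once only -/
lemma change_of_known (g : ℕ → ℤˣ) (D P : Set ℕ) (hD : D ⊆ P) (m : ℕ) (hm : m ≠ 0)
    (q : ℕ) (hq : q.Prime) (h1 : m.factorization q = 1)
    (h2 : ∀ p ∈ P, p ≠ q → ¬ p ∣ m) [Decidable (q ∈ D)] :
    change g D m = g m * if q ∈ D then (-1 : ℤˣ) else 1 := by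
  classical
  unfold change
  congr 1
  unfold Finsupp.prod
  rw [Nat.support_factorization]
  have hsub : {q} ⊆ m.primeFactors := by
    intro p hp
    rw [mem_singleton] at hp
    subst hp
    rw [Nat.mem_primeFactors]
    refine ⟨hq, ?_, hm⟩
    by_contra h
    have := Nat.factorization_eq_zero_of_not_dvd h
    rw [h1] at this
    exact one_ne_zero this
  rw [← prod_subset hsub]
  · rw [prod_singleton, h1]
    by_cases h : q ∈ D <;> simp [h]
  · intro p hp hpU
    have h : p ∉ D := fun hpD => h2 p (hD hpD) (by simpa using hpU) (Nat.dvd_of_mem_primeFactors hp)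
    simp [h]

/-- Chinese remainders: the `m` in one class modulo `∏ p ^ 2` are such that for `j = 0, …, n - 1` the
only prime factor of `m + j + 1` in `P` is `π j`, and it divides `m + j + 1` once only -/
lemma crt (n : ℕ) (P : Finset ℕ) (hP : ∀ p ∈ P, p.Prime) (hn : ∀ p ∈ P, n < p)
    (π : Fin n → ℕ) (hπ : ∀ j, π j ∈ P) (hinj : Function.Injective π) :
    ∃ r : ℕ, ∀ m : ℕ, m ≡ r [MOD ∏ p ∈ P, p ^ 2] → ∀ j : Fin n,
      (m + j + 1).factorization (π j) = 1 ∧ ∀ p ∈ P, p ≠ π j → ¬ p ∣ m + j + 1 := by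
  classical
  set c : ℕ → ℕ := fun p => if h : ∃ j, π j = p then p + (p ^ 2 - 1) * ((h.choose : ℕ) + 1) else 0
    with hc
  have hco : Set.Pairwise (P : Set ℕ) (Function.onFun Nat.Coprime fun p => p ^ 2) := by
    intro a ha a' ha' haa
    exact Nat.Coprime.pow 2 2 ((Nat.coprime_primes (hP a ha) (hP a' ha')).2 haa)
  obtain ⟨r, hr⟩ := Nat.chineseRemainderOfFinset c (fun p => p ^ 2) P
    (fun p hp => pow_ne_zero _ (hP p hp).ne_zero) hco
  refine ⟨r, fun m hm j => ?_⟩
  have hmc : ∀ p ∈ P, m ≡ c p [MOD p ^ 2] := fun p hp =>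
    (hm.of_dvd (dvd_prod_of_mem (fun p => p ^ 2) hp)).trans (hr p hp)
  have key1 : ∀ j, m + j + 1 ≡ π j [MOD (π j) ^ 2] := by
    intro j
    have h := (hmc (π j) (hπ j)).add_right ((j : ℕ) + 1)
    have hex : ∃ i, π i = π j := ⟨j, rfl⟩
    have hch : hex.choose = j := hinj hex.choose_spec
    have h2 : c (π j) + ((j : ℕ) + 1) = π j + π j ^ 2 * ((j : ℕ) + 1) := by
      rw [hc]
      simp only [dif_pos hex, hch]
      have h3 : 1 ≤ π j ^ 2 := Nat.one_le_pow _ _ (hP _ (hπ j)).pos
      obtain ⟨k, hk⟩ := Nat.exists_eq_add_of_le h3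
      rw [hk, Nat.add_sub_cancel_left]
      ring
    rw [h2, ← add_assoc] at h
    refine h.trans ?_
    unfold Nat.ModEq
    simp
  have key0 : ∀ p ∈ P, (¬ ∃ j, π j = p) → p ∣ m := by
    intro p hp hT
    have h := hmc p hp
    have h2 : c p = 0 := by
      rw [hc]
      simp only [dif_neg hT]
    rw [h2] at h
    exact (dvd_pow_self _ two_ne_zero).trans ((Nat.modEq_zero_iff_dvd).1 h)
  constructor
  · have h := key1 j
    have hp := hP _ (hπ j)
    have hd1 : π j ∣ m + j + 1 := by
      have h1 : m + j + 1 ≡ π j [MOD π j] := h.of_dvd (dvd_pow_self _ two_ne_zero)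
      exact (Nat.modEq_zero_iff_dvd).1 (h1.trans (by unfold Nat.ModEq; simp))
    have hd2 : ¬ π j ^ 2 ∣ m + j + 1 := by
      intro h2
      have h3 : π j ≡ 0 [MOD π j ^ 2] := h.symm.trans ((Nat.modEq_zero_iff_dvd).2 h2)
      have h4 := (Nat.modEq_zero_iff_dvd).1 h3
      have h5 := Nat.le_of_dvd hp.pos h4
      nlinarith [hp.two_le]
    have hne : m + (j : ℕ) + 1 ≠ 0 := by omega
    apply le_antisymm
    · by_contra h6
      exact hd2 ((hp.pow_dvd_iff_le_factorization hne).2 (by omega))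
    · exact (hp.dvd_iff_one_le_factorization hne).1 hd1
  · intro p hpP hne hd
    have hp := hP p hpP
    have hlt := hn p hpP
    by_cases hT : ∃ i, π i = p
    · obtain ⟨i, rfl⟩ := hT
      have h1 : m + i + 1 ≡ 0 [MOD π i] :=
        ((key1 i).of_dvd (dvd_pow_self _ two_ne_zero)).trans (by unfold Nat.ModEq; simp)
      have h2 : π i ∣ m + i + 1 := (Nat.modEq_zero_iff_dvd).1 h1
      have hv : (i : ℕ) ≠ j := fun h => hne (by rw [Fin.ext h])
      have l1 := j.isLt
      have l2 := i.isLt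
      rcases lt_or_gt_of_ne hv with h3 | h3
      · have h4 : m + (j : ℕ) + 1 = (m + i + 1) + ((j : ℕ) - i) := by omega
        rw [h4] at hd
        have h5 := Nat.le_of_dvd (by omega) ((Nat.dvd_add_right h2).1 hd)
        omega
      · have h4 : m + (i : ℕ) + 1 = (m + j + 1) + ((i : ℕ) - j) := by omega
        rw [h4] at h2
        have h5 := Nat.le_of_dvd (by omega) ((Nat.dvd_add_right hd).1 h2)
        omega
    · have h0 := key0 p hpP hT
      have h1 : p ∣ (j : ℕ) + 1 := by
        rw [add_assoc] at hd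
        exact (Nat.dvd_add_right h0).1 hd
      have h2 := Nat.le_of_dvd (by omega) h1
      have := j.isLt
      omega

/-- on the class of `crt` the values of `g` are changed exactly at the places `j` with `π j ∈ D` -/
lemma on_class (n : ℕ) (P : Finset ℕ) (hP : ∀ p ∈ P, p.Prime) (hn : ∀ p ∈ P, n < p)
    (A : Finset ℕ) (hA : A ∈ P.powersetCard n) :
    ∃ (π : Fin n → ℕ) (r : ℕ), (∀ j, π j ∈ A) ∧ Function.Injective π ∧
      ∀ (g : ℕ → ℤˣ) (D : Finset ℕ), D ⊆ P → ∀ m : ℕ, m ≡ r [MOD ∏ p ∈ P, p ^ 2] → ∀ j : Fin n,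
        change g D (m + j + 1) = g (m + j + 1) * if π j ∈ D then (-1 : ℤˣ) else 1 := by
  classical
  rw [mem_powersetCard] at hA
  have hπ : ∀ j, A.orderEmbOfFin hA.2 j ∈ P := fun j => hA.1 (orderEmbOfFin_mem A hA.2 j)
  obtain ⟨r, hr⟩ := crt n P hP hn (A.orderEmbOfFin hA.2) hπ (A.orderEmbOfFin hA.2).injective
  refine ⟨A.orderEmbOfFin hA.2, r, fun j => orderEmbOfFin_mem A hA.2 j,
    (A.orderEmbOfFin hA.2).injective, ?_⟩
  intro g D hD m hm j
  obtain ⟨h1, h2⟩ := hr m hm j
  have h := change_of_known g (D : Set ℕ) (P : Set ℕ) (by exact_mod_cast hD) (m + j + 1) (by omega)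
    (A.orderEmbOfFin hA.2 j) (hP _ (hπ j)) h1 (fun p hp hne => h2 p (by exact_mod_cast hp) hne)
  rw [h]
  simp only [mem_coe]

end Pool.Agent.K9h88.FC
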