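import Mathlib

/-! # From two-point and three-point bounds to patterns on three places -/

set_option autoImplicit false

namespace Pool.Agent.K9h88.FC

open Finset Filter

/-- the indicator function of the class of `r` modulo `M` -/
noncomputable def cl (M r n : ℕ) : ℝ := if n ≡ r [MOD M] then 1 else 0

lemma cl_period (M r n k : ℕ) : cl M r (n + k * M) = cl M r n := by
  unfold cl
  have h : n + k * M ≡ r [MOD M] ↔ n ≡ r [MOD M] := by
    unfold Nat.ModEq
    rw [Nat.add_mul_mod_self_right]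
  simp only [h]

lemma cl_period1 (M r n : ℕ) : cl M r (n + M) = cl M r n := by
  have := cl_period M r n 1
  rwa [one_mul] at this

lemma cl_sq (M r n : ℕ) : cl M r n * cl M r n = cl M r n := by
  unfold cl
  split_ifs <;> simp

lemma cl_nonneg (M r n : ℕ) : 0 ≤ cl M r n := by
  unfold cl
  split_ifs <;> simp

lemma cl_le (M r n : ℕ) : cl M r n ≤ 1 := by
  unfold cl
  split_ifs <;> simp

lemma cl_abs (M r n : ℕ) : |cl M r n| ≤ 1 := by
  rw [abs_of_nonneg (cl_nonneg M r n)]
  exact cl_le M r n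

lemma sum_shift (g : ℕ → ℝ) (hg : ∀ n, |g n| ≤ 1) (a x : ℕ) :
    |∑ n ∈ range x, g (n + a) - ∑ n ∈ range x, g n| ≤ 2 * a := by
  have e1 : ∑ n ∈ range (a + x), g n = ∑ n ∈ range a, g n + ∑ n ∈ range x, g (a + n) :=
    sum_range_add g a x
  have e2 : ∑ n ∈ range (x + a), g n = ∑ n ∈ range x, g n + ∑ n ∈ range a, g (x + n) :=
    sum_range_add g x a
  have e3 : ∑ n ∈ range x, g (n + a) - ∑ n ∈ range x, g n =
      ∑ n ∈ range a, g (x + n) - ∑ n ∈ range a, g n := by
    rw [add_comm a x, e2] at e1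
    have e4 : ∑ n ∈ range x, g (n + a) = ∑ n ∈ range x, g (a + n) :=
      sum_congr rfl fun n _ => by rw [add_comm]
    rw [e4]
    linarith
  have h1 : ∀ f : ℕ → ℝ, (∀ n, |f n| ≤ 1) → |∑ n ∈ range a, f n| ≤ a := by
    intro f hf
    calc |∑ n ∈ range a, f n| ≤ ∑ n ∈ range a, |f n| := abs_sum_le_sum_abs _ _
      _ ≤ ∑ _n ∈ range a, (1 : ℝ) := sum_le_sum fun n _ => hf n
      _ = a := by simp
  rw [e3]
  have h2 := h1 (fun n => g (x + n)) (fun n => hg _)
  have h3 := h1 g hg
  rw [abs_le] at *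
  constructor <;> linarith [h2.1, h2.2, h3.1, h3.2]

/-- the hypotheses: two-point and three-point bounds at almost all scales -/
structure Hyp (F : Filter ℕ) (l : ℕ → ℝ) (c : ℝ) : Prop where
  le : F ≤ atTop
  pm : ∀ n, l n = 1 ∨ l n = -1
  c0 : 0 < c
  c1 : c < 1
  two : ∀ h : ℕ, 1 ≤ h → ∀ q : ℕ, 1 ≤ q → ∀ w : ℕ → ℝ, (∀ n, |w n| ≤ 1) → (∀ n, w (n + q) = w n) →
    ∀ δ : ℝ, 0 < δ → ∀ᶠ x in F, |∑ n ∈ range x, w n * l n * l (n + h)| ≤ δ * x
  three : ∀ M : ℕ, 1 ≤ M → ∀ (r : ℕ) (p : Fin 3 → ℕ), Function.Injective p →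
    ∀ᶠ x : ℕ in F, |∑ n ∈ range x, cl M r n * (l (n + p 0) * l (n + p 1) * l (n + p 2))| ≤
      (1 - c) * (1 / M) * x

variable {F : Filter ℕ} {l : ℕ → ℝ} {c : ℝ}

lemma Hyp.abs (h : Hyp F l c) (n : ℕ) : |l n| = 1 := by
  rcases h.pm n with h | h <;> rw [h] <;> simp

lemma Hyp.sq (h : Hyp F l c) (n : ℕ) : l n * l n = 1 := by
  rcases h.pm n with h | h <;> rw [h] <;> simp

lemma abs_mul3 {a b d : ℝ} (ha : |a| ≤ 1) (hb : |b| ≤ 1) (hd : |d| ≤ 1) : |a * b * d| ≤ 1 := by
  rw [abs_mul, abs_mul]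
  have h1 : |a| * |b| ≤ 1 := mul_le_one₀ ha (abs_nonneg _) hb
  exact mul_le_one₀ h1 (abs_nonneg _) hd

/-- two points in a class, first place smaller -/
lemma Hyp.pair_lt (H : Hyp F l c) (M : ℕ) (hM : 1 ≤ M) (r a b : ℕ) (hab : a < b) (δ : ℝ)
    (hδ : 0 < δ) : ∀ᶠ x in F, |∑ n ∈ range x, cl M r n * l (n + a) * l (n + b)| ≤ δ * x := by
  set w : ℕ → ℝ := fun n => cl M r (n + a * (M - 1)) with hw
  have h1 := H.two (b - a) (by omega) M hM w (fun n => cl_abs _ _ _) (fun n => by
    rw [hw]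
    have : n + M + a * (M - 1) = n + a * (M - 1) + M := by ring
    simp only [this, cl_period1]) (δ / 2) (by positivity)
  have h2 : ∀ᶠ x : ℕ in F, ⌈4 * a / δ⌉₊ ≤ x := H.le (eventually_ge_atTop _)
  filter_upwards [h1, h2] with x hx1 hx2
  have h3 := sum_shift (fun n => w n * l n * l (n + (b - a))) (fun n =>
    abs_mul3 (cl_abs _ _ _) (H.abs _).le (H.abs _).le) a x
  have h4 : ∑ n ∈ range x, w (n + a) * l (n + a) * l (n + a + (b - a)) =
      ∑ n ∈ range x, cl M r n * l (n + a) * l (n + b) := by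
    refine sum_congr rfl fun n _ => ?_
    have e1 : n + a + (b - a) = n + b := by omega
    have e2 : w (n + a) = cl M r n := by
      rw [hw]
      have : n + a + a * (M - 1) = n + a * M := by
        obtain ⟨k, hk⟩ := Nat.exists_eq_add_of_le hM
        rw [hk, Nat.add_sub_cancel_left]
        ring
      simp only [this, cl_period]
    rw [e1, e2]
  rw [h4] at h3
  have h5 : 4 * (a : ℝ) / δ ≤ x := (Nat.le_ceil _).trans (by exact_mod_cast hx2)
  rw [div_le_iff₀ hδ] at h5
  rw [abs_le] at *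
  constructor <;> linarith [hx1.1, hx1.2, h3.1, h3.2]

/-- two points in a class -/
lemma Hyp.pair (H : Hyp F l c) (M : ℕ) (hM : 1 ≤ M) (r a b : ℕ) (hab : a ≠ b) (δ : ℝ)
    (hδ : 0 < δ) : ∀ᶠ x in F, |∑ n ∈ range x, cl M r n * l (n + a) * l (n + b)| ≤ δ * x := by
  rcases lt_or_gt_of_ne hab with h | h
  · exact H.pair_lt M hM r a b h δ hδ
  · have h1 := H.pair_lt M hM r b a h δ hδ
    filter_upwards [h1] with x hx
    have e : ∑ n ∈ range x, cl M r n * l (n + a) * l (n + b) =
        ∑ n ∈ range x, cl M r n * l (n + b) * l (n + a) :=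
      sum_congr rfl fun n _ => by ring
    rw [e]
    exact hx

/-- one point in a class -/
lemma Hyp.one (H : Hyp F l c) (M : ℕ) (hM : 1 ≤ M) (r a : ℕ) (δ : ℝ) (hδ : 0 < δ) :
    ∀ᶠ x in F, |∑ n ∈ range x, cl M r n * l (n + a)| ≤ δ * x := by
  obtain ⟨T, hT⟩ := exists_nat_ge (16 / δ ^ 2)
  have hT0 : (0 : ℝ) < T := lt_of_lt_of_le (by positivity) hT
  set η : ℝ := δ ^ 2 / 16 with hη
  have hη0 : 0 < η := by positivity
  have h1 : ∀ᶠ x in F, ∀ k ∈ range T, 1 ≤ k →
      |∑ n ∈ range x, cl M r n * l (n + a) * l (n + (a + k * M))| ≤ η * x := by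
    rw [Filter.eventually_all_finset]
    intro k _
    by_cases hk : 1 ≤ k
    · have hne : a ≠ a + k * M := by
        have : 1 ≤ k * M := Nat.mul_pos hk hM
        omega
      filter_upwards [H.pair M hM r a (a + k * M) hne η hη0] with x hx _
      exact hx
    · exact Eventually.of_forall fun x h => absurd h hk
  have h2 : ∀ᶠ x : ℕ in F, ⌈2 * T * M / η⌉₊ ≤ x := H.le (eventually_ge_atTop _)
  have h3 : ∀ᶠ x : ℕ in F, ⌈4 * T * M / δ⌉₊ ≤ x := H.le (eventually_ge_atTop _)
  filter_upwards [h1, h2, h3] with x hx1 hx2 hx3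
  set g : ℕ → ℝ := fun n => cl M r n * l (n + a) with hg
  have hgb : ∀ n, |g n| ≤ 1 := by
    intro n
    rw [hg]
    simp only
    rw [abs_mul, H.abs, mul_one]
    exact cl_abs _ _ _
  have hx2' : 2 * (T : ℝ) * M ≤ η * x := by
    have : 2 * (T : ℝ) * M / η ≤ x := (Nat.le_ceil _).trans (by exact_mod_cast hx2)
    rw [div_le_iff₀ hη0] at this
    linarith
  have hx3' : 4 * (T : ℝ) * M ≤ δ * x := by
    have : 4 * (T : ℝ) * M / δ ≤ x := (Nat.le_ceil _).trans (by exact_mod_cast hx3)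
    rw [div_le_iff₀ hδ] at this
    linarith
  have hxx : (0 : ℝ) ≤ x := Nat.cast_nonneg _
  have hM0 : (0 : ℝ) < M := by exact_mod_cast hM
  -- the correlations
  have hcorr : ∀ k ∈ range T, ∀ k' ∈ range T, k < k' →
      ∑ n ∈ range x, g (n + k * M) * g (n + k' * M) ≤ 2 * η * x := by
    intro k hk k' hk' hlt
    rw [mem_range] at hk hk'
    have e1 := sum_shift (fun n => g n * g (n + (k' - k) * M)) (fun n => by
      rw [abs_mul]
      exact mul_le_one₀ (hgb _) (abs_nonneg _) (hgb _)) (k * M) x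
    have e2 : ∑ n ∈ range x, g (n + k * M) * g (n + k * M + (k' - k) * M) =
        ∑ n ∈ range x, g (n + k * M) * g (n + k' * M) := by
      refine sum_congr rfl fun n _ => ?_
      have : n + k * M + (k' - k) * M = n + k' * M := by
        obtain ⟨d, rfl⟩ := Nat.exists_eq_add_of_le hlt.le
        rw [Nat.add_sub_cancel_left]
        ring
      rw [this]
    have e3 : ∑ n ∈ range x, g n * g (n + (k' - k) * M) =
        ∑ n ∈ range x, cl M r n * l (n + a) * l (n + (a + (k' - k) * M)) := by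
      refine sum_congr rfl fun n _ => ?_
      rw [hg]
      simp only
      rw [cl_period]
      have : n + (k' - k) * M + a = n + (a + (k' - k) * M) := by ring
      rw [this]
      calc cl M r n * l (n + a) * (cl M r n * l (n + (a + (k' - k) * M))) =
          (cl M r n * cl M r n) * l (n + a) * l (n + (a + (k' - k) * M)) := by ring
        _ = _ := by rw [cl_sq]
    have e4 := hx1 (k' - k) (mem_range.2 (by omega)) (by omega)
    rw [e2, e3] at e1
    rw [abs_le] at e1 e4
    have e5 : 2 * (((k * M : ℕ)) : ℝ) ≤ 2 * T * M := by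
      push_cast
      have : (k : ℝ) ≤ T := by exact_mod_cast hk.le
      nlinarith
    linarith [e1.2, e4.2]
  have hsq : (∑ k ∈ range T, ∑ n ∈ range x, g (n + k * M)) ^ 2 ≤ (T * x * (δ / 2)) ^ 2 := by
    have e1 : ∑ k ∈ range T, ∑ n ∈ range x, g (n + k * M) =
        ∑ n ∈ range x, ∑ k ∈ range T, g (n + k * M) := sum_comm
    have e2 : (∑ n ∈ range x, ∑ k ∈ range T, g (n + k * M)) ^ 2 ≤
        x * ∑ n ∈ range x, (∑ k ∈ range T, g (n + k * M)) ^ 2 := by
      have := sq_sum_le_card_mul_sum_sq (s := range x) (f := fun n => ∑ k ∈ range T, g (n + k * M))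
      rwa [card_range] at this
    have e3 : ∑ n ∈ range x, (∑ k ∈ range T, g (n + k * M)) ^ 2 =
        ∑ k ∈ range T, ∑ k' ∈ range T, ∑ n ∈ range x, g (n + k * M) * g (n + k' * M) := by
      have : ∀ n, (∑ k ∈ range T, g (n + k * M)) ^ 2 =
          ∑ k ∈ range T, ∑ k' ∈ range T, g (n + k * M) * g (n + k' * M) := by
        intro n
        rw [pow_two, sum_mul_sum]
      simp only [this]
      rw [sum_comm]
      refine sum_congr rfl fun k _ => ?_
      rw [sum_comm]
    have e4 : ∑ k ∈ range T, ∑ k' ∈ range T, ∑ n ∈ range x, g (n + k * M) * g (n + k' * M) ≤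
        ∑ k ∈ range T, ∑ k' ∈ range T, ((if k = k' then (x : ℝ) else 0) + 2 * η * x) := by
      refine sum_le_sum fun k hk => sum_le_sum fun k' hk' => ?_
      rcases lt_trichotomy k k' with h | h | h
      · rw [if_neg h.ne, zero_add]
        exact hcorr k hk k' hk' h
      · subst h
        rw [if_pos rfl]
        have : ∑ n ∈ range x, g (n + k * M) * g (n + k * M) ≤ ∑ _n ∈ range x, (1 : ℝ) := by
          refine sum_le_sum fun n _ => ?_
          have h5 := hgb (n + k * M)
          rw [← abs_mul_abs_self]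
          exact mul_le_one₀ h5 (abs_nonneg _) h5
        have h6 : ∑ _n ∈ range x, (1 : ℝ) = x := by simp
        rw [h6] at this
        have : 0 ≤ 2 * η * x := by positivity
        linarith
      · rw [if_neg h.ne', zero_add]
        have : ∑ n ∈ range x, g (n + k * M) * g (n + k' * M) =
            ∑ n ∈ range x, g (n + k' * M) * g (n + k * M) := sum_congr rfl fun n _ => mul_comm _ _
        rw [this]
        exact hcorr k' hk' k hk h
    have e5 : ∑ k ∈ range T, ∑ k' ∈ range T, ((if k = k' then (x : ℝ) else 0) + 2 * η * x) =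
        T * x + T ^ 2 * (2 * η * x) := by
      have : ∀ k ∈ range T, ∑ k' ∈ range T, ((if k = k' then (x : ℝ) else 0) + 2 * η * x) =
          x + T * (2 * η * x) := by
        intro k hk
        rw [sum_add_distrib, sum_ite_eq, if_pos hk, sum_const, card_range, nsmul_eq_mul]
      rw [sum_congr rfl this, sum_const, card_range, nsmul_eq_mul]
      ring
    have e6 : (T : ℝ) * x + T ^ 2 * (2 * η * x) ≤ x * (T ^ 2 * (δ ^ 2 / 4)) := by
      have h7 : (16 : ℝ) ≤ T * δ ^ 2 := by
        rw [div_le_iff₀ (by positivity)] at hT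
        exact hT
      have h8 : (T : ℝ) ≤ T ^ 2 * (δ ^ 2 / 16) := by nlinarith
      rw [hη]
      nlinarith
    calc (∑ k ∈ range T, ∑ n ∈ range x, g (n + k * M)) ^ 2 ≤
        x * ∑ n ∈ range x, (∑ k ∈ range T, g (n + k * M)) ^ 2 := by rw [e1]; exact e2
      _ ≤ x * (x * (T ^ 2 * (δ ^ 2 / 4))) := by
          apply mul_le_mul_of_nonneg_left _ hxx
          rw [e3]
          linarith
      _ = (T * x * (δ / 2)) ^ 2 := by ring
  have hlin : |∑ k ∈ range T, ∑ n ∈ range x, g (n + k * M)| ≤ T * x * (δ / 2) :=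
    abs_le_of_sq_le_sq hsq (by positivity)
  have hT1 : |(T : ℝ) * ∑ n ∈ range x, g n - ∑ k ∈ range T, ∑ n ∈ range x, g (n + k * M)| ≤
      T * (2 * T * M) := by
    have e1 : (T : ℝ) * ∑ n ∈ range x, g n - ∑ k ∈ range T, ∑ n ∈ range x, g (n + k * M) =
        ∑ k ∈ range T, (∑ n ∈ range x, g n - ∑ n ∈ range x, g (n + k * M)) := by
      rw [sum_sub_distrib, sum_const, card_range, nsmul_eq_mul]
    rw [e1]
    calc |∑ k ∈ range T, (∑ n ∈ range x, g n - ∑ n ∈ range x, g (n + k * M))| ≤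
        ∑ k ∈ range T, |∑ n ∈ range x, g n - ∑ n ∈ range x, g (n + k * M)| :=
          abs_sum_le_sum_abs _ _
      _ ≤ ∑ k ∈ range T, 2 * (T : ℝ) * M := by
          refine sum_le_sum fun k hk => ?_
          rw [abs_sub_comm]
          refine (sum_shift g hgb (k * M) x).trans ?_
          push_cast
          have : (k : ℝ) ≤ T := by exact_mod_cast (mem_range.1 hk).le
          nlinarith
      _ = T * (2 * T * M) := by rw [sum_const, card_range, nsmul_eq_mul]
  have hfin : |(T : ℝ) * ∑ n ∈ range x, g n| ≤ T * (δ * x) := by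
    have e1 : (T : ℝ) * (2 * T * M) ≤ T * (δ * x / 2) :=
      mul_le_mul_of_nonneg_left (by linarith) hT0.le
    rw [abs_le] at *
    constructor <;> nlinarith [hlin.1, hlin.2, hT1.1, hT1.2]
  rw [abs_mul, abs_of_pos hT0] at hfin
  exact le_of_mul_le_mul_left hfin hT0

/-- the size of a class -/
lemma cl_sum (M r x : ℕ) (hM : 1 ≤ M) : (x : ℝ) / M - 1 ≤ ∑ n ∈ range x, cl M r n := by
  have h1 : ∑ n ∈ range x, cl M r n = (((range x).filter fun n => n ≡ r [MOD M]).card : ℝ) := by
    unfold cl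
    rw [sum_ite, sum_const_zero, add_zero, sum_const, nsmul_eq_mul, mul_one]
  have h2 : x / M ≤ ((range x).filter fun n => n ≡ r [MOD M]).card := by
    rw [← card_range (x / M)]
    refine card_le_card_of_injOn (fun k => r % M + k * M) ?_ ?_
    · intro k hk
      rw [mem_coe, mem_range] at hk
      rw [mem_coe, mem_filter, mem_range]
      constructor
      · have h4 : (k + 1) * M ≤ x / M * M := Nat.mul_le_mul_right M hk
        have h5 := Nat.div_mul_le_self x M
        have h6 : (k + 1) * M = k * M + M := by ring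
        have h7 := Nat.mod_lt r (show 0 < M from hM)
        show r % M + k * M < x
        omega
      · unfold Nat.ModEq
        simp
    · intro k _ k' _ h
      have h4 : k * M = k' * M := by
        have : r % M + k * M = r % M + k' * M := h
        omega
      exact Nat.eq_of_mul_eq_mul_right hM h4
  have hM0 : (0 : ℝ) < M := by exact_mod_cast hM
  have h3 : (x : ℝ) / M < ((x / M : ℕ) : ℝ) + 1 := by
    rw [div_lt_iff₀ hM0]
    have h10 : x < M * (x / M + 1) := Nat.lt_mul_div_succ x (show 0 < M by omega)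
    calc (x : ℝ) < ((M * (x / M + 1) : ℕ) : ℝ) := by exact_mod_cast h10
      _ = (((x / M : ℕ) : ℝ) + 1) * M := by push_cast; ring
  have h4 : ((x / M : ℕ) : ℝ) ≤ (((range x).filter fun n => n ≡ r [MOD M]).card : ℝ) := by
    exact_mod_cast h2
  rw [h1]
  linarith

/-- all patterns on three places of a class -/
lemma Hyp.triple (H : Hyp F l c) (M : ℕ) (hM : 1 ≤ M) (r : ℕ) (p : Fin 3 → ℕ)
    (hp : Function.Injective p) (e : Fin 3 → ℝ) (he : ∀ i, e i = 1 ∨ e i = -1) :
    ∀ᶠ x in F, c / (16 * M) * x ≤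
      ∑ n ∈ range x, if n ≡ r [MOD M] ∧ ∀ i, l (n + p i) = e i then (1 : ℝ) else 0 := by
  have hM0 : (0 : ℝ) < M := by exact_mod_cast hM
  have hc0 := H.c0
  set δ : ℝ := c / (24 * M) with hδ
  have hδ0 : 0 < δ := by positivity
  have hne : ∀ i j, i ≠ j → p i ≠ p j := fun i j h => hp.ne h
  have h0 := H.one M hM r (p 0) δ hδ0
  have h1 := H.one M hM r (p 1) δ hδ0
  have h2 := H.one M hM r (p 2) δ hδ0
  have h01 := H.pair M hM r (p 0) (p 1) (hne 0 1 (by decide)) δ hδ0
  have h02 := H.pair M hM r (p 0) (p 2) (hne 0 2 (by decide)) δ hδ0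
  have h12 := H.pair M hM r (p 1) (p 2) (hne 1 2 (by decide)) δ hδ0
  have h012 := H.three M hM r p hp
  have hbig : ∀ᶠ x : ℕ in F, ⌈4 * M / c⌉₊ ≤ x := H.le (eventually_ge_atTop _)
  filter_upwards [h0, h1, h2, h01, h02, h12, h012, hbig] with x g0 g1 g2 g01 g02 g12 g012 gb
  have gb' : 4 * (M : ℝ) ≤ c * x := by
    have : 4 * (M : ℝ) / c ≤ x := (Nat.le_ceil _).trans (by exact_mod_cast gb)
    rw [div_le_iff₀ hc0] at this
    linarith
  have hexp : ∀ n, (if n ≡ r [MOD M] ∧ ∀ i, l (n + p i) = e i then (1 : ℝ) else 0) =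
      1 / 8 * (cl M r n + e 0 * (cl M r n * l (n + p 0)) + e 1 * (cl M r n * l (n + p 1)) +
        e 2 * (cl M r n * l (n + p 2)) + e 0 * e 1 * (cl M r n * l (n + p 0) * l (n + p 1)) +
        e 0 * e 2 * (cl M r n * l (n + p 0) * l (n + p 2)) +
        e 1 * e 2 * (cl M r n * l (n + p 1) * l (n + p 2)) +
        e 0 * e 1 * e 2 * (cl M r n * (l (n + p 0) * l (n + p 1) * l (n + p 2)))) := by
    intro n
    unfold cl
    by_cases hn : n ≡ r [MOD M]
    · simp only [hn, true_and, if_true, Fin.forall_fin_succ, Fin.forall_fin_zero_pi, Fin.succ_zero_eq_one,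
        Fin.succ_one_eq_two, IsEmpty.forall_iff, and_true]
      rcases H.pm (n + p 0) with a0 | a0 <;> rcases H.pm (n + p 1) with a1 | a1 <;>
        rcases H.pm (n + p 2) with a2 | a2 <;> rcases he 0 with b0 | b0 <;>
        rcases he 1 with b1 | b1 <;> rcases he 2 with b2 | b2 <;>
        rw [a0, a1, a2, b0, b1, b2] <;> norm_num
    · simp [hn]
  have hsum : ∑ n ∈ range x, (if n ≡ r [MOD M] ∧ ∀ i, l (n + p i) = e i then (1 : ℝ) else 0) =
      1 / 8 * (∑ n ∈ range x, cl M r n + e 0 * ∑ n ∈ range x, (cl M r n * l (n + p 0)) +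
        e 1 * ∑ n ∈ range x, (cl M r n * l (n + p 1)) +
        e 2 * ∑ n ∈ range x, (cl M r n * l (n + p 2)) +
        e 0 * e 1 * ∑ n ∈ range x, (cl M r n * l (n + p 0) * l (n + p 1)) +
        e 0 * e 2 * ∑ n ∈ range x, (cl M r n * l (n + p 0) * l (n + p 2)) +
        e 1 * e 2 * ∑ n ∈ range x, (cl M r n * l (n + p 1) * l (n + p 2)) +
        e 0 * e 1 * e 2 * ∑ n ∈ range x, (cl M r n * (l (n + p 0) * l (n + p 1) * l (n + p 2)))) := by
    simp only [mul_sum, ← sum_add_distrib]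
    exact sum_congr rfl fun n _ => hexp n
  rw [hsum]
  have hcl := cl_sum M r x hM
  have hab : ∀ (u S D : ℝ), (u = 1 ∨ u = -1) → |S| ≤ D → -D ≤ u * S := by
    intro u S D hu hS
    rw [abs_le] at hS
    rcases hu with rfl | rfl <;> linarith [hS.1, hS.2]
  have hmul : ∀ i j, (e i * e j = 1 ∨ e i * e j = -1) := by
    intro i j
    rcases he i with h | h <;> rcases he j with h' | h' <;> rw [h, h'] <;> norm_num
  have hmul3 : e 0 * e 1 * e 2 = 1 ∨ e 0 * e 1 * e 2 = -1 := by
    rcases hmul 0 1 with h | h <;> rcases he 2 with h' | h' <;> rw [h, h'] <;> norm_num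
  have k0 := hab _ _ _ (he 0) g0
  have k1 := hab _ _ _ (he 1) g1
  have k2 := hab _ _ _ (he 2) g2
  have k01 := hab _ _ _ (hmul 0 1) g01
  have k02 := hab _ _ _ (hmul 0 2) g02
  have k12 := hab _ _ _ (hmul 1 2) g12
  have k012 := hab _ _ _ hmul3 g012
  have e1 : c / (16 * M) * x = 1 / 8 * (c * x / (2 * M)) := by field_simp; ring
  have e2 : 6 * (δ * x) = c * x / (4 * M) := by rw [hδ]; field_simp; ring
  have e3 : (1 - c) * (1 / M) * x = x / M - c * x / M := by field_simp
  have e4 : (1 : ℝ) ≤ c * x / (4 * M) := by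
    rw [le_div_iff₀ (by positivity)]
    linarith
  have e5 : c * x / M = 4 * (c * x / (4 * M)) := by field_simp
  have e6 : c * x / (2 * M) = 2 * (c * x / (4 * M)) := by field_simp; ring
  rw [e3] at k012
  rw [e1]
  apply mul_le_mul_of_nonneg_left _ (by norm_num : (0 : ℝ) ≤ 1 / 8)
  rw [e6]
  linarith

end Pool.Agent.K9h88.FC
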