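import Mathlib
import Pool.Agent.K9h88.FC.Change

/-! # Changes at finitely many primes -/

set_option autoImplicit false

namespace Pool.Agent.K9h88.FC

open Finset Filter

open Classical in
/-- the number of the `m`, `1 ≤ m ≤ x`, at which the pattern `ε` begins, that is
`f (m + j + 1) = ε j` for `j = 0, …, n - 1` -/
noncomputable def count {n : ℕ} (f : ℕ → ℤˣ) (ε : Fin n → ℤˣ) (x : ℕ) : ℕ :=
  ((Icc 1 x).filter fun m => ∀ j : Fin n, f (m + j + 1) = ε j).card

lemma class_count (M r x : ℕ) (hM : 1 ≤ M) :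
    x / M ≤ ((Icc 1 x).filter fun m => m ≡ r [MOD M]).card := by
  classical
  obtain ⟨r0, h1, h2, h3⟩ : ∃ r0, 1 ≤ r0 ∧ r0 ≤ M ∧ r0 ≡ r [MOD M] := by
    rcases Nat.eq_zero_or_pos (r % M) with h | h
    · exact ⟨M, hM, le_rfl, by unfold Nat.ModEq; rw [Nat.mod_self, h]⟩
    · exact ⟨r % M, h, (Nat.mod_lt _ hM).le, Nat.mod_modEq r M⟩
  rw [← card_range (x / M)]
  refine card_le_card_of_injOn (fun k => r0 + k * M) ?_ ?_
  · intro k hk
    rw [mem_coe, mem_range] at hk
    rw [mem_coe, mem_filter, mem_Icc]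
    refine ⟨⟨h1.trans (Nat.le_add_right _ _), ?_⟩, ?_⟩
    · have h4 : (k + 1) * M ≤ x / M * M := Nat.mul_le_mul_right M hk
      have h5 := Nat.div_mul_le_self x M
      have h6 : (k + 1) * M = k * M + M := by ring
      show r0 + k * M ≤ x
      omega
    · exact Nat.ModEq.trans (by unfold Nat.ModEq; simp) h3
  · intro k _ k' _ h
    have h4 : k * M = k' * M := by
      have : r0 + k * M = r0 + k' * M := h
      omega
    exact Nat.eq_of_mul_eq_mul_right hM h4

lemma popular (g : ℕ → ℤˣ) (n M r x : ℕ) (hM : 1 ≤ M) : ∃ u : Fin n → ℤˣ,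
    x / M ≤ 2 ^ n * ((Icc 1 x).filter fun m => m ≡ r [MOD M] ∧ ∀ j : Fin n, g (m + j + 1) = u j).card := by
  classical
  by_contra hcon
  push Not at hcon
  set C := (Icc 1 x).filter fun m => m ≡ r [MOD M] with hC
  have h1 : C.card = ∑ u : Fin n → ℤˣ,
      ((Icc 1 x).filter fun m => m ≡ r [MOD M] ∧ ∀ j : Fin n, g (m + j + 1) = u j).card := by
    rw [card_eq_sum_card_fiberwise (f := fun m => fun j : Fin n => g (m + j + 1))
      (t := univ) (fun _ _ => mem_univ _)]
    refine sum_congr rfl fun u _ => ?_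
    rw [hC, filter_filter]
    congr 1
    refine filter_congr fun m _ => ?_
    constructor
    · rintro ⟨h2, h3⟩
      exact ⟨h2, fun j => congrFun h3 j⟩
    · rintro ⟨h2, h3⟩
      exact ⟨h2, funext h3⟩
  have h2 := class_count M r x hM
  have h3 : ∑ u : Fin n → ℤˣ, 2 ^ n *
      ((Icc 1 x).filter fun m => m ≡ r [MOD M] ∧ ∀ j : Fin n, g (m + j + 1) = u j).card <
      ∑ _u : Fin n → ℤˣ, x / M :=
    sum_lt_sum_of_nonempty univ_nonempty fun u _ => hcon u
  rw [← mul_sum, ← h1, sum_const, card_univ, Fintype.card_pi] at h3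
  simp only [Fintype.card_units_int, prod_const, card_univ, Fintype.card_fin, smul_eq_mul] at h3
  have h4 := lt_of_mul_lt_mul_left h3 (Nat.zero_le _)
  exact absurd (lt_of_lt_of_le h4 h2) (lt_irrefl _)

/-- Sauer and Shelah -/
lemma vc {P : Finset ℕ} (n : ℕ) (𝒜 : Finset (Finset ℕ)) (h𝒜 : ∀ D ∈ 𝒜, D ⊆ P)
    (h : ∀ A ∈ P.powersetCard n, ¬ 𝒜.Shatters A) :
    𝒜.card ≤ ∑ i ∈ range n, P.card.choose i := by
  classical
  calc 𝒜.card ≤ 𝒜.shatterer.card := card_le_card_shatterer 𝒜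
    _ ≤ ((range n).biUnion fun i => P.powersetCard i).card := by
        apply card_le_card
        intro s hs
        rw [mem_shatterer] at hs
        obtain ⟨t, ht, hst⟩ := hs.exists_superset
        have hsP : s ⊆ P := hst.trans (h𝒜 t ht)
        rw [mem_biUnion]
        refine ⟨s.card, ?_, mem_powersetCard.2 ⟨hsP, rfl⟩⟩
        rw [mem_range]
        by_contra hlt
        obtain ⟨A, hA, hAn⟩ := exists_subset_card_eq (not_lt.1 hlt)
        exact h A (mem_powersetCard.2 ⟨hA.trans hsP, hAn⟩) (hs.mono_right hA)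
    _ ≤ ∑ i ∈ range n, (P.powersetCard i).card := card_biUnion_le
    _ = ∑ i ∈ range n, P.card.choose i := sum_congr rfl fun i _ => card_powersetCard i P

open Classical in
/-- few bad changes along a set of scales with the same popular patterns -/
lemma few_of (g : ℕ → ℤˣ) (n : ℕ) (P : Finset ℕ) (hP : ∀ p ∈ P, p.Prime) (Y : Set ℕ)
    (hY : ∀ x ∈ Y, ∏ p ∈ P, p ^ 2 ≤ x)
    (π : Finset ℕ → Fin n → ℕ) (r : Finset ℕ → ℕ) (u : Finset ℕ → Fin n → ℤˣ)
    (hπ : ∀ A ∈ P.powersetCard n, (∀ j, π A j ∈ A) ∧ Function.Injective (π A) ∧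
      ∀ (g : ℕ → ℤˣ) (D : Finset ℕ), D ⊆ P → ∀ m : ℕ, m ≡ r A [MOD ∏ p ∈ P, p ^ 2] →
        ∀ j : Fin n, change g D (m + j + 1) = g (m + j + 1) * if π A j ∈ D then (-1 : ℤˣ) else 1)
    (hu : ∀ A ∈ P.powersetCard n, ∀ x ∈ Y, x / ∏ p ∈ P, p ^ 2 ≤ 2 ^ n *
      ((Icc 1 x).filter fun m => m ≡ r A [MOD ∏ p ∈ P, p ^ 2] ∧
        ∀ j : Fin n, g (m + j + 1) = u A j).card) (ε : Fin n → ℤˣ) :
    (P.powerset.filter fun D : Finset ℕ => ¬ ∀ x ∈ Y,
      x ≤ 2 ^ (n + 1) * (∏ p ∈ P, p ^ 2) * count (change g D) ε x).card ≤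
        ∑ i ∈ range n, P.card.choose i := by
  set M := ∏ p ∈ P, p ^ 2 with hMdef
  have hM : 1 ≤ M := Nat.one_le_iff_ne_zero.2 (prod_ne_zero_iff.2 fun p hp =>
    pow_ne_zero _ (hP p hp).ne_zero)
  apply vc n
  · intro D hD
    exact mem_powerset.1 (mem_filter.1 hD).1
  · intro A hA hsh
    obtain ⟨h1, h2, h3⟩ := hπ A hA
    have hAP := (mem_powersetCard.1 hA).1
    obtain ⟨D, hD, hDA⟩ := hsh (t := (univ.filter fun j => ε j ≠ u A j).image (π A)) (by
      intro p hp
      obtain ⟨j, _, rfl⟩ := mem_image.1 hp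
      exact h1 j)
    obtain ⟨hDP, hbad⟩ := mem_filter.1 hD
    rw [mem_powerset] at hDP
    apply hbad
    intro x hx
    have hmem : ∀ j, π A j ∈ D ↔ ε j ≠ u A j := by
      intro j
      have h4 : π A j ∈ A ∩ D ↔ π A j ∈ D := by
        rw [mem_inter]
        exact ⟨fun h => h.2, fun h => ⟨h1 j, h⟩⟩
      rw [← h4, hDA, mem_image]
      constructor
      · rintro ⟨j', hj', h5⟩
        rw [← h2 h5]
        exact (mem_filter.1 hj').2
      · intro h5
        exact ⟨j, mem_filter.2 ⟨mem_univ _, h5⟩, rfl⟩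
    have h4 : ((Icc 1 x).filter fun m => m ≡ r A [MOD M] ∧
        ∀ j : Fin n, g (m + j + 1) = u A j).card ≤ count (change g D) ε x := by
      unfold count
      apply card_le_card
      intro m hm
      rw [mem_filter] at hm ⊢
      obtain ⟨hm1, hm2, hm3⟩ := hm
      refine ⟨hm1, fun j => ?_⟩
      rw [h3 g D hDP m hm2 j, hm3 j]
      by_cases h5 : ε j = u A j
      · have h6 : π A j ∉ D := by
          rw [hmem]
          simpa using h5
        simp [h6, h5]
      · have h6 : π A j ∈ D := (hmem j).2 h5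
        simp only [h6, if_true, mul_neg, mul_one]
        exact (Int.units_ne_iff_eq_neg.1 h5).symm
    have h5 : x ≤ 2 * M * (x / M) := by
      have h6 : 1 ≤ x / M := (Nat.one_le_div_iff hM).2 (hY x hx)
      have h7 := Nat.div_add_mod x M
      have h8 := Nat.mod_lt x hM
      nlinarith
    calc x ≤ 2 * M * (x / M) := h5
      _ ≤ 2 * M * (2 ^ n * count (change g D) ε x) :=
        Nat.mul_le_mul_left _ ((hu A hA x hx).trans (Nat.mul_le_mul_left _ h4))
      _ = 2 ^ (n + 1) * M * count (change g D) ε x := by ring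

open Classical in
/-- **(a)** at one scale -/
theorem few_at (g : ℕ → ℤˣ) (n : ℕ) (P : Finset ℕ) (hP : ∀ p ∈ P, p.Prime)
    (hn : ∀ p ∈ P, n < p) (ε : Fin n → ℤˣ) (x : ℕ) (hx : ∏ p ∈ P, p ^ 2 ≤ x) :
    (P.powerset.filter fun D : Finset ℕ =>
      ¬ x ≤ 2 ^ (n + 1) * (∏ p ∈ P, p ^ 2) * count (change g D) ε x).card ≤
        ∑ i ∈ range n, P.card.choose i := by
  have hM : 1 ≤ ∏ p ∈ P, p ^ 2 := Nat.one_le_iff_ne_zero.2 (prod_ne_zero_iff.2 fun p hp =>
    pow_ne_zero _ (hP p hp).ne_zero)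
  have h0 : ∀ A : Finset ℕ, ∃ (π : Fin n → ℕ) (r : ℕ), A ∈ P.powersetCard n →
      (∀ j, π j ∈ A) ∧ Function.Injective π ∧
      ∀ (g : ℕ → ℤˣ) (D : Finset ℕ), D ⊆ P → ∀ m : ℕ, m ≡ r [MOD ∏ p ∈ P, p ^ 2] → ∀ j : Fin n,
        change g D (m + j + 1) = g (m + j + 1) * if π j ∈ D then (-1 : ℤˣ) else 1 := by
    intro A
    by_cases hA : A ∈ P.powersetCard n
    · obtain ⟨π, r, h⟩ := on_class n P hP hn A hA
      exact ⟨π, r, fun _ => h⟩
    · exact ⟨fun _ => 0, 0, fun h => absurd h hA⟩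
  choose π r hπ using h0
  choose u hu using fun A => popular g n (∏ p ∈ P, p ^ 2) (r A) x hM
  have h := few_of g n P hP {x} (by rintro y rfl; exact hx) π r u hπ
    (by rintro A hA y rfl; exact hu A) ε
  simpa using h

open Classical in
/-- **(b)** along one sequence of scales -/
theorem few_along (g : ℕ → ℤˣ) (n : ℕ) (P : Finset ℕ) (hP : ∀ p ∈ P, p.Prime)
    (hn : ∀ p ∈ P, n < p) :
    ∃ X : ℕ → ℕ, StrictMono X ∧ ∀ ε : Fin n → ℤˣ,
      (P.powerset.filter fun D : Finset ℕ => ¬ ∀ k,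
        X k ≤ 2 ^ (n + 1) * (∏ p ∈ P, p ^ 2) * count (change g D) ε (X k)).card ≤
          ∑ i ∈ range n, P.card.choose i := by
  have hM : 1 ≤ ∏ p ∈ P, p ^ 2 := Nat.one_le_iff_ne_zero.2 (prod_ne_zero_iff.2 fun p hp =>
    pow_ne_zero _ (hP p hp).ne_zero)
  have h0 : ∀ A : Finset ℕ, ∃ (π : Fin n → ℕ) (r : ℕ), A ∈ P.powersetCard n →
      (∀ j, π j ∈ A) ∧ Function.Injective π ∧
      ∀ (g : ℕ → ℤˣ) (D : Finset ℕ), D ⊆ P → ∀ m : ℕ, m ≡ r [MOD ∏ p ∈ P, p ^ 2] → ∀ j : Fin n,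
        change g D (m + j + 1) = g (m + j + 1) * if π j ∈ D then (-1 : ℤˣ) else 1 := by
    intro A
    by_cases hA : A ∈ P.powersetCard n
    · obtain ⟨π, r, h⟩ := on_class n P hP hn A hA
      exact ⟨π, r, fun _ => h⟩
    · exact ⟨fun _ => 0, 0, fun h => absurd h hA⟩
  choose π r hπ using h0
  set M := ∏ p ∈ P, p ^ 2 with hMdef
  set Good : ℕ → (P.powersetCard n → Fin n → ℤˣ) → Prop := fun x u => ∀ A : P.powersetCard n,
    x / M ≤ 2 ^ n * ((Icc 1 x).filter fun m => m ≡ r A [MOD M] ∧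
      ∀ j : Fin n, g (m + j + 1) = u A j).card with hGood
  have hpop : ∀ x, ∃ u, Good x u := by
    intro x
    choose u hu using fun A : P.powersetCard n => popular g n M (r A) x hM
    exact ⟨u, hu⟩
  obtain ⟨u, hu⟩ : ∃ u, ∃ᶠ x in atTop, Good x u := by
    by_contra hcon
    push Not at hcon
    have h1 : ∀ u, ∀ᶠ x in atTop, ¬ Good x u := by
      intro u
      have := hcon u
      simpa [Filter.not_frequently] using this
    obtain ⟨x, hx⟩ := (eventually_all.2 h1).exists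
    obtain ⟨u, hu⟩ := hpop x
    exact hx u hu
  obtain ⟨X, hX, hX2⟩ := extraction_of_frequently_atTop (hu.and_eventually (eventually_ge_atTop M))
  refine ⟨X, hX, fun ε => ?_⟩
  have h := few_of g n P hP (Set.range X) (by rintro y ⟨k, rfl⟩; exact (hX2 k).2) π r
    (fun A => if hA : A ∈ P.powersetCard n then u ⟨A, hA⟩ else 1) hπ
    (by
      rintro A hA y ⟨k, rfl⟩
      have h1 := (hX2 k).1 ⟨A, hA⟩
      simp only [hA, dif_pos]
      exact h1) ε
  simpa using h

/-- at each prefix of the binomial coefficients: the sum is small -/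
lemma binom_bound (N n : ℕ) :
    (∑ i ∈ range n, (N.choose i : ℝ)) ≤ 4 ^ n * (5 / 4) ^ N := by
  have h1 : ((1 : ℝ) / 4 + 1) ^ N = ∑ i ∈ range (N + 1), (1 / 4 : ℝ) ^ i * (N.choose i : ℝ) := by
    rw [add_pow]
    refine sum_congr rfl fun i _ => ?_
    ring
  have h2 : ∑ i ∈ range n, (1 / 4 : ℝ) ^ n * (N.choose i : ℝ) ≤
      ∑ i ∈ range (N + 1), (1 / 4 : ℝ) ^ i * (N.choose i : ℝ) := by
    calc ∑ i ∈ range n, (1 / 4 : ℝ) ^ n * (N.choose i : ℝ)
        ≤ ∑ i ∈ range n, (1 / 4 : ℝ) ^ i * (N.choose i : ℝ) := by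
          refine sum_le_sum fun i hi => ?_
          apply mul_le_mul_of_nonneg_right _ (Nat.cast_nonneg _)
          exact pow_le_pow_of_le_one (by norm_num) (by norm_num) (mem_range.1 hi).le
      _ ≤ ∑ i ∈ range (n + (N + 1)), (1 / 4 : ℝ) ^ i * (N.choose i : ℝ) :=
          sum_le_sum_of_subset_of_nonneg (range_mono (by omega)) fun i _ _ => by positivity
      _ = ∑ i ∈ range (N + 1), (1 / 4 : ℝ) ^ i * (N.choose i : ℝ) := by
          symm
          apply sum_subset (range_mono (by omega))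
          intro i _ hi
          rw [mem_range, not_lt] at hi
          rw [Nat.choose_eq_zero_of_lt (by omega)]
          simp
  rw [← mul_sum, ← h1] at h2
  have h3 : (∑ i ∈ range n, (N.choose i : ℝ)) =
      4 ^ n * ((1 / 4 : ℝ) ^ n * ∑ i ∈ range n, (N.choose i : ℝ)) := by
    rw [← mul_assoc, ← mul_pow]
    norm_num
  rw [h3]
  apply mul_le_mul_of_nonneg_left _ (by positivity)
  refine h2.trans (le_of_eq ?_)
  norm_num

/-- a pattern with all signs `-1` needs `n` changes of the constant function `1` -/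
lemma need (n : ℕ) (D : Finset ℕ) (hP : ∀ p ∈ D, p.Prime) (hn : ∀ p ∈ D, n < p) (m : ℕ)
    (h : ∀ j : Fin n, change 1 (D : Set ℕ) (m + j + 1) = -1) : n ≤ D.card := by
  classical
  have h1 : ∀ j : Fin n, ∃ p ∈ D, p ∣ m + j + 1 := by
    intro j
    by_contra hcon
    push Not at hcon
    have h2 : change 1 (D : Set ℕ) (m + j + 1) = 1 := by
      unfold change
      rw [Pi.one_apply, one_mul]
      unfold Finsupp.prod
      apply prod_eq_one
      intro p hp
      rw [Nat.support_factorization] at hp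
      have : p ∉ (D : Set ℕ) := fun hpD => hcon p hpD (Nat.dvd_of_mem_primeFactors hp)
      simp [this]
    rw [h j] at h2
    exact absurd h2 (by decide)
  choose f hf1 hf2 using h1
  have h2 : Function.Injective f := by
    intro i j hij
    by_contra hne
    have hv : (i : ℕ) ≠ j := fun h => hne (Fin.ext h)
    have hlt := hn (f i) (hf1 i)
    have l1 := i.isLt
    have l2 := j.isLt
    have d1 := hf2 i
    have d2 := hf2 j
    rw [← hij] at d2
    rcases lt_or_gt_of_ne hv with h3 | h3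
    · have h4 : m + (j : ℕ) + 1 = (m + i + 1) + ((j : ℕ) - i) := by omega
      rw [h4] at d2
      have h5 := Nat.le_of_dvd (by omega) ((Nat.dvd_add_right d1).1 d2)
      omega
    · have h4 : m + (i : ℕ) + 1 = (m + j + 1) + ((i : ℕ) - j) := by omega
      rw [h4] at d1
      have h5 := Nat.le_of_dvd (by omega) ((Nat.dvd_add_right d2).1 d1)
      omega
  have h3 := card_le_card_of_injOn (s := univ) (t := D) f (fun i _ => hf1 i) h2.injOn
  simpa using h3

open Classical in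
/-- **(c)** the bound is attained -/
theorem sharp (n : ℕ) (P : Finset ℕ) (hP : ∀ p ∈ P, p.Prime) (hn : ∀ p ∈ P, n < p) :
    (P.powerset.filter fun D : Finset ℕ => ¬ ∃ m : ℕ, 1 ≤ m ∧ ∀ j : Fin n,
      change 1 (D : Set ℕ) (m + j + 1) = -1).card = ∑ i ∈ range n, P.card.choose i := by
  apply le_antisymm
  · refine le_trans (card_le_card ?_)
      (few_at 1 n P hP hn (fun _ => -1) (∏ p ∈ P, p ^ 2) le_rfl)
    intro D hD
    rw [mem_filter] at hD ⊢
    refine ⟨hD.1, fun hle => hD.2 ?_⟩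
    have hM : 1 ≤ ∏ p ∈ P, p ^ 2 := Nat.one_le_iff_ne_zero.2 (prod_ne_zero_iff.2 fun p hp =>
      pow_ne_zero _ (hP p hp).ne_zero)
    have h1 : count (change 1 (D : Set ℕ)) (fun _ : Fin n => (-1 : ℤˣ)) (∏ p ∈ P, p ^ 2) ≠ 0 := by
      intro h0
      rw [h0, mul_zero] at hle
      omega
    unfold count at h1
    obtain ⟨m, hm⟩ := card_ne_zero.1 h1
    rw [mem_filter, mem_Icc] at hm
    exact ⟨m, hm.1.1, hm.2⟩
  · have h1 : ((range n).biUnion fun i => P.powersetCard i) ⊆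
        P.powerset.filter fun D : Finset ℕ => ¬ ∃ m : ℕ, 1 ≤ m ∧ ∀ j : Fin n,
          change 1 (D : Set ℕ) (m + j + 1) = -1 := by
      intro D hD
      rw [mem_biUnion] at hD
      obtain ⟨i, hi, hD⟩ := hD
      rw [mem_powersetCard] at hD
      rw [mem_range] at hi
      rw [mem_filter, mem_powerset]
      refine ⟨hD.1, ?_⟩
      rintro ⟨m, -, hm⟩
      have := need n D (fun p hp => hP p (hD.1 hp)) (fun p hp => hn p (hD.1 hp)) m hm
      omega
    refine le_trans (le_of_eq ?_) (card_le_card h1)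
    rw [card_biUnion]
    · exact sum_congr rfl fun i _ => (card_powersetCard i P).symm
    · intro i _ j _ hij
      exact pairwise_disjoint_powersetCard P hij

end Pool.Agent.K9h88.FC
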