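import Mathlib
import Pool.Agent.K9h88.FC.Few

/-! # Random and generic changes at an infinite set of primes -/

set_option autoImplicit false

namespace Pool.Agent.K9h88.FC

open Finset Filter MeasureTheory

/-- the primes of `Q` chosen by the coins `ω` -/
def chosen (Q : Set ℕ) (ω : Q → Bool) : Set ℕ := {p | ∃ h : p ∈ Q, ω ⟨p, h⟩ = true}

/-- a fair coin -/
noncomputable def coin : Measure Bool :=
  (2 : ENNReal)⁻¹ • Measure.dirac true + (2 : ENNReal)⁻¹ • Measure.dirac false

instance : IsProbabilityMeasure coin := ⟨by simp [coin, ENNReal.inv_two_add_inv_two]⟩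

lemma coin_not : coin.map not = coin := by
  unfold coin
  have h : Measurable (not : Bool → Bool) := Measurable.of_discrete
  rw [Measure.map_add _ _ h, Measure.map_smul, Measure.map_smul]
  have h1 : Measure.map not (Measure.dirac true) = Measure.dirac false := Measure.map_dirac' h true
  have h2 : Measure.map not (Measure.dirac false) = Measure.dirac true := Measure.map_dirac' h false
  rw [h1, h2, add_comm]

/-- the pattern `ε` occurs in `f` with positive upper density: for some `K` it begins at `x / K` or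
more of the `m ≤ x`, for arbitrarily large `x` -/
def PosUpper {n : ℕ} (f : ℕ → ℤˣ) (ε : Fin n → ℤˣ) : Prop :=
  ∃ K : ℕ, ∃ᶠ x in atTop, x ≤ K * count f ε x

open Classical in
/-- turn the coins of `S` -/
noncomputable def flip (Q : Set ℕ) (S : Finset ℕ) (ω : Q → Bool) : Q → Bool :=
  fun k => if (k : ℕ) ∈ S then !ω k else ω k

lemma chosen_flip (Q : Set ℕ) (S : Finset ℕ) (hS : (S : Set ℕ) ⊆ Q) (ω : Q → Bool) :
    chosen Q (flip Q S ω) = symmDiff (chosen Q ω) (S : Set ℕ) := by
  classical
  ext p
  rw [Set.mem_symmDiff]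
  unfold chosen flip
  simp only [Set.mem_setOf_eq, mem_coe]
  by_cases hpQ : p ∈ Q
  · by_cases hpS : p ∈ S
    · simp [hpQ, hpS]
    · simp [hpQ, hpS]
  · have hpS : p ∉ S := fun h => hpQ (hS h)
    simp [hpQ, hpS]

lemma change_flip (g : ℕ → ℤˣ) (Q : Set ℕ) (S : Finset ℕ) (hS : (S : Set ℕ) ⊆ Q) (ω : Q → Bool) :
    change g (chosen Q (flip Q S ω)) = change (change g (chosen Q ω)) (S : Set ℕ) := by
  rw [chosen_flip Q S hS ω]
  funext m
  rw [change_change]

open Classical in
lemma few_flips (g : ℕ → ℤˣ) (Q : Set ℕ) {n : ℕ} (F : Finset ℕ) (hF : ∀ p ∈ F, p.Prime)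
    (hn : ∀ p ∈ F, n < p) (hFQ : (F : Set ℕ) ⊆ Q) (ε : Fin n → ℤˣ) (ω : Q → Bool) :
    (F.powerset.filter fun S : Finset ℕ =>
      ¬ PosUpper (change g (chosen Q (flip Q S ω))) ε).card ≤
        ∑ i ∈ range n, F.card.choose i := by
  obtain ⟨X, hX, h⟩ := few_along (change g (chosen Q ω)) n F hF hn
  refine le_trans (card_le_card ?_) (h ε)
  intro S hS
  rw [mem_filter] at hS ⊢
  refine ⟨hS.1, fun hall => hS.2 ?_⟩
  have hSQ : (S : Set ℕ) ⊆ Q := fun p hp => hFQ (mem_powerset.1 hS.1 hp)
  rw [change_flip g Q S hSQ ω]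
  refine ⟨2 ^ (n + 1) * ∏ p ∈ F, p ^ 2, ?_⟩
  rw [frequently_atTop]
  intro a
  exact ⟨X a, hX.id_le a, hall a⟩

lemma meas_change (g : ℕ → ℤˣ) (Q : Set ℕ) (m : ℕ) (v : ℤˣ) :
    MeasurableSet {ω : Q → Bool | change g (chosen Q ω) m = v} := by
  classical
  have h1 : Measurable fun ω : Q → Bool => ((change g (chosen Q ω) m : ℤˣ) : ℤ) := by
    unfold change Finsupp.prod
    simp only [Units.val_mul, Units.coe_prod]
    apply Measurable.const_mul
    apply Finset.measurable_fun_prod
    intro p _
    have h2 : ∀ ω : Q → Bool, (((if p ∈ chosen Q ω then (-1) ^ (m.factorization p) else 1 : ℤˣ)) : ℤ) =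
        if p ∈ chosen Q ω then (-1) ^ (m.factorization p) else 1 := by
      intro ω
      split_ifs <;> simp
    simp only [h2]
    refine Measurable.ite ?_ measurable_const measurable_const
    unfold chosen
    by_cases hp : p ∈ Q
    · have : {ω : Q → Bool | p ∈ {p | ∃ h : p ∈ Q, ω ⟨p, h⟩ = true}} =
          (fun ω : Q → Bool => ω ⟨p, hp⟩) ⁻¹' {true} := by
        ext ω
        simp [hp]
      rw [this]
      exact measurable_pi_apply _ (measurableSet_singleton _)
    · have : {ω : Q → Bool | p ∈ {p | ∃ h : p ∈ Q, ω ⟨p, h⟩ = true}} = ∅ := by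
        ext ω
        simp [hp]
      rw [this]
      exact MeasurableSet.empty
  have h3 : {ω : Q → Bool | change g (chosen Q ω) m = v} =
      (fun ω : Q → Bool => ((change g (chosen Q ω) m : ℤˣ) : ℤ)) ⁻¹' {(v : ℤ)} := by
    ext ω
    simp only [Set.mem_setOf_eq, Set.mem_preimage, Set.mem_singleton_iff]
    exact Units.ext_iff
  rw [h3]
  exact h1 (measurableSet_singleton _)

lemma meas_pos (g : ℕ → ℤˣ) (Q : Set ℕ) {n : ℕ} (ε : Fin n → ℤˣ) :
    MeasurableSet {ω : Q → Bool | PosUpper (change g (chosen Q ω)) ε} := by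
  classical
  have h1 : ∀ x, Measurable fun ω : Q → Bool => count (change g (chosen Q ω)) ε x := by
    intro x
    unfold count
    simp only [card_filter]
    apply Finset.measurable_fun_sum
    intro m _
    refine Measurable.ite ?_ measurable_const measurable_const
    have : {ω : Q → Bool | ∀ j : Fin n, change g (chosen Q ω) (m + j + 1) = ε j} =
        ⋂ j : Fin n, {ω : Q → Bool | change g (chosen Q ω) (m + j + 1) = ε j} := by
      ext ω
      simp
    rw [this]
    exact MeasurableSet.iInter fun j => meas_change g Q _ _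
  have h2 : {ω : Q → Bool | PosUpper (change g (chosen Q ω)) ε} =
      ⋃ K : ℕ, ⋂ a : ℕ, ⋃ b : ℕ, ⋃ _ : b ≥ a,
        {ω : Q → Bool | b ≤ K * count (change g (chosen Q ω)) ε b} := by
    ext ω
    unfold PosUpper
    simp only [frequently_atTop, Set.mem_setOf_eq, Set.mem_iUnion, Set.mem_iInter, exists_prop]
  rw [h2]
  refine MeasurableSet.iUnion fun K => MeasurableSet.iInter fun a => MeasurableSet.iUnion fun b =>
    MeasurableSet.iUnion fun _ => ?_
  exact measurableSet_le measurable_const ((h1 b).const_mul K)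

lemma flip_measurePreserving (Q : Set ℕ) (S : Finset ℕ) :
    MeasurePreserving (flip Q S) (Measure.infinitePi fun _ : Q => coin)
      (Measure.infinitePi fun _ : Q => coin) := by
  classical
  have hm : ∀ i : Q, Measurable (fun b : Bool => if (i : ℕ) ∈ S then !b else b) :=
    fun _ => Measurable.of_discrete
  have h1 := Measure.infinitePi_map_pi (μ := fun _ : Q => coin) hm
  have h2 : ∀ i : Q, coin.map (fun b : Bool => if (i : ℕ) ∈ S then !b else b) = coin := by
    intro i
    by_cases h : (i : ℕ) ∈ S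
    · simp only [h, if_true]
      exact coin_not
    · simp only [h, if_false]
      exact Measure.map_id
  refine ⟨?_, ?_⟩
  · unfold flip
    exact measurable_pi_lambda _ fun i => (hm i).comp (measurable_pi_apply i)
  · simp only [h2] at h1
    exact h1

/-- for an infinite set of naturals, finite parts above `n` of any size, outside a finite set -/
lemma exists_part (Q : Set ℕ) (hQ : Q.Infinite) (n N : ℕ) (G : Finset ℕ) :
    ∃ F : Finset ℕ, (F : Set ℕ) ⊆ Q ∧ (∀ p ∈ F, n < p) ∧ F.card = N ∧ Disjoint F G := by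
  classical
  have h : (Q \ ((Finset.range (n + 1) ∪ G : Finset ℕ) : Set ℕ)).Infinite :=
    hQ.diff (Finset.finite_toSet _)
  obtain ⟨F, hF1, hF2⟩ := h.exists_subset_card_eq N
  refine ⟨F, fun p hp => (hF1 hp).1, fun p hp => ?_, hF2, ?_⟩
  · have := (hF1 hp).2
    simp only [coe_union, coe_range, Set.mem_union, Set.mem_Iio, mem_coe, not_or, not_lt] at this
    omega
  · rw [Finset.disjoint_left]
    intro p hp hpG
    have := (hF1 hp).2
    simp only [coe_union, coe_range, Set.mem_union, Set.mem_Iio, mem_coe, not_or, not_lt] at this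
    exact this.2 hpG

/-- **(e)** random changes -/
theorem random (g : ℕ → ℤˣ) (Q : Set ℕ) (hQ : Q.Infinite) (hp : ∀ p ∈ Q, p.Prime) :
    ∀ᵐ ω ∂(Measure.infinitePi fun _ : Q => coin), ∀ (n : ℕ) (ε : Fin n → ℤˣ),
      PosUpper (change g (chosen Q ω)) ε := by
  classical
  rw [ae_all_iff]
  intro n
  rw [ae_all_iff]
  intro ε
  rw [ae_iff]
  set μ := Measure.infinitePi fun _ : Q => coin with hμ
  set B : Set (Q → Bool) := {ω | ¬ PosUpper (change g (chosen Q ω)) ε} with hB
  have hBm : MeasurableSet B := (meas_pos g Q ε).compl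
  have key : ∀ N : ℕ, (2 : ENNReal) ^ N * μ B ≤ ∑ i ∈ range n, (N.choose i : ENNReal) := by
    intro N
    obtain ⟨F, hF1, hF2, hF3, -⟩ := exists_part Q hQ n N ∅
    have h1 : ∀ S ∈ F.powerset, μ B = ∫⁻ ω, (flip Q S ⁻¹' B).indicator 1 ω ∂μ := by
      intro S _
      rw [lintegral_indicator_one ((flip_measurePreserving Q S).measurable hBm)]
      exact ((flip_measurePreserving Q S).measure_preimage hBm.nullMeasurableSet).symm
    have h2 : (2 : ENNReal) ^ N * μ B = ∑ S ∈ F.powerset, ∫⁻ ω, (flip Q S ⁻¹' B).indicator 1 ω ∂μ := by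
      rw [← sum_congr rfl h1, sum_const, card_powerset, hF3, nsmul_eq_mul]
      push_cast
      rfl
    rw [h2, ← lintegral_finsetSum]
    · calc ∫⁻ ω, ∑ S ∈ F.powerset, (flip Q S ⁻¹' B).indicator 1 ω ∂μ
          ≤ ∫⁻ _, ∑ i ∈ range n, (N.choose i : ENNReal) ∂μ := by
            apply lintegral_mono
            intro ω
            have h3 := few_flips g Q F (fun p hpF => hp p (hF1 hpF)) hF2 hF1 ε ω
            rw [hF3, card_filter] at h3
            have h4 : (∑ S ∈ F.powerset, (flip Q S ⁻¹' B).indicator 1 ω : ENNReal) =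
                ((∑ S ∈ F.powerset, if ¬ PosUpper (change g (chosen Q (flip Q S ω))) ε then 1 else 0 :
                  ℕ) : ENNReal) := by
              push_cast
              refine sum_congr rfl fun S _ => ?_
              by_cases h5 : PosUpper (change g (chosen Q (flip Q S ω))) ε
              · simp [Set.indicator, hB, h5]
              · simp [Set.indicator, hB, h5]
            show (∑ S ∈ F.powerset, (flip Q S ⁻¹' B).indicator 1 ω : ENNReal) ≤ _
            rw [h4]
            have h5 := (Nat.cast_le (α := ENNReal)).2 h3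
            refine h5.trans (le_of_eq ?_)
            push_cast
            rfl
        _ = ∑ i ∈ range n, (N.choose i : ENNReal) := by
            rw [lintegral_const, measure_univ, mul_one]
    · intro S _
      exact measurable_one.indicator ((flip_measurePreserving Q S).measurable hBm)
  have key2 : ∀ N : ℕ, (μ B).toReal ≤ 4 ^ n * (5 / 8) ^ N := by
    intro N
    have h1 := key N
    have h2 : ((2 : ENNReal) ^ N * μ B).toReal ≤ (∑ i ∈ range n, (N.choose i : ENNReal)).toReal := by
      apply ENNReal.toReal_mono _ h1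
      exact ENNReal.sum_ne_top.2 fun i _ => ENNReal.natCast_ne_top _
    rw [ENNReal.toReal_mul, ENNReal.toReal_sum (fun i _ => ENNReal.natCast_ne_top _)] at h2
    simp only [ENNReal.toReal_pow, ENNReal.toReal_ofNat, ENNReal.toReal_natCast] at h2
    have h3 := h2.trans (binom_bound N n)
    have h4 : (0 : ℝ) < 2 ^ N := by positivity
    have h5 : (4 : ℝ) ^ n * (5 / 4) ^ N = 2 ^ N * (4 ^ n * (5 / 8) ^ N) := by
      rw [mul_left_comm, ← mul_pow]
      norm_num
    rw [h5] at h3
    exact le_of_mul_le_mul_left h3 h4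
  have h1 : Tendsto (fun N : ℕ => (4 : ℝ) ^ n * (5 / 8) ^ N) atTop (nhds (4 ^ n * 0)) :=
    (tendsto_pow_atTop_nhds_zero_of_lt_one (by norm_num) (by norm_num)).const_mul _
  have h2 : (μ B).toReal ≤ 4 ^ n * 0 := ge_of_tendsto' h1 key2
  rw [mul_zero] at h2
  have h3 : (μ B).toReal = 0 := le_antisymm h2 ENNReal.toReal_nonneg
  rcases (ENNReal.toReal_eq_zero_iff _).1 h3 with h | h
  · exact h
  · exact absurd h (measure_ne_top μ B)

end Pool.Agent.K9h88.FC
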