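import Mathlib
import Pool.Agent.K9h88.FC.Meas

/-! # Changes at a set of primes with convergent sum of reciprocals -/

set_option autoImplicit false

namespace Pool.Agent.K9h88.FC

open Finset Filter

lemma one_class (L x : ℕ) (hL : 1 ≤ L) (S : Finset ℕ) (hS : ∀ m ∈ S, m ≤ x)
    (h : ∀ m ∈ S, ∀ m' ∈ S, m ≡ m' [MOD L]) : S.card ≤ x / L + 1 := by
  rw [← card_range (x / L + 1)]
  refine card_le_card_of_injOn (fun m => m / L) ?_ ?_
  · intro m hm
    rw [mem_coe] at hm
    rw [mem_coe, mem_range]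
    exact Nat.lt_succ_of_le (Nat.div_le_div_right (hS m hm))
  · intro m hm m' hm' hmm
    rw [mem_coe] at hm hm'
    have h1 : m / L = m' / L := hmm
    have h2 : m % L = m' % L := h m hm m' hm'
    rw [← Nat.div_add_mod m L, ← Nat.div_add_mod m' L, h1, h2]

/-- the reciprocals of the elements of `Q` -/
noncomputable def rec (Q : Set ℕ) (q : ℕ) : ℝ := by
  classical exact if q ∈ Q then (1 : ℝ) / q else 0

lemma rec_mem {Q : Set ℕ} {q : ℕ} (h : q ∈ Q) : rec Q q = 1 / q := by
  unfold rec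
  simp [h]

lemma rec_nonneg (Q : Set ℕ) (q : ℕ) : 0 ≤ rec Q q := by
  classical
  unfold rec
  split_ifs
  · positivity
  · exact le_rfl

open Classical in
/-- few elements of `Q` up to `y` -/
lemma few_elements (Q : Set ℕ) (hQ : ∀ q ∈ Q, 1 ≤ q) (hs : Summable (rec Q)) (δ : ℝ) (hδ : 0 < δ) :
    ∃ T : ℕ, ∀ y : ℕ, (((Icc 1 y).filter fun q => q ∈ Q).card : ℝ) ≤ δ * y + T := by
  obtain ⟨s, hs⟩ := summable_iff_vanishing_norm.1 hs δ hδ
  refine ⟨s.card, fun y => ?_⟩
  set t := ((Icc 1 y).filter fun q => q ∈ Q) \ s with ht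
  have h1 : ((Icc 1 y).filter fun q => q ∈ Q).card ≤ t.card + s.card := by
    rw [ht]
    have := card_le_card_sdiff_add_card (s := (Icc 1 y).filter fun q => q ∈ Q) (t := s)
    exact this
  have h2 : (t.card : ℝ) ≤ δ * y := by
    have h3 := hs t (by rw [ht]; exact sdiff_disjoint)
    rw [Real.norm_eq_abs] at h3
    have h4 := (le_abs_self _).trans h3.le
    calc (t.card : ℝ) = ∑ _q ∈ t, (1 : ℝ) := by simp
      _ ≤ ∑ q ∈ t, (y : ℝ) * rec Q q := by
          refine sum_le_sum fun q hq => ?_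
          rw [ht, Finset.mem_sdiff, mem_filter, mem_Icc] at hq
          rw [rec_mem hq.1.2, mul_one_div, le_div_iff₀ (by exact_mod_cast hq.1.1.1), one_mul]
          exact_mod_cast hq.1.1.2
      _ = y * ∑ q ∈ t, rec Q q := by rw [mul_sum]
      _ ≤ y * δ := mul_le_mul_of_nonneg_left h4 (Nat.cast_nonneg _)
      _ = δ * y := mul_comm _ _
  have h3 : (((Icc 1 y).filter fun q => q ∈ Q).card : ℝ) ≤ (t.card : ℝ) + s.card := by
    exact_mod_cast h1
  linarith

open Classical in
/-- many clean places -/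
lemma clean (n : ℕ) (Q : Set ℕ) (hQ : ∀ q ∈ Q, q.Prime) (hn : ∀ q ∈ Q, n < q)
    (hs : Summable (rec Q)) (A : Finset ℕ) (hAQ : (A : Set ℕ) ⊆ Q) (hA : A.card = n) :
    ∃ (π : Fin n → ℕ) (K : ℕ), (∀ j, π j ∈ A) ∧ Function.Injective π ∧
      ∀ᶠ x : ℕ in atTop, x ≤ K * ((Icc 1 x).filter fun m : ℕ => ∀ j : Fin n,
        (m + j + 1).factorization (π j) = 1 ∧ ∀ q ∈ Q, q ≠ π j → ¬ q ∣ m + j + 1).card := by
  obtain ⟨s, hs1⟩ := summable_iff_vanishing_norm.1 hs (1 / (4 * (n + 1))) (by positivity)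
  set P : Finset ℕ := A ∪ s.filter fun q => q ∈ Q with hPdef
  have hPQ : ∀ p ∈ P, p ∈ Q := by
    intro p hp
    rw [hPdef, mem_union, mem_filter] at hp
    rcases hp with h | h
    · exact hAQ h
    · exact h.2
  have hπA : ∀ j, A.orderEmbOfFin hA j ∈ A := fun j => orderEmbOfFin_mem A hA j
  obtain ⟨r, hr⟩ := crt n P (fun p hp => hQ p (hPQ p hp)) (fun p hp => hn p (hPQ p hp))
    (A.orderEmbOfFin hA) (fun j => mem_union_left _ (hπA j)) (A.orderEmbOfFin hA).injective
  set M := ∏ p ∈ P, p ^ 2 with hMdef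
  have hM : 1 ≤ M := Nat.one_le_iff_ne_zero.2 (prod_ne_zero_iff.2 fun p hp =>
    pow_ne_zero _ (hQ p (hPQ p hp)).ne_zero)
  have hMR : (1 : ℝ) ≤ M := by exact_mod_cast hM
  obtain ⟨T, hT⟩ := few_elements Q (fun q hq => (hQ q hq).one_le) hs (1 / (8 * M * (n + 1)))
    (by positivity)
  refine ⟨A.orderEmbOfFin hA, 8 * M, hπA, (A.orderEmbOfFin hA).injective, ?_⟩
  -- the count at `x`
  have key : ∀ x : ℕ, (x : ℝ) / M - 1 - (x / (4 * M) + n * ((x + n) / (8 * M * (n + 1)) + T)) ≤
      (((Icc 1 x).filter fun m : ℕ => ∀ j : Fin n,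
        (m + j + 1).factorization (A.orderEmbOfFin hA j) = 1 ∧
          ∀ q ∈ Q, q ≠ A.orderEmbOfFin hA j → ¬ q ∣ m + j + 1).card : ℝ) := by
    intro x
    set C := (Icc 1 x).filter fun m => m ≡ r [MOD M] with hC
    set W := (Icc 1 (x + n)).filter fun q => q ∈ Q ∧ q ∉ P with hW
    set G := (Icc 1 x).filter fun m : ℕ => ∀ j : Fin n,
        (m + j + 1).factorization (A.orderEmbOfFin hA j) = 1 ∧
          ∀ q ∈ Q, q ≠ A.orderEmbOfFin hA j → ¬ q ∣ m + j + 1 with hG
    have h1 : C \ (univ : Finset (Fin n)).biUnion (fun j => W.biUnion fun q =>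
        C.filter fun m => q ∣ m + j + 1) ⊆ G := by
      intro m hm
      rw [Finset.mem_sdiff] at hm
      obtain ⟨hm1, hm2⟩ := hm
      rw [hC, mem_filter] at hm1
      rw [hG, mem_filter]
      refine ⟨hm1.1, fun j => ?_⟩
      obtain ⟨h3, h4⟩ := hr m hm1.2 j
      refine ⟨h3, fun q hq hne hd => ?_⟩
      by_cases hqP : q ∈ P
      · exact h4 q hqP hne hd
      · apply hm2
        rw [mem_biUnion]
        refine ⟨j, mem_univ _, ?_⟩
        rw [mem_biUnion]
        refine ⟨q, ?_, ?_⟩
        · rw [hW, mem_filter, mem_Icc]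
          refine ⟨⟨(hQ q hq).one_le, ?_⟩, hq, hqP⟩
          have h5 := Nat.le_of_dvd (by omega) hd
          have h6 := (mem_Icc.1 hm1.1).2
          have h7 := j.isLt
          omega
        · rw [mem_filter]
          exact ⟨by rw [hC, mem_filter]; exact hm1, hd⟩
    have h2 : C.card ≤ G.card + ∑ j : Fin n, ∑ q ∈ W, (C.filter fun m => q ∣ m + j + 1).card := by
      calc C.card ≤ (C \ (univ : Finset (Fin n)).biUnion (fun j => W.biUnion fun q =>
            C.filter fun m => q ∣ m + j + 1)).card +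
            ((univ : Finset (Fin n)).biUnion (fun j => W.biUnion fun q =>
            C.filter fun m => q ∣ m + j + 1)).card := card_le_card_sdiff_add_card
        _ ≤ G.card + ∑ j : Fin n, ∑ q ∈ W, (C.filter fun m => q ∣ m + j + 1).card := by
            apply Nat.add_le_add (card_le_card h1)
            refine card_biUnion_le.trans (sum_le_sum fun j _ => card_biUnion_le)
    have h3 : ∀ j : Fin n, ∀ q ∈ W, ((C.filter fun m => q ∣ m + j + 1).card : ℝ) ≤
        x / M * rec Q q + 1 := by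
      intro j q hq
      rw [hW, mem_filter, mem_Icc] at hq
      obtain ⟨⟨hq1, hq2⟩, hq3, hq4⟩ := hq
      have hqp := hQ q hq3
      have hco : Nat.Coprime q M := by
        rw [hMdef]
        apply Nat.Coprime.prod_right
        intro p hp
        apply Nat.Coprime.pow_right
        rw [Nat.coprime_primes hqp (hQ p (hPQ p hp))]
        rintro rfl
        exact hq4 hp
      have h4 : (C.filter fun m => q ∣ m + j + 1).card ≤ x / (q * M) + 1 := by
        apply one_class (q * M) x (Nat.mul_pos hqp.pos hM)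
        · intro m hm
          rw [mem_filter, hC, mem_filter, mem_Icc] at hm
          exact hm.1.1.2
        · intro m hm m' hm'
          rw [mem_filter, hC, mem_filter, mem_Icc] at hm hm'
          rw [← Nat.modEq_and_modEq_iff_modEq_mul hco]
          refine ⟨?_, hm.1.2.trans hm'.1.2.symm⟩
          have h5 : m + (j + 1) ≡ m' + (j + 1) [MOD q] := by
            have e1 := (Nat.modEq_zero_iff_dvd).2 hm.2
            have e2 := (Nat.modEq_zero_iff_dvd).2 hm'.2
            rw [add_assoc] at e1 e2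
            exact e1.trans e2.symm
          exact Nat.ModEq.add_right_cancel' _ h5
      have h5 : ((C.filter fun m => q ∣ m + j + 1).card : ℝ) ≤ ((x / (q * M) : ℕ) : ℝ) + 1 := by
        exact_mod_cast h4
      have h6 : ((x / (q * M) : ℕ) : ℝ) ≤ (x : ℝ) / ((q * M : ℕ) : ℝ) := Nat.cast_div_le
      rw [rec_mem hq3]
      have h7 : (x : ℝ) / ((q * M : ℕ) : ℝ) = x / M * (1 / q) := by
        push_cast
        have : (q : ℝ) ≠ 0 := by exact_mod_cast hqp.ne_zero
        field_simp
      rw [h7] at h6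
      linarith
    have h4 : ∑ q ∈ W, rec Q q ≤ 1 / (4 * (n + 1)) := by
      have h5 := hs1 W (by
        rw [Finset.disjoint_left]
        intro q hq hqs
        rw [hW, mem_filter] at hq
        exact hq.2.2 (mem_union_right _ (mem_filter.2 ⟨hqs, hq.2.1⟩)))
      rw [Real.norm_eq_abs] at h5
      exact (le_abs_self _).trans h5.le
    have h5 : (W.card : ℝ) ≤ (x + n) / (8 * M * (n + 1)) + T := by
      have h6 := hT (x + n)
      have h7 : (W.card : ℝ) ≤ (((Icc 1 (x + n)).filter fun q => q ∈ Q).card : ℝ) := by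
        norm_cast
        apply card_le_card
        intro q hq
        rw [hW, mem_filter] at hq
        exact mem_filter.2 ⟨hq.1, hq.2.1⟩
      refine h7.trans (h6.trans (le_of_eq ?_))
      push_cast
      ring
    have h6 : (C.card : ℝ) ≤ G.card + (n : ℝ) * (x / M * (1 / (4 * (n + 1))) +
        ((x + n) / (8 * M * (n + 1)) + T)) := by
      have h7 : (C.card : ℝ) ≤ G.card + ∑ j : Fin n, ∑ q ∈ W,
          ((C.filter fun m => q ∣ m + j + 1).card : ℝ) := by exact_mod_cast h2
      refine h7.trans ?_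
      have h8 : ∑ j : Fin n, ∑ q ∈ W, ((C.filter fun m => q ∣ m + j + 1).card : ℝ) ≤
          ∑ _j : Fin n, ((x : ℝ) / M * (1 / (4 * (n + 1))) + ((x + n) / (8 * M * (n + 1)) + T)) := by
        refine sum_le_sum fun j _ => ?_
        calc ∑ q ∈ W, ((C.filter fun m => q ∣ m + j + 1).card : ℝ)
            ≤ ∑ q ∈ W, (x / M * rec Q q + 1) := sum_le_sum fun q hq => h3 j q hq
          _ = x / M * ∑ q ∈ W, rec Q q + W.card := by
              rw [sum_add_distrib, ← mul_sum]
              simp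
          _ ≤ _ := add_le_add (mul_le_mul_of_nonneg_left h4 (by positivity)) h5
      rw [sum_const, card_univ, Fintype.card_fin, nsmul_eq_mul] at h8
      linarith
    have h7 : (x : ℝ) / M - 1 ≤ C.card := by
      have h8 := class_count M r x hM
      have h9 : (x : ℝ) / M < ((x / M : ℕ) : ℝ) + 1 := by
        rw [div_lt_iff₀ (by linarith)]
        have := Nat.lt_mul_div_succ x (show 0 < M by omega)
        have h10 : x < M * (x / M + 1) := this
        calc (x : ℝ) < ((M * (x / M + 1) : ℕ) : ℝ) := by exact_mod_cast h10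
          _ = (((x / M : ℕ) : ℝ) + 1) * M := by push_cast; ring
      have h10 : ((x / M : ℕ) : ℝ) ≤ C.card := by exact_mod_cast h8
      linarith
    have h8 : (n : ℝ) * (x / M * (1 / (4 * (n + 1)))) ≤ x / (4 * M) := by
      have h9 : (n : ℝ) * (x / M * (1 / (4 * (n + 1)))) = x / (4 * M) * (n / (n + 1)) := by
        have : (M : ℝ) ≠ 0 := by linarith
        have h10 : (n : ℝ) + 1 ≠ 0 := by positivity
        field_simp
      rw [h9]
      have h10 : (n : ℝ) / (n + 1) ≤ 1 := by
        rw [div_le_one (by positivity)]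
        linarith
      have h11 : (0 : ℝ) ≤ x / (4 * M) := by positivity
      nlinarith
    have h9 : (n : ℝ) * (x / M * (1 / (4 * (n + 1))) + ((x + n) / (8 * M * (n + 1)) + T)) =
        n * (x / M * (1 / (4 * (n + 1)))) + n * ((x + n) / (8 * M * (n + 1)) + T) := by ring
    rw [h9] at h6
    linarith
  -- eventually large
  obtain ⟨x₀, hx₀⟩ := exists_nat_ge ((8 * M : ℝ) * (1 + n * (n + T)) )
  rw [eventually_atTop]
  refine ⟨x₀ + 1, fun x hx => ?_⟩
  have h1 := key x
  have h2 : (x : ℝ) ≥ 8 * M * (1 + n * (n + T)) := by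
    have : ((x₀ + 1 : ℕ) : ℝ) ≤ x := by exact_mod_cast hx
    push_cast at this
    linarith
  have hMne : (M : ℝ) ≠ 0 := by linarith
  have h3 : (n : ℝ) * ((x + n) / (8 * M * (n + 1)) + T) ≤ x / (8 * M) + n * (n + T) := by
    have h4 : (n : ℝ) * ((x + n) / (8 * M * (n + 1))) ≤ (x + n) / (8 * M) := by
      have h5 : (n : ℝ) * ((x + n) / (8 * M * (n + 1))) = (x + n) / (8 * M) * (n / (n + 1)) := by
        have h10 : (n : ℝ) + 1 ≠ 0 := by positivity
        field_simp
      rw [h5]
      have h10 : (n : ℝ) / (n + 1) ≤ 1 := by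
        rw [div_le_one (by positivity)]
        linarith
      have h11 : (0 : ℝ) ≤ (x + n) / (8 * M) := by positivity
      nlinarith
    have h5 : ((x : ℝ) + n) / (8 * M) ≤ x / (8 * M) + n * n := by
      rw [add_div]
      have h6 : (n : ℝ) / (8 * M) ≤ n * n := by
        rcases Nat.eq_zero_or_pos n with h0 | h0
        · subst h0
          simp
        · have h7 : (1 : ℝ) ≤ n := by exact_mod_cast h0
          rw [div_le_iff₀ (by positivity)]
          nlinarith [mul_nonneg (Nat.cast_nonneg (α := ℝ) n) (Nat.cast_nonneg (α := ℝ) n)]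
      linarith
    nlinarith
  have h4 : (x : ℝ) / (8 * M) ≥ 1 + n * (n + T) := by
    rw [ge_iff_le, le_div_iff₀ (by positivity)]
    linarith
  have h5 : (x : ℝ) / M = 8 * (x / (8 * M)) := by field_simp
  have h6 : (x : ℝ) / (4 * M) = 2 * (x / (8 * M)) := by field_simp; ring
  rw [h5, h6] at h1
  have h7 : (x : ℝ) / (8 * M) ≤ (((Icc 1 x).filter fun m : ℕ => ∀ j : Fin n,
        (m + j + 1).factorization (A.orderEmbOfFin hA j) = 1 ∧
          ∀ q ∈ Q, q ≠ A.orderEmbOfFin hA j → ¬ q ∣ m + j + 1).card : ℝ) := by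
    linarith
  rw [div_le_iff₀ (by positivity)] at h7
  have h8 : (x : ℝ) ≤ ((8 * M * ((Icc 1 x).filter fun m : ℕ => ∀ j : Fin n,
        (m + j + 1).factorization (A.orderEmbOfFin hA j) = 1 ∧
          ∀ q ∈ Q, q ≠ A.orderEmbOfFin hA j → ¬ q ∣ m + j + 1).card : ℕ) : ℝ) := by
    push_cast
    linarith
  exact_mod_cast h8

end Pool.Agent.K9h88.FC
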