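import Mathlib
import Pool.Agent.K9h88.FC.Thin

/-! # The exceptional changes at a thin set of primes; small changes -/

set_option autoImplicit false

namespace Pool.Agent.K9h88.FC

open Finset Filter MeasureTheory

/-- the pattern `ε` occurs in `f` -/
def Occurs {n : ℕ} (f : ℕ → ℤˣ) (ε : Fin n → ℤˣ) : Prop :=
  ∃ m : ℕ, 1 ≤ m ∧ ∀ j : Fin n, f (m + j + 1) = ε j

lemma occurs_of_count {n : ℕ} (f : ℕ → ℤˣ) (ε : Fin n → ℤˣ) (x : ℕ) (h : count f ε x ≠ 0) :
    Occurs f ε := by
  classical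
  unfold count at h
  obtain ⟨m, hm⟩ := card_ne_zero.1 h
  rw [mem_filter, mem_Icc] at hm
  exact ⟨m, hm.1.1, hm.2⟩

lemma occurs_of_posUpper {n : ℕ} (f : ℕ → ℤˣ) (ε : Fin n → ℤˣ) (h : PosUpper f ε) :
    Occurs f ε := by
  obtain ⟨K, hK⟩ := h
  obtain ⟨x, hx1, hx2⟩ := (hK.and_eventually (eventually_ge_atTop 1)).exists
  apply occurs_of_count f ε x
  intro h0
  rw [h0, mul_zero] at hx1
  omega

open Classical in
/-- **(f)** thin sets of primes -/
theorem thin (g : ℕ → ℤˣ) {n : ℕ} (Q : Set ℕ) (hQ : ∀ q ∈ Q, q.Prime) (hn : ∀ q ∈ Q, n < q)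
    (hs : Summable (rec Q)) (ε : Fin n → ℤˣ) (F : Finset ℕ) (hF : (F : Set ℕ) ⊆ Q) :
    (F.powerset.filter fun T : Finset ℕ => ∃ D : Set ℕ, D ⊆ Q ∧ D ∩ (F : Set ℕ) = (T : Set ℕ) ∧
      ¬ PosUpper (change g D) ε).card ≤ ∑ i ∈ range n, F.card.choose i := by
  apply vc n
  · intro D hD
    exact mem_powerset.1 (mem_filter.1 hD).1
  · intro A hA hsh
    obtain ⟨hAF, hAn⟩ := mem_powersetCard.1 hA
    have hAQ : (A : Set ℕ) ⊆ Q := fun p hp => hF (hAF hp)
    obtain ⟨π, K, h1, h2, h3⟩ := clean n Q hQ hn hs A hAQ hAn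
    set G : ℕ → Finset ℕ := fun x => (Icc 1 x).filter fun m : ℕ => ∀ j : Fin n,
        (m + j + 1).factorization (π j) = 1 ∧ ∀ q ∈ Q, q ≠ π j → ¬ q ∣ m + j + 1 with hG
    have hpig : ∀ x, ∃ u : Fin n → ℤˣ, (G x).card ≤ 2 ^ n *
        ((G x).filter fun m => ∀ j : Fin n, g (m + j + 1) = u j).card := by
      intro x
      by_contra hcon
      push Not at hcon
      have h4 : (G x).card = ∑ u : Fin n → ℤˣ,
          ((G x).filter fun m => ∀ j : Fin n, g (m + j + 1) = u j).card := by
        rw [card_eq_sum_card_fiberwise (f := fun m => fun j : Fin n => g (m + j + 1))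
          (t := univ) (fun _ _ => mem_univ _)]
        refine sum_congr rfl fun u _ => ?_
        congr 1
        refine filter_congr fun m _ => ?_
        exact ⟨fun h j => congrFun h j, fun h => funext h⟩
      have h5 : ∑ u : Fin n → ℤˣ, 2 ^ n *
          ((G x).filter fun m => ∀ j : Fin n, g (m + j + 1) = u j).card <
          ∑ _u : Fin n → ℤˣ, (G x).card :=
        sum_lt_sum_of_nonempty univ_nonempty fun u _ => hcon u
      rw [← mul_sum, ← h4, sum_const, card_univ, Fintype.card_pi] at h5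
      simp only [Fintype.card_units_int, prod_const, card_univ, Fintype.card_fin,
        smul_eq_mul] at h5
      exact lt_irrefl _ h5
    obtain ⟨u, hu⟩ : ∃ u : Fin n → ℤˣ, ∃ᶠ x in atTop, (G x).card ≤ 2 ^ n *
        ((G x).filter fun m => ∀ j : Fin n, g (m + j + 1) = u j).card := by
      by_contra hcon
      push Not at hcon
      have h4 : ∀ u : Fin n → ℤˣ, ∀ᶠ x in atTop, ¬ (G x).card ≤ 2 ^ n *
          ((G x).filter fun m => ∀ j : Fin n, g (m + j + 1) = u j).card := by
        intro u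
        have := hcon u
        simpa [Filter.not_frequently] using this
      obtain ⟨x, hx⟩ := (eventually_all.2 h4).exists
      obtain ⟨u, hu⟩ := hpig x
      exact hx u hu
    obtain ⟨T, hT, hTA⟩ := hsh (t := (univ.filter fun j => ε j ≠ u j).image π) (by
      intro p hp
      obtain ⟨j, _, rfl⟩ := mem_image.1 hp
      exact h1 j)
    obtain ⟨-, D, hDQ, hDF, hbad⟩ := mem_filter.1 hT
    apply hbad
    have hmem : ∀ j, π j ∈ D ↔ ε j ≠ u j := by
      intro j
      have h4 : π j ∈ D ↔ π j ∈ A ∩ T := by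
        have h5 : π j ∈ (T : Set ℕ) ↔ π j ∈ D ∩ (F : Set ℕ) := by rw [hDF]
        rw [mem_inter]
        constructor
        · intro h
          exact ⟨h1 j, h5.2 ⟨h, hAF (h1 j)⟩⟩
        · intro h
          exact (h5.1 h.2).1
      rw [h4, hTA, mem_image]
      constructor
      · rintro ⟨j', hj', h5⟩
        rw [← h2 h5]
        exact (mem_filter.1 hj').2
      · intro h5
        exact ⟨j, mem_filter.2 ⟨mem_univ _, h5⟩, rfl⟩
    refine ⟨K * 2 ^ n, (hu.and_eventually h3).mono ?_⟩
    rintro x ⟨hx1, hx2⟩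
    have h4 : ((G x).filter fun m => ∀ j : Fin n, g (m + j + 1) = u j).card ≤
        count (change g D) ε x := by
      unfold count
      apply card_le_card
      intro m hm
      rw [mem_filter] at hm ⊢
      obtain ⟨hm1, hm2⟩ := hm
      rw [hG, mem_filter] at hm1
      refine ⟨hm1.1, fun j => ?_⟩
      obtain ⟨h5, h6⟩ := hm1.2 j
      rw [change_of_known g D Q hDQ (m + j + 1) (by omega) (π j) (hQ _ (hAQ (h1 j))) h5
        (fun p hp hne => h6 p hp hne), hm2 j]
      by_cases h7 : ε j = u j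
      · have h8 : π j ∉ D := by
          rw [hmem]
          simpa using h7
        simp [h8, h7]
      · have h8 : π j ∈ D := (hmem j).2 h7
        simp only [h8, if_true, mul_neg, mul_one]
        exact (Int.units_ne_iff_eq_neg.1 h7).symm
    calc x ≤ K * (G x).card := hx2
      _ ≤ K * (2 ^ n * count (change g D) ε x) :=
        Nat.mul_le_mul_left _ (hx1.trans (Nat.mul_le_mul_left _ h4))
      _ = K * 2 ^ n * count (change g D) ε x := by ring

open Classical in
/-- the bound of `thin` is attained -/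
theorem thin_sharp {n : ℕ} (Q : Set ℕ) (hQ : ∀ q ∈ Q, q.Prime) (hn : ∀ q ∈ Q, n < q)
    (F : Finset ℕ) (hF : (F : Set ℕ) ⊆ Q) :
    ∑ i ∈ range n, F.card.choose i ≤
    (F.powerset.filter fun T : Finset ℕ => ∃ D : Set ℕ, D ⊆ Q ∧ D ∩ (F : Set ℕ) = (T : Set ℕ) ∧
      ¬ Occurs (change 1 D) (fun _ : Fin n => (-1 : ℤˣ))).card := by
  have h1 : ((range n).biUnion fun i => F.powersetCard i) ⊆
      F.powerset.filter fun T : Finset ℕ => ∃ D : Set ℕ, D ⊆ Q ∧ D ∩ (F : Set ℕ) = (T : Set ℕ) ∧
        ¬ Occurs (change 1 D) (fun _ : Fin n => (-1 : ℤˣ)) := by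
    intro T hT
    rw [mem_biUnion] at hT
    obtain ⟨i, hi, hT⟩ := hT
    rw [mem_powersetCard] at hT
    rw [mem_range] at hi
    rw [mem_filter, mem_powerset]
    refine ⟨hT.1, (T : Set ℕ), fun p hp => hF (hT.1 hp), ?_, ?_⟩
    · rw [Set.inter_eq_left]
      exact_mod_cast hT.1
    · rintro ⟨m, -, hm⟩
      have := need n T (fun p hp => hQ p (hF (hT.1 hp))) (fun p hp => hn p (hF (hT.1 hp))) m hm
      omega
  refine le_trans (le_of_eq ?_) (card_le_card h1)
  rw [card_biUnion]
  · exact sum_congr rfl fun i _ => (card_powersetCard i F).symm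
  · intro i _ j _ hij
    exact pairwise_disjoint_powersetCard F hij

open Classical in
/-- **(h)** small changes -/
theorem close (g : ℕ → ℤˣ) (Q : Set ℕ) (hQ : Q.Infinite) (hp : ∀ p ∈ Q, p.Prime) (η : ℝ)
    (hη : 0 < η) : ∃ D : Set ℕ, D ⊆ Q ∧
      (∀ x : ℕ, (((Icc 1 x).filter fun m => change g D m ≠ g m).card : ℝ) ≤ η * x) ∧
      ∀ (n : ℕ) (ε : Fin n → ℤˣ), PosUpper (change g D) ε := by
  obtain ⟨c, hc⟩ := exists_nat_ge (1 / η)
  have hc0 : (0 : ℝ) < c := lt_of_lt_of_le (by positivity) hc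
  obtain ⟨φ, hφ, hφ2⟩ := extraction_forall_of_frequently (P := fun k p => p ∈ Q ∧ c * 2 ^ (k + 1) ≤ p)
    (fun k => (Nat.frequently_atTop_iff_infinite.2 hQ).and_eventually (eventually_ge_atTop _))
  have hinf : (Set.range φ).Infinite := Set.infinite_range_of_injective hφ.injective
  obtain ⟨ω, hω⟩ := (random g (Set.range φ) hinf (by
    rintro p ⟨k, rfl⟩
    exact hp _ (hφ2 k).1)).exists
  refine ⟨chosen (Set.range φ) ω, ?_, ?_, hω⟩
  · rintro p ⟨⟨k, rfl⟩, -⟩
    exact (hφ2 k).1
  · intro x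
    have h1 : ((Icc 1 x).filter fun m => change g (chosen (Set.range φ) ω) m ≠ g m) ⊆
        (range (x + 1)).biUnion fun k => (Icc 1 x).filter fun m => φ k ∣ m := by
      intro m hm
      rw [mem_filter, mem_Icc] at hm
      obtain ⟨⟨hm1, hm2⟩, hm3⟩ := hm
      have h2 : ∃ p ∈ chosen (Set.range φ) ω, p ∣ m := by
        by_contra hcon
        push Not at hcon
        apply hm3
        unfold change Finsupp.prod
        rw [prod_eq_one, mul_one]
        intro p hp
        rw [Nat.support_factorization] at hp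
        have : p ∉ chosen (Set.range φ) ω := fun h => hcon p h (Nat.dvd_of_mem_primeFactors hp)
        simp [this]
      obtain ⟨p, ⟨⟨k, rfl⟩, -⟩, hpm⟩ := h2
      rw [mem_biUnion]
      refine ⟨k, ?_, ?_⟩
      · rw [mem_range]
        have h3 := Nat.le_of_dvd (by omega) hpm
        have h4 := hφ.id_le k
        simp only [id] at h4
        omega
      · rw [mem_filter, mem_Icc]
        exact ⟨⟨hm1, hm2⟩, hpm⟩
    have h2 : ∀ k, (((Icc 1 x).filter fun m => φ k ∣ m).card : ℝ) ≤ x / c * (1 / 2) ^ (k + 1) := by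
      intro k
      have hpos : 0 < φ k := (hp _ (hφ2 k).1).pos
      have h3 : ((Icc 1 x).filter fun m => φ k ∣ m).card = x / φ k := by
        have h4 := Nat.Ioc_filter_dvd_card_eq_div x (φ k)
        rw [← h4]
        congr 1
      rw [h3]
      have h4 : ((x / φ k : ℕ) : ℝ) ≤ (x : ℝ) / φ k := Nat.cast_div_le
      have h5 : ((c * 2 ^ (k + 1) : ℕ) : ℝ) ≤ φ k := by exact_mod_cast (hφ2 k).2
      push_cast at h5
      have h6 : (x : ℝ) / φ k ≤ x / (c * 2 ^ (k + 1)) :=
        div_le_div_of_nonneg_left (Nat.cast_nonneg _) (by positivity) h5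
      refine h4.trans (h6.trans (le_of_eq ?_))
      rw [one_div, inv_pow]
      field_simp
    calc (((Icc 1 x).filter fun m => change g (chosen (Set.range φ) ω) m ≠ g m).card : ℝ)
        ≤ (((range (x + 1)).biUnion fun k => (Icc 1 x).filter fun m => φ k ∣ m).card : ℝ) := by
          exact_mod_cast card_le_card h1
      _ ≤ ∑ k ∈ range (x + 1), (((Icc 1 x).filter fun m => φ k ∣ m).card : ℝ) := by
          exact_mod_cast card_biUnion_le
      _ ≤ ∑ k ∈ range (x + 1), x / c * (1 / 2 : ℝ) ^ (k + 1) := sum_le_sum fun k _ => h2 k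
      _ = x / c * ∑ k ∈ range (x + 1), (1 / 2 : ℝ) ^ (k + 1) := by rw [mul_sum]
      _ ≤ x / c * 1 := by
          apply mul_le_mul_of_nonneg_left _ (by positivity)
          have h3 : ∀ N : ℕ, ∑ k ∈ range N, (1 / 2 : ℝ) ^ (k + 1) = 1 - (1 / 2) ^ N := by
            intro N
            induction N with
            | zero => simp
            | succ N ih => rw [sum_range_succ, ih]; ring
          rw [h3]
          have : (0 : ℝ) ≤ (1 / 2) ^ (x + 1) := by positivity
          linarith
      _ ≤ η * x := by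
          rw [mul_one, div_le_iff₀ hc0]
          have h3 : 1 ≤ η * c := by
            rw [div_le_iff₀ hη] at hc
            linarith
          have h4 : (0 : ℝ) ≤ x := Nat.cast_nonneg _
          nlinarith

end Pool.Agent.K9h88.FC
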