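import Mathlib
import Pool.Agent.K9h88.FC.Thin2

/-! # All patterns at the same time -/

set_option autoImplicit false

namespace Pool.Agent.K9h88.FC

open Finset Filter

/-- every pattern of length `n` begins at `X k / K` or more of the `m ≤ X k`, for every `k` -/
def Full (f : ℕ → ℤˣ) (n K : ℕ) (X : ℕ → ℕ) : Prop :=
  ∀ (ε : Fin n → ℤˣ) (k : ℕ), X k ≤ K * count f ε (X k)

lemma full_pos {f : ℕ → ℤˣ} {n K : ℕ} {X : ℕ → ℕ} (hX : StrictMono X) (h : Full f n K X)
    (ε : Fin n → ℤˣ) : PosUpper f ε := by
  refine ⟨K, ?_⟩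
  rw [frequently_atTop]
  intro a
  exact ⟨X a, hX.id_le a, h ε a⟩

lemma choose_growth (N n L : ℕ) (h : n * (L + 2) ≤ N) :
    L * ∑ i ∈ range n, N.choose i ≤ N.choose n := by
  have key : ∀ k, k ≤ n → L * ∑ i ∈ range k, N.choose i ≤ N.choose k := by
    intro k
    induction k with
    | zero => intro _; simp
    | succ k ih =>
      intro hk
      have h1 := ih (by omega)
      have h2 : (L + 1) * N.choose k ≤ N.choose (k + 1) := by
        have h3 := Nat.choose_succ_right_eq N k
        have h4 : (L + 1) * (k + 1) ≤ N - k := by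
          have h5 : (k + 1) * (L + 2) ≤ N := (Nat.mul_le_mul_right _ hk).trans h
          have h6 : (k + 1) * (L + 2) = (L + 1) * (k + 1) + (k + 1) := by ring
          omega
        have h5 : (L + 1) * N.choose k * (k + 1) ≤ N.choose (k + 1) * (k + 1) := by
          rw [h3]
          calc (L + 1) * N.choose k * (k + 1) = N.choose k * ((L + 1) * (k + 1)) := by ring
            _ ≤ N.choose k * (N - k) := Nat.mul_le_mul_left _ h4
        exact Nat.le_of_mul_le_mul_right h5 (Nat.succ_pos k)
      rw [sum_range_succ, mul_add]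
      calc L * ∑ i ∈ range k, N.choose i + L * N.choose k ≤ N.choose k + L * N.choose k :=
            Nat.add_le_add_right h1 _
        _ = (L + 1) * N.choose k := by ring
        _ ≤ N.choose (k + 1) := h2
  exact key n le_rfl

open Classical in
/-- **(b), (c), (d)** along one sequence of scales, for all patterns -/
theorem many (g : ℕ → ℤˣ) (n : ℕ) (P : Finset ℕ) (hP : ∀ p ∈ P, p.Prime) (hn : ∀ p ∈ P, n < p) :
    ∃ X : ℕ → ℕ, StrictMono X ∧
      (∀ ε : Fin n → ℤˣ, (P.powerset.filter fun D : Finset ℕ => ¬ ∀ k,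
        X k ≤ 2 ^ (n + 1) * (∏ p ∈ P, p ^ 2) * count (change g D) ε (X k)).card ≤
          ∑ i ∈ range n, P.card.choose i) ∧
      (P.powerset.filter fun D : Finset ℕ =>
        ¬ Full (change g D) n (2 ^ (n + 1) * ∏ p ∈ P, p ^ 2) X).card ≤
          2 ^ n * ∑ i ∈ range n, P.card.choose i := by
  obtain ⟨X, hX, h⟩ := few_along g n P hP hn
  refine ⟨X, hX, h, ?_⟩
  have hsub : (P.powerset.filter fun D : Finset ℕ =>
        ¬ Full (change g D) n (2 ^ (n + 1) * ∏ p ∈ P, p ^ 2) X) ⊆
      (univ : Finset (Fin n → ℤˣ)).biUnion fun ε => P.powerset.filter fun D : Finset ℕ => ¬ ∀ k,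
        X k ≤ 2 ^ (n + 1) * (∏ p ∈ P, p ^ 2) * count (change g D) ε (X k) := by
    intro D hD
    rw [mem_filter] at hD
    rw [mem_biUnion]
    by_contra hcon
    apply hD.2
    intro ε k
    by_contra h1
    exact hcon ⟨ε, mem_univ _, mem_filter.2 ⟨hD.1, fun h2 => h1 (h2 k)⟩⟩
  calc _ ≤ _ := card_le_card hsub
    _ ≤ ∑ ε : Fin n → ℤˣ, (P.powerset.filter fun D : Finset ℕ => ¬ ∀ k,
        X k ≤ 2 ^ (n + 1) * (∏ p ∈ P, p ^ 2) * count (change g D) ε (X k)).card := card_biUnion_le
    _ ≤ ∑ _ε : Fin n → ℤˣ, ∑ i ∈ range n, P.card.choose i := sum_le_sum fun ε _ => h ε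
    _ = 2 ^ n * ∑ i ∈ range n, P.card.choose i := by
        rw [sum_const, card_univ, Fintype.card_pi, smul_eq_mul]
        simp [Fintype.card_units_int]

/-- the fraction for `5 n` primes -/
lemma five (n : ℕ) : ((2 ^ n * ∑ i ∈ range n, (5 * n).choose i : ℕ) : ℝ) ≤
    (3125 / 4096) ^ n * 2 ^ (5 * n) := by
  have h := binom_bound (5 * n) n
  push_cast
  calc (2 : ℝ) ^ n * ∑ i ∈ range n, ((5 * n).choose i : ℝ) ≤ 2 ^ n * (4 ^ n * (5 / 4) ^ (5 * n)) :=
        mul_le_mul_of_nonneg_left h (by positivity)
    _ = (3125 / 4096) ^ n * 2 ^ (5 * n) := by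
        rw [pow_mul, pow_mul, ← mul_pow, ← mul_pow, ← mul_pow]
        norm_num

open Classical in
/-- almost all sets of `n` primes -/
lemma n_changes (n : ℕ) (P : Finset ℕ) (B : Finset ℕ → Prop)
    (h : (P.powerset.filter fun D => B D).card ≤ 2 ^ n * ∑ i ∈ range n, P.card.choose i)
    (L : ℕ) (hL : n * (L + 2) ≤ P.card) :
    L * ((P.powersetCard n).filter fun D => B D).card ≤ 2 ^ n * P.card.choose n := by
  have h1 : ((P.powersetCard n).filter fun D => B D).card ≤
      (P.powerset.filter fun D => B D).card := by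
    apply card_le_card
    intro D hD
    rw [mem_filter, mem_powersetCard] at hD
    rw [mem_filter, mem_powerset]
    exact ⟨hD.1.1, hD.2⟩
  calc L * ((P.powersetCard n).filter fun D => B D).card
      ≤ L * (2 ^ n * ∑ i ∈ range n, P.card.choose i) := Nat.mul_le_mul_left _ (h1.trans h)
    _ = 2 ^ n * (L * ∑ i ∈ range n, P.card.choose i) := by ring
    _ ≤ 2 ^ n * P.card.choose n := Nat.mul_le_mul_left _ (choose_growth _ _ _ hL)

open Classical in
/-- some set of `n` primes -/
lemma n_changes_exists (n : ℕ) (P : Finset ℕ) (B : Finset ℕ → Prop)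
    (h : (P.powerset.filter fun D => B D).card ≤ 2 ^ n * ∑ i ∈ range n, P.card.choose i)
    (hL : n * (2 ^ n + 3) ≤ P.card) : ∃ D ∈ P.powersetCard n, ¬ B D := by
  by_contra hcon
  push Not at hcon
  have h1 := n_changes n P B h (2 ^ n + 1) (by
    have : 2 ^ n + 1 + 2 = 2 ^ n + 3 := by ring
    rw [this]
    exact hL)
  rw [filter_true_of_mem hcon, card_powersetCard] at h1
  have h2 : 0 < P.card.choose n := by
    apply Nat.choose_pos
    calc n = n * 1 := (mul_one n).symm
      _ ≤ n * (2 ^ n + 3) := Nat.mul_le_mul_left _ (by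
          have := Nat.one_le_two_pow (n := n)
          exact this.trans (Nat.le_add_right _ _))
      _ ≤ P.card := hL
  have h3 : (2 ^ n + 1) * P.card.choose n = 2 ^ n * P.card.choose n + P.card.choose n := by ring
  omega

/-- the Liouville function -/
def lam (m : ℕ) : ℤˣ := (-1) ^ m.primeFactorsList.length

lemma lam_cm : CM lam := by
  intro a b ha hb
  unfold lam
  rw [(Nat.perm_primeFactorsList_mul ha hb).length_eq, List.length_append, pow_add]

open Classical in
lemma lam_change (D : Set ℕ) (m : ℕ) :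
    change lam D m = (-1) ^ (m.primeFactorsList.filter fun p => p ∉ D).length := by
  unfold change lam
  have h1 : ∀ l : List ℕ, ∀ s : Finset ℕ, (∀ p ∈ l, p ∈ s) →
      ((-1 : ℤˣ) ^ l.length * ∏ p ∈ s, if p ∈ D then (-1 : ℤˣ) ^ l.count p else 1) =
      (-1) ^ (l.filter fun p => p ∉ D).length := by
    intro l s
    induction l with
    | nil => intro _; simp
    | cons q l ih =>
      intro hq
      have h2 := ih fun p hp => hq p (List.mem_cons_of_mem _ hp)
      have hqs := hq q List.mem_cons_self
      have h3 : (∏ p ∈ s, if p ∈ D then (-1 : ℤˣ) ^ (q :: l).count p else 1) =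
          (if q ∈ D then (-1) else 1) * ∏ p ∈ s, if p ∈ D then (-1 : ℤˣ) ^ l.count p else 1 := by
        rw [← mul_prod_erase s _ hqs, ← mul_prod_erase s (fun p => if p ∈ D then (-1 : ℤˣ) ^ l.count p else 1) hqs,
          ← mul_assoc]
        congr 1
        · by_cases h : q ∈ D
          · simp only [h, if_true]
            rw [List.count_cons_self, pow_succ, mul_comm]
          · simp [h]
        · refine prod_congr rfl fun p hp => ?_
          rw [List.count_cons_of_ne (ne_of_mem_erase hp).symm]
      rw [h3, List.length_cons, pow_succ]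
      by_cases h : q ∈ D
      · simp only [h, if_true]
        rw [List.filter_cons_of_neg (by simpa using h), ← h2]
        rw [mul_assoc, ← mul_assoc (-1 : ℤˣ) (-1)]
        simp
      · simp only [h, if_false]
        rw [List.filter_cons_of_pos (by simpa using h), List.length_cons, pow_succ, ← h2, one_mul,
          mul_right_comm]
  have h2 := h1 m.primeFactorsList m.primeFactors (fun p hp => by
    rw [Nat.primeFactors, List.mem_toFinset]
    exact hp)
  rw [← h2]
  congr 1
  unfold Finsupp.prod
  rw [Nat.support_factorization]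
  refine prod_congr rfl fun p _ => ?_
  rw [Nat.primeFactorsList_count_eq]

end Pool.Agent.K9h88.FC
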