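import Mathlib
import Pool.Agent.K9h88.FC.Corr
import Pool.Agent.K9h88.FC.Many

/-! # Changes of a function with small two-point and three-point correlations -/

set_option autoImplicit false

namespace Pool.Agent.K9h88.FC

open Finset Filter

/-- the real value of a sign -/
def sg (u : ℤˣ) : ℝ := ((u : ℤ) : ℝ)

lemma sg_or (u : ℤˣ) : sg u = 1 ∨ sg u = -1 := by
  unfold sg
  rcases Int.units_eq_one_or u with rfl | rfl
  · left; simp
  · right; simp

lemma sg_inj {u v : ℤˣ} : sg u = sg v ↔ u = v := by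
  unfold sg
  constructor
  · intro h
    exact Units.ext (by exact_mod_cast h)
  · rintro rfl; rfl

variable {F : Filter ℕ} {g : ℕ → ℤˣ} {c : ℝ}

/-- from `range` to `Icc` -/
lemma range_Icc (x : ℕ) (p : ℕ → Prop) [DecidablePred p] :
    ((range x).filter p).card ≤ ((Icc 1 x).filter p).card + 1 := by
  have h : (range x).filter p ⊆ insert 0 ((Icc 1 x).filter p) := by
    intro m hm
    rw [mem_filter, mem_range] at hm
    rw [mem_insert, mem_filter, mem_Icc]
    rcases Nat.eq_zero_or_pos m with h | h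
    · exact Or.inl h
    · exact Or.inr ⟨⟨h, hm.1.le⟩, hm.2⟩
  exact (card_le_card h).trans (card_insert_le _ _)

open Classical in
/-- three prescribed values and a popular choice of the others -/
lemma pop3 (H : Hyp F (fun n => sg (g n)) c) (n M : ℕ) (hM : 1 ≤ M) (r : ℕ) (e : Fin 3 → ℤˣ) :
    ∀ᶠ x : ℕ in F, ∃ u : Fin n → ℤˣ, c / (32 * M) * x ≤ 2 ^ n *
      (((Icc 1 x).filter fun m => m ≡ r [MOD M] ∧ (∀ i : Fin n, g (m + i + 1) = u i) ∧
        ∀ i : Fin 3, g (m + (n + i) + 1) = e i).card : ℝ) := by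
  have hM0 : (0 : ℝ) < M := by exact_mod_cast hM
  have hc0 := H.c0
  have h1 := H.triple M hM r (fun i => n + i + 1) (fun i j h => by
    apply Fin.ext
    have : n + (i : ℕ) + 1 = n + j + 1 := h
    omega) (fun i => sg (e i)) (fun i => sg_or _)
  have h2 : ∀ᶠ x : ℕ in F, ⌈32 * M / c⌉₊ ≤ x := H.le (eventually_ge_atTop _)
  filter_upwards [h1, h2] with x hx1 hx2
  have hx2' : 32 * (M : ℝ) ≤ c * x := by
    have : 32 * (M : ℝ) / c ≤ x := (Nat.le_ceil _).trans (by exact_mod_cast hx2)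
    rw [div_le_iff₀ hc0] at this
    linarith
  set C := (Icc 1 x).filter fun m => m ≡ r [MOD M] ∧ ∀ i : Fin 3, g (m + (n + i) + 1) = e i with hC
  have h3 : c / (32 * M) * x ≤ (C.card : ℝ) := by
    have e1 : (∑ m ∈ range x, if m ≡ r [MOD M] ∧ ∀ i : Fin 3, sg (g (m + (n + i + 1))) = sg (e i)
        then (1 : ℝ) else 0) =
        (((range x).filter fun m => m ≡ r [MOD M] ∧ ∀ i : Fin 3, g (m + (n + i) + 1) = e i).card :
          ℝ) := by
      rw [card_filter]
      push_cast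
      refine sum_congr rfl fun m _ => ?_
      have : (m ≡ r [MOD M] ∧ ∀ i : Fin 3, sg (g (m + (n + i + 1))) = sg (e i)) ↔
          (m ≡ r [MOD M] ∧ ∀ i : Fin 3, g (m + (n + i) + 1) = e i) := by
        constructor
        · rintro ⟨a, b⟩
          exact ⟨a, fun i => sg_inj.1 (b i)⟩
        · rintro ⟨a, b⟩
          exact ⟨a, fun i => sg_inj.2 (b i)⟩
      by_cases h : m ≡ r [MOD M] ∧ ∀ i : Fin 3, g (m + (n + i) + 1) = e i
      · rw [if_pos h, if_pos (this.2 h)]
      · rw [if_neg h, if_neg fun h' => h (this.1 h')]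
    have hx1' : c / (16 * M) * x ≤ ∑ m ∈ range x,
        if m ≡ r [MOD M] ∧ ∀ i : Fin 3, sg (g (m + (n + i + 1))) = sg (e i) then (1 : ℝ) else 0 := by
      refine hx1.trans (le_of_eq ?_)
      refine sum_congr rfl fun m _ => ?_
      congr
    rw [e1] at hx1'
    have e2 := range_Icc x fun m => m ≡ r [MOD M] ∧ ∀ i : Fin 3, g (m + (n + i) + 1) = e i
    have e3 : (((range x).filter fun m => m ≡ r [MOD M] ∧
        ∀ i : Fin 3, g (m + (n + i) + 1) = e i).card : ℝ) ≤ (C.card : ℝ) + 1 := by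
      exact_mod_cast e2
    have e4 : c / (16 * M) * x = 2 * (c / (32 * M) * x) := by field_simp; ring
    have e5 : 1 ≤ c / (32 * M) * x := by
      rw [div_mul_eq_mul_div, le_div_iff₀ (by positivity)]
      linarith
    linarith
  have h4 : C.card = ∑ u : Fin n → ℤˣ,
      ((Icc 1 x).filter fun m => m ≡ r [MOD M] ∧ (∀ i : Fin n, g (m + i + 1) = u i) ∧
        ∀ i : Fin 3, g (m + (n + i) + 1) = e i).card := by
    rw [card_eq_sum_card_fiberwise (f := fun m => fun j : Fin n => g (m + j + 1))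
      (t := univ) (fun _ _ => mem_univ _)]
    refine sum_congr rfl fun u _ => ?_
    rw [hC, filter_filter]
    congr 1
    refine filter_congr fun m _ => ?_
    constructor
    · rintro ⟨⟨a, b⟩, d⟩
      exact ⟨a, fun j => congrFun d j, b⟩
    · rintro ⟨a, b, d⟩
      exact ⟨⟨a, d⟩, funext b⟩
  by_contra hcon
  push Not at hcon
  have h5 : ∑ u : Fin n → ℤˣ, 2 ^ n *
      (((Icc 1 x).filter fun m => m ≡ r [MOD M] ∧ (∀ i : Fin n, g (m + i + 1) = u i) ∧
        ∀ i : Fin 3, g (m + (n + i) + 1) = e i).card : ℝ) <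
      ∑ _u : Fin n → ℤˣ, c / (32 * M) * x :=
    sum_lt_sum_of_nonempty univ_nonempty fun u _ => hcon u
  rw [← mul_sum, sum_const, card_univ, Fintype.card_pi, nsmul_eq_mul] at h5
  simp only [Fintype.card_units_int, prod_const, card_univ, Fintype.card_fin] at h5
  have h6 : (C.card : ℝ) = ∑ u : Fin n → ℤˣ,
      (((Icc 1 x).filter fun m => m ≡ r [MOD M] ∧ (∀ i : Fin n, g (m + i + 1) = u i) ∧
        ∀ i : Fin 3, g (m + (n + i) + 1) = e i).card : ℝ) := by
    exact_mod_cast h4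
  rw [← h6] at h5
  push_cast at h5
  have h7 := lt_of_mul_lt_mul_left h5 (by positivity)
  linarith

/-- the classes with three free places at the end -/
lemma on_class3 (n : ℕ) (P : Finset ℕ) (hP : ∀ p ∈ P, p.Prime) (hn : ∀ p ∈ P, n + 3 < p) :
    ∃ M : ℕ, 1 ≤ M ∧ ∀ A ∈ P.powersetCard n,
    ∃ (π : Fin n → ℕ) (r : ℕ), (∀ j, π j ∈ A) ∧ Function.Injective π ∧
      ∀ (g : ℕ → ℤˣ) (D : Finset ℕ), D ⊆ P → ∀ m : ℕ, m ≡ r [MOD M] →
        (∀ i : Fin n, change g D (m + i + 1) =
          g (m + i + 1) * if π i ∈ D then (-1 : ℤˣ) else 1) ∧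
        ∀ i : Fin 3, change g D (m + (n + i) + 1) = g (m + (n + i) + 1) := by
  classical
  obtain ⟨F0, hF1, hF2, hF3, hF4⟩ := exists_part {p | p.Prime} Nat.infinite_setOfPred_prime (n + 3) 3 P
  set q : Fin 3 → ℕ := fun i => F0.orderEmbOfFin hF3 i with hq
  have hqF : ∀ i, q i ∈ F0 := fun i => orderEmbOfFin_mem F0 hF3 i
  set P' : Finset ℕ := P ∪ F0 with hP'
  have hP'p : ∀ p ∈ P', p.Prime := by
    intro p hp
    rcases mem_union.1 hp with h | h
    · exact hP p h
    · exact hF1 h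
  have hP'n : ∀ p ∈ P', n + 3 < p := by
    intro p hp
    rcases mem_union.1 hp with h | h
    · exact hn p h
    · exact hF2 p h
  refine ⟨∏ p ∈ P', p ^ 2, Nat.one_le_iff_ne_zero.2 (prod_ne_zero_iff.2 fun p hp =>
    pow_ne_zero _ (hP'p p hp).ne_zero), fun A hA => ?_⟩
  rw [mem_powersetCard] at hA
  set π : Fin n → ℕ := fun i => A.orderEmbOfFin hA.2 i with hπ
  have hπA : ∀ i, π i ∈ A := fun i => orderEmbOfFin_mem A hA.2 i
  have hπi : Function.Injective π := (A.orderEmbOfFin hA.2).injective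
  have hqi : Function.Injective q := (F0.orderEmbOfFin hF3).injective
  have hdisj : ∀ i j, π i ≠ q j := by
    intro i j h
    have h1 : π i ∈ P := hA.1 (hπA i)
    rw [h] at h1
    exact Finset.disjoint_left.1 hF4 (hqF j) h1
  obtain ⟨r, hr⟩ := crt (n + 3) P' hP'p hP'n (Fin.append π q) (by
    intro j
    refine Fin.addCases (fun i => ?_) (fun i => ?_) j
    · rw [Fin.append_left]
      exact mem_union_left _ (hA.1 (hπA i))
    · rw [Fin.append_right]
      exact mem_union_right _ (hqF i)) (by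
    intro j j'
    refine Fin.addCases (fun i => ?_) (fun i => ?_) j <;>
      refine Fin.addCases (fun i' => ?_) (fun i' => ?_) j'
    · rw [Fin.append_left, Fin.append_left]
      intro h
      rw [hπi h]
    · rw [Fin.append_left, Fin.append_right]
      intro h
      exact absurd h (hdisj i i')
    · rw [Fin.append_left, Fin.append_right]
      intro h
      exact absurd h.symm (hdisj i' i)
    · rw [Fin.append_right, Fin.append_right]
      intro h
      rw [hqi h])
  refine ⟨π, r, hπA, hπi, fun g D hD m hm => ⟨fun i => ?_, fun i => ?_⟩⟩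
  · obtain ⟨h1, h2⟩ := hr m hm (Fin.castAdd 3 i)
    rw [Fin.append_left] at h1 h2
    simp only [Fin.val_castAdd] at h1 h2
    have h := change_of_known g (D : Set ℕ) (P' : Set ℕ)
      (fun p hp => mem_union_left _ (hD hp)) (m + i + 1) (by omega)
      (π i) (hP _ (hA.1 (hπA i))) h1 (fun p hp hne => h2 p (by exact_mod_cast hp) hne)
    rw [h]
    simp only [mem_coe]
  · obtain ⟨h1, h2⟩ := hr m hm (Fin.natAdd n i)
    rw [Fin.append_right] at h1 h2
    simp only [Fin.val_natAdd] at h1 h2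
    have h := change_of_known g (D : Set ℕ) (P' : Set ℕ)
      (fun p hp => mem_union_left _ (hD hp)) (m + (n + i) + 1) (by omega)
      (q i) (hF1 (hqF i)) h1 (fun p hp hne => h2 p (by exact_mod_cast hp) hne)
    have hqD : q i ∉ (D : Set ℕ) := fun h3 =>
      Finset.disjoint_left.1 hF4 (hqF i) (hD h3)
    rw [h, if_neg hqD, mul_one]

open Classical in
/-- few bad changes along scales with the same popular patterns -/
lemma few_of3 (g : ℕ → ℤˣ) (n : ℕ) (P : Finset ℕ) (Y : Set ℕ) (M K : ℕ)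
    (π : Finset ℕ → Fin n → ℕ) (r : Finset ℕ → ℕ)
    (u : Finset ℕ → (Fin 3 → ℤˣ) → Fin n → ℤˣ)
    (hπ : ∀ A ∈ P.powersetCard n, (∀ j, π A j ∈ A) ∧ Function.Injective (π A) ∧
      ∀ (g : ℕ → ℤˣ) (D : Finset ℕ), D ⊆ P → ∀ m : ℕ, m ≡ r A [MOD M] →
        (∀ i : Fin n, change g D (m + i + 1) =
          g (m + i + 1) * if π A i ∈ D then (-1 : ℤˣ) else 1) ∧
        ∀ i : Fin 3, change g D (m + (n + i) + 1) = g (m + (n + i) + 1))
    (hu : ∀ A ∈ P.powersetCard n, ∀ e : Fin 3 → ℤˣ, ∀ x ∈ Y, x ≤ K *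
      ((Icc 1 x).filter fun m => m ≡ r A [MOD M] ∧ (∀ i : Fin n, g (m + i + 1) = u A e i) ∧
        ∀ i : Fin 3, g (m + (n + i) + 1) = e i).card) (ε : Fin (n + 3) → ℤˣ) :
    (P.powerset.filter fun D : Finset ℕ => ¬ ∀ x ∈ Y, x ≤ K * count (change g D) ε x).card ≤
      ∑ i ∈ range n, P.card.choose i := by
  apply vc n
  · intro D hD
    exact mem_powerset.1 (mem_filter.1 hD).1
  · intro A hA hsh
    obtain ⟨h1, h2, h3⟩ := hπ A hA
    set e : Fin 3 → ℤˣ := fun i => ε (Fin.natAdd n i) with he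
    obtain ⟨D, hD, hDA⟩ := hsh
      (t := (univ.filter fun j => ε (Fin.castAdd 3 j) ≠ u A e j).image (π A)) (by
      intro p hp
      obtain ⟨j, _, rfl⟩ := mem_image.1 hp
      exact h1 j)
    obtain ⟨hDP, hbad⟩ := mem_filter.1 hD
    rw [mem_powerset] at hDP
    apply hbad
    intro x hx
    have hmem : ∀ j, π A j ∈ D ↔ ε (Fin.castAdd 3 j) ≠ u A e j := by
      intro j
      have h4 : π A j ∈ A ∩ D ↔ π A j ∈ D := by
        rw [mem_inter]
        exact ⟨fun h => h.2, fun h => ⟨h1 j, h⟩⟩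
      rw [← h4, hDA, mem_image]
      constructor
      · rintro ⟨j', hj', h5⟩
        rw [← h2 h5]
        exact (mem_filter.1 hj').2
      · intro h5
        exact ⟨j, mem_filter.2 ⟨mem_univ _, h5⟩, rfl⟩
    refine (hu A hA e x hx).trans (Nat.mul_le_mul_left _ ?_)
    unfold count
    apply card_le_card
    intro m hm
    rw [mem_filter] at hm ⊢
    obtain ⟨hm1, hm2, hm3, hm4⟩ := hm
    obtain ⟨h5, h6⟩ := h3 g D hDP m hm2
    refine ⟨hm1, fun j => ?_⟩
    refine Fin.addCases (fun i => ?_) (fun i => ?_) j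
    · rw [Fin.val_castAdd, h5 i, hm3 i]
      by_cases h7 : ε (Fin.castAdd 3 i) = u A e i
      · have h8 : π A i ∉ D := by
          rw [hmem]
          simpa using h7
        simp [h8, h7]
      · have h8 : π A i ∈ D := (hmem i).2 h7
        simp only [h8, if_true, mul_neg, mul_one]
        exact (Int.units_ne_iff_eq_neg.1 h7).symm
    · rw [Fin.val_natAdd, h6 i, hm4 i]

open Classical in
/-- **few bad changes, improved** -/
theorem few3 (H : Hyp F (fun n => sg (g n)) c) (hF : F.NeBot) (n : ℕ) (P : Finset ℕ)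
    (hP : ∀ p ∈ P, p.Prime) (hn : ∀ p ∈ P, n + 3 < p) : ∃ K : ℕ,
    (∀ᶠ x in F, ∀ ε : Fin (n + 3) → ℤˣ, (P.powerset.filter fun D : Finset ℕ =>
      ¬ x ≤ K * count (change g D) ε x).card ≤ ∑ i ∈ range n, P.card.choose i) ∧
    ∃ X : ℕ → ℕ, StrictMono X ∧ ∀ ε : Fin (n + 3) → ℤˣ, (P.powerset.filter fun D : Finset ℕ =>
      ¬ ∀ k, X k ≤ K * count (change g D) ε (X k)).card ≤ ∑ i ∈ range n, P.card.choose i := by
  obtain ⟨M, hM, hcl⟩ := on_class3 n P hP hn
  have h0 : ∀ A : Finset ℕ, ∃ (π : Fin n → ℕ) (r : ℕ), A ∈ P.powersetCard n →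
      (∀ j, π j ∈ A) ∧ Function.Injective π ∧
      ∀ (g : ℕ → ℤˣ) (D : Finset ℕ), D ⊆ P → ∀ m : ℕ, m ≡ r [MOD M] →
        (∀ i : Fin n, change g D (m + i + 1) =
          g (m + i + 1) * if π i ∈ D then (-1 : ℤˣ) else 1) ∧
        ∀ i : Fin 3, change g D (m + (n + i) + 1) = g (m + (n + i) + 1) := by
    intro A
    by_cases hA : A ∈ P.powersetCard n
    · obtain ⟨π, r, h⟩ := hcl A hA
      exact ⟨π, r, fun _ => h⟩
    · exact ⟨fun _ => 0, 0, fun h => absurd h hA⟩
  choose π r hπ using h0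
  have hM0 : (0 : ℝ) < M := by exact_mod_cast hM
  have hc0 := H.c0
  set K : ℕ := ⌈32 * M / c * 2 ^ n⌉₊ with hK
  set Good : ℕ → (P.powersetCard n × (Fin 3 → ℤˣ) → Fin n → ℤˣ) → Prop := fun x u =>
    ∀ a : P.powersetCard n × (Fin 3 → ℤˣ), x ≤ K *
      ((Icc 1 x).filter fun m => m ≡ r a.1 [MOD M] ∧ (∀ i : Fin n, g (m + i + 1) = u a i) ∧
        ∀ i : Fin 3, g (m + (n + i) + 1) = a.2 i).card with hGood
  have hpop : ∀ᶠ x in F, ∃ u, Good x u := by
    have h1 : ∀ a : P.powersetCard n × (Fin 3 → ℤˣ), ∀ᶠ x : ℕ in F, ∃ u : Fin n → ℤˣ, x ≤ K *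
      ((Icc 1 x).filter fun m => m ≡ r a.1 [MOD M] ∧ (∀ i : Fin n, g (m + i + 1) = u i) ∧
        ∀ i : Fin 3, g (m + (n + i) + 1) = a.2 i).card := by
      intro a
      filter_upwards [pop3 H n M hM (r a.1) a.2] with x hx
      obtain ⟨u, hu⟩ := hx
      refine ⟨u, ?_⟩
      have h2 : (x : ℝ) ≤ 32 * M / c * 2 ^ n *
          (((Icc 1 x).filter fun m => m ≡ r a.1 [MOD M] ∧ (∀ i : Fin n, g (m + i + 1) = u i) ∧
            ∀ i : Fin 3, g (m + (n + i) + 1) = a.2 i).card : ℝ) := by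
        have h3 : (x : ℝ) = 32 * M / c * (c / (32 * M) * x) := by field_simp
        rw [h3, mul_assoc (32 * (M : ℝ) / c)]
        exact mul_le_mul_of_nonneg_left hu (by positivity)
      have h3 : (32 * M / c * 2 ^ n : ℝ) ≤ K := Nat.le_ceil _
      have h4 : (x : ℝ) ≤ ((K * ((Icc 1 x).filter fun m => m ≡ r a.1 [MOD M] ∧
          (∀ i : Fin n, g (m + i + 1) = u i) ∧
            ∀ i : Fin 3, g (m + (n + i) + 1) = a.2 i).card : ℕ) : ℝ) := by
        push_cast
        exact h2.trans (mul_le_mul_of_nonneg_right h3 (Nat.cast_nonneg _))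
      exact_mod_cast h4
    filter_upwards [eventually_all.2 h1] with x hx
    choose u hu using hx
    exact ⟨u, hu⟩
  refine ⟨K, ?_, ?_⟩
  · filter_upwards [hpop] with x hx ε
    obtain ⟨u, hu⟩ := hx
    have h := few_of3 g n P {x} M K π r
      (fun A e => if hA : A ∈ P.powersetCard n then u (⟨A, hA⟩, e) else 1) hπ (by
        rintro A hA e y rfl
        have h1 := hu (⟨A, hA⟩, e)
        simp only [hA, dif_pos]
        exact h1) ε
    simpa using h
  · obtain ⟨u, hu⟩ : ∃ u, ∃ᶠ x in F, Good x u := by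
      by_contra hcon
      push Not at hcon
      have h1 : ∀ u, ∀ᶠ x in F, ¬ Good x u := by
        intro u
        have := hcon u
        simpa [Filter.not_frequently] using this
      obtain ⟨x, hx1, hx2⟩ := ((eventually_all.2 h1).and hpop).exists
      obtain ⟨u, hu⟩ := hx2
      exact hx1 u hu
    obtain ⟨X, hX, hX2⟩ := extraction_of_frequently_atTop (hu.filter_mono H.le)
    refine ⟨X, hX, fun ε => ?_⟩
    have h := few_of3 g n P (Set.range X) M K π r
      (fun A e => if hA : A ∈ P.powersetCard n then u (⟨A, hA⟩, e) else 1) hπ (by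
        rintro A hA e y ⟨k, rfl⟩
        have h1 := hX2 k (⟨A, hA⟩, e)
        simp only [hA, dif_pos]
        exact h1) ε
    simpa using h

end Pool.Agent.K9h88.FC
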