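import Mathlib
import Pool.Agent.K9h88.FC.LamFew

/-! # One pattern with fewer than `n / 2` changes -/

set_option autoImplicit false

namespace Pool.Agent.K9h88.FC

open Finset Filter

variable {F : Filter ℕ} {g : ℕ → ℤˣ} {c : ℝ}

lemma sg_mul_eq (u v : ℤˣ) : sg u * sg v = 1 - 2 * (if v ≠ u then 1 else 0) := by
  unfold sg
  rcases Int.units_eq_one_or u with rfl | rfl <;> rcases Int.units_eq_one_or v with rfl | rfl
  · simp
  · have : (-1 : ℤˣ) ≠ 1 := by decide
    simp only [this, ne_eq, not_false_eq_true, if_true]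
    norm_num
  · have : (1 : ℤˣ) ≠ -1 := by decide
    simp only [this, ne_eq, not_false_eq_true, if_true]
    norm_num
  · simp

/-- the number of places where the pattern at `m` differs from `ε` -/
def dist' {n : ℕ} (u ε : Fin n → ℤˣ) : ℕ := (univ.filter fun j => u j ≠ ε j).card

lemma sum_sg {n : ℕ} (u ε : Fin n → ℤˣ) : ∑ j, sg (ε j) * sg (u j) = n - 2 * dist' u ε := by
  simp only [sg_mul_eq]
  rw [sum_sub_distrib, ← mul_sum]
  unfold dist'
  rw [card_filter]
  push_cast
  simp

open Classical in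
/-- many `m` of a class agree with `ε` at more than half of the places -/
lemma majority (H : Hyp F (fun n => sg (g n)) c) (n M : ℕ) (hn : 1 ≤ n) (hM : 1 ≤ M) (r : ℕ)
    (ε : Fin n → ℤˣ) : ∀ᶠ x : ℕ in F, (x : ℝ) ≤ 8 * n * M *
      (((Icc 1 x).filter fun m => m ≡ r [MOD M] ∧
        2 * dist' (fun j : Fin n => g (m + j + 1)) ε + 1 ≤ n).card : ℝ) := by
  have hM0 : (0 : ℝ) < M := by exact_mod_cast hM
  have hn0 : (0 : ℝ) < n := by exact_mod_cast hn
  set δ : ℝ := 1 / (8 * n * M) with hδ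
  have hδ0 : 0 < δ := by positivity
  have h1 : ∀ᶠ x in F, ∀ j : Fin n, |∑ m ∈ range x, cl M r m * sg (g (m + (j + 1)))| ≤ δ * x :=
    eventually_all.2 fun j => H.one M hM r (j + 1) δ hδ0
  have h2 : ∀ᶠ x in F, ∀ i j : Fin n, i ≠ j →
      |∑ m ∈ range x, cl M r m * sg (g (m + (i + 1))) * sg (g (m + (j + 1)))| ≤ δ * x := by
    refine eventually_all.2 fun i => eventually_all.2 fun j => ?_
    by_cases hij : i = j
    · exact Eventually.of_forall fun x h => absurd hij h
    · have hne : (i : ℕ) + 1 ≠ j + 1 := fun h => hij (Fin.ext (by omega))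
      filter_upwards [H.pair M hM r (i + 1) (j + 1) hne δ hδ0] with x hx _
      exact hx
  have h3 : ∀ᶠ x : ℕ in F, 8 * n * M ≤ x := H.le (eventually_ge_atTop _)
  filter_upwards [h1, h2, h3] with x hx1 hx2 hx3
  have hx3' : 8 * (n : ℝ) * M ≤ x := by exact_mod_cast hx3
  have hxx : (0 : ℝ) ≤ x := Nat.cast_nonneg _
  set X : ℕ → ℝ := fun m => ∑ j : Fin n, sg (ε j) * sg (g (m + (j + 1))) with hX
  have hs1 : ∀ u : ℤˣ, |sg u| = 1 := by
    intro u
    rcases sg_or u with h | h <;> rw [h] <;> simp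
  -- the sum
  have hS : ∑ m ∈ range x, cl M r m * (X m ^ 2 + n * X m) =
      ∑ i : Fin n, ∑ j : Fin n, sg (ε i) * sg (ε j) *
        ∑ m ∈ range x, cl M r m * sg (g (m + (i + 1))) * sg (g (m + (j + 1))) +
      n * ∑ j : Fin n, sg (ε j) * ∑ m ∈ range x, cl M r m * sg (g (m + (j + 1))) := by
    have e1 : ∀ m, cl M r m * (X m ^ 2 + n * X m) =
        ∑ i : Fin n, ∑ j : Fin n, sg (ε i) * sg (ε j) *
          (cl M r m * sg (g (m + (i + 1))) * sg (g (m + (j + 1)))) +
        n * ∑ j : Fin n, sg (ε j) * (cl M r m * sg (g (m + (j + 1)))) := by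
      intro m
      rw [mul_add, hX]
      simp only
      congr 1
      · rw [pow_two, sum_mul_sum, mul_sum]
        refine sum_congr rfl fun i _ => ?_
        rw [mul_sum]
        refine sum_congr rfl fun j _ => ?_
        ring
      · rw [← mul_assoc, mul_comm (cl M r m) (n : ℝ), mul_assoc, mul_sum]
        congr 1
        refine sum_congr rfl fun j _ => ?_
        ring
    simp only [e1]
    rw [sum_add_distrib, sum_comm]
    congr 1
    · refine sum_congr rfl fun i _ => ?_
      rw [sum_comm]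
      refine sum_congr rfl fun j _ => ?_
      rw [mul_sum]
    · rw [← mul_sum, sum_comm]
      congr 1
      refine sum_congr rfl fun j _ => ?_
      rw [mul_sum]
  have hdiag : ∀ i : Fin n, sg (ε i) * sg (ε i) *
      ∑ m ∈ range x, cl M r m * sg (g (m + (i + 1))) * sg (g (m + (i + 1))) =
        ∑ m ∈ range x, cl M r m := by
    intro i
    have e1 : ∀ u : ℤˣ, sg u * sg u = 1 := by
      intro u
      rcases sg_or u with h | h <;> rw [h] <;> norm_num
    rw [e1, one_mul]
    refine sum_congr rfl fun m _ => ?_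
    rw [mul_assoc, e1, mul_one]
  have hlow : (n : ℝ) * (x / M - 1) - 2 * (n * (n * (δ * x))) ≤
      ∑ m ∈ range x, cl M r m * (X m ^ 2 + n * X m) := by
    rw [hS]
    have hcl := cl_sum M r x hM
    have a1 : ∀ i j : Fin n, (if i = j then (x : ℝ) / M - 1 else 0) - δ * x ≤ sg (ε i) * sg (ε j) *
        ∑ m ∈ range x, cl M r m * sg (g (m + (i + 1))) * sg (g (m + (j + 1))) := by
      intro i j
      by_cases hij : i = j
      · subst hij
        rw [if_pos rfl, hdiag]
        have : 0 ≤ δ * x := by positivity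
        linarith
      · rw [if_neg hij]
        have h5 := hx2 i j hij
        have h6 : |sg (ε i) * sg (ε j) *
            ∑ m ∈ range x, cl M r m * sg (g (m + (i + 1))) * sg (g (m + (j + 1)))| ≤ δ * x := by
          rw [abs_mul, abs_mul, hs1, hs1, one_mul, one_mul]
          exact h5
        rw [abs_le] at h6
        linarith [h6.1]
    have a2 : ∀ j : Fin n, - (δ * x) ≤
        sg (ε j) * ∑ m ∈ range x, cl M r m * sg (g (m + (j + 1))) := by
      intro j
      have h6 : |sg (ε j) * ∑ m ∈ range x, cl M r m * sg (g (m + (j + 1)))| ≤ δ * x := by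
        rw [abs_mul, hs1, one_mul]
        exact hx1 j
      exact (abs_le.1 h6).1
    have a3 : ∑ i : Fin n, ∑ j : Fin n, ((if i = j then (x : ℝ) / M - 1 else 0) - δ * x) ≤
        ∑ i : Fin n, ∑ j : Fin n, sg (ε i) * sg (ε j) *
          ∑ m ∈ range x, cl M r m * sg (g (m + (i + 1))) * sg (g (m + (j + 1))) :=
      sum_le_sum fun i _ => sum_le_sum fun j _ => a1 i j
    have a4 : ∑ i : Fin n, ∑ j : Fin n, ((if i = j then (x : ℝ) / M - 1 else 0) - δ * x) =
        n * (x / M - 1) - n * (n * (δ * x)) := by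
      simp only [sum_sub_distrib, sum_ite_eq, mem_univ, if_true, sum_const, card_univ,
        Fintype.card_fin, nsmul_eq_mul]
      ring
    have a5 : ∑ _j : Fin n, - (δ * x) ≤
        ∑ j : Fin n, sg (ε j) * ∑ m ∈ range x, cl M r m * sg (g (m + (j + 1))) :=
      sum_le_sum fun j _ => a2 j
    have a6 : ∑ _j : Fin n, - (δ * (x : ℝ)) = - (n * (δ * x)) := by
      rw [sum_const, card_univ, Fintype.card_fin, nsmul_eq_mul]
      ring
    rw [a4] at a3
    rw [a6] at a5
    have a7 := mul_le_mul_of_nonneg_left a5 hn0.le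
    linarith
  have hup : ∑ m ∈ range x, cl M r m * (X m ^ 2 + n * X m) ≤ 2 * n ^ 2 *
      (((range x).filter fun m => m ≡ r [MOD M] ∧
        2 * dist' (fun j : Fin n => g (m + j + 1)) ε + 1 ≤ n).card : ℝ) := by
    rw [card_filter]
    push_cast
    rw [mul_sum]
    refine sum_le_sum fun m _ => ?_
    have b1 : X m = n - 2 * dist' (fun j : Fin n => g (m + j + 1)) ε :=
      sum_sg (fun j : Fin n => g (m + j + 1)) ε
    have b2 : (dist' (fun j : Fin n => g (m + j + 1)) ε : ℝ) ≤ n := by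
      have : dist' (fun j : Fin n => g (m + j + 1)) ε ≤ n := by
        unfold dist'
        refine (card_filter_le _ _).trans ?_
        simp
      exact_mod_cast this
    have b3 : (0 : ℝ) ≤ dist' (fun j : Fin n => g (m + j + 1)) ε := Nat.cast_nonneg _
    unfold cl
    by_cases hm : m ≡ r [MOD M]
    · simp only [hm, true_and, if_true, one_mul]
      by_cases hd : 2 * dist' (fun j : Fin n => g (m + j + 1)) ε + 1 ≤ n
      · rw [if_pos hd, mul_one]
        rw [b1]
        nlinarith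
      · rw [if_neg hd, mul_zero]
        have hd2 : n ≤ 2 * dist' (fun j : Fin n => g (m + j + 1)) ε := by omega
        have hd3 : (n : ℝ) ≤ 2 * dist' (fun j : Fin n => g (m + j + 1)) ε := by exact_mod_cast hd2
        have b4 : X m ≤ 0 := by rw [b1]; linarith
        have b5 : 0 ≤ X m + n := by rw [b1]; linarith
        nlinarith
    · simp [hm]
  have h5 := hlow.trans hup
  have h6 := range_Icc x fun m => m ≡ r [MOD M] ∧
        2 * dist' (fun j : Fin n => g (m + j + 1)) ε + 1 ≤ n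
  have h6' : (((range x).filter fun m => m ≡ r [MOD M] ∧
        2 * dist' (fun j : Fin n => g (m + j + 1)) ε + 1 ≤ n).card : ℝ) ≤
      (((Icc 1 x).filter fun m => m ≡ r [MOD M] ∧
        2 * dist' (fun j : Fin n => g (m + j + 1)) ε + 1 ≤ n).card : ℝ) + 1 := by
    exact_mod_cast h6
  set N0 : ℝ := (((Icc 1 x).filter fun m => m ≡ r [MOD M] ∧
        2 * dist' (fun j : Fin n => g (m + j + 1)) ε + 1 ≤ n).card : ℝ) with hN0
  have h7 : (n : ℝ) * (x / M - 1) - 2 * (n * (n * (δ * x))) ≤ 2 * n ^ 2 * (N0 + 1) :=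
    h5.trans (mul_le_mul_of_nonneg_left h6' (by positivity))
  have h8 : 2 * (n * (n * (δ * x))) = n * (x / (4 * M)) := by
    rw [hδ]
    field_simp
    ring
  rw [h8] at h7
  have h9 : (n : ℝ) * (x / M - 1 - x / (4 * M)) ≤ n * (2 * n * (N0 + 1)) := by
    calc (n : ℝ) * (x / M - 1 - x / (4 * M)) = n * (x / M - 1) - n * (x / (4 * M)) := by ring
      _ ≤ 2 * n ^ 2 * (N0 + 1) := h7
      _ = n * (2 * n * (N0 + 1)) := by ring
  have h10 := le_of_mul_le_mul_left h9 hn0
  have h11 : (x : ℝ) / M = 4 * (x / (4 * M)) := by field_simp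
  have h12 : 2 * (n : ℝ) ≤ x / (4 * M) := by
    rw [le_div_iff₀ (by positivity)]
    linarith
  have h13 : (1 : ℝ) ≤ n := by exact_mod_cast hn
  have h14 : x / (4 * M) ≤ 2 * n * N0 := by
    rw [h11] at h10
    nlinarith
  rw [div_le_iff₀ (by positivity)] at h14
  nlinarith

open Classical in
/-- **one pattern** -/
theorem half (H : Hyp F (fun n => sg (g n)) c) (hF : F.NeBot) (n : ℕ) (hn1 : 1 ≤ n) (A : Finset ℕ)
    (hA : A.card = n) (hP : ∀ p ∈ A, p.Prime) (hn : ∀ p ∈ A, n < p) (ε : Fin n → ℤˣ) :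
    ∃ D ⊆ A, 2 * D.card + 1 ≤ n ∧ PosUpper (change g (D : Set ℕ)) ε := by
  obtain ⟨π, r, h1, h2, h3⟩ := on_class n A hP hn A (mem_powersetCard.2 ⟨Subset.refl _, hA⟩)
  set M := ∏ p ∈ A, p ^ 2 with hMdef
  have hM : 1 ≤ M := Nat.one_le_iff_ne_zero.2 (prod_ne_zero_iff.2 fun p hp =>
    pow_ne_zero _ (hP p hp).ne_zero)
  set K : ℕ := 8 * n * M * 2 ^ n with hK
  have hpop : ∀ᶠ x : ℕ in F, ∃ u : Fin n → ℤˣ, 2 * dist' u ε + 1 ≤ n ∧ x ≤ K *
      ((Icc 1 x).filter fun m => m ≡ r [MOD M] ∧ ∀ j : Fin n, g (m + j + 1) = u j).card := by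
    filter_upwards [majority H n M hn1 hM r ε, H.le (eventually_ge_atTop 1)] with x hx hx1
    by_contra hcon
    push Not at hcon
    have hx' : x ≤ 8 * n * M * ((Icc 1 x).filter fun m => m ≡ r [MOD M] ∧
        2 * dist' (fun j : Fin n => g (m + j + 1)) ε + 1 ≤ n).card := by exact_mod_cast hx
    set C := (Icc 1 x).filter fun m => m ≡ r [MOD M] ∧
        2 * dist' (fun j : Fin n => g (m + j + 1)) ε + 1 ≤ n with hC
    have h4 : C.card = ∑ u ∈ (univ : Finset (Fin n → ℤˣ)).filter (fun u => 2 * dist' u ε + 1 ≤ n),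
        ((Icc 1 x).filter fun m => m ≡ r [MOD M] ∧ ∀ j : Fin n, g (m + j + 1) = u j).card := by
      rw [card_eq_sum_card_fiberwise (f := fun m => fun j : Fin n => g (m + j + 1))
        (t := (univ : Finset (Fin n → ℤˣ)).filter (fun u => 2 * dist' u ε + 1 ≤ n)) (by
          intro m hm
          rw [mem_coe, hC, mem_filter] at hm
          rw [mem_coe, mem_filter]
          exact ⟨mem_univ _, hm.2.2⟩)]
      refine sum_congr rfl fun u hu => ?_
      rw [hC, filter_filter]
      congr 1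
      refine filter_congr fun m _ => ?_
      constructor
      · rintro ⟨⟨a, b⟩, d⟩
        exact ⟨a, fun j => congrFun d j⟩
      · rintro ⟨a, b⟩
        have : (fun j : Fin n => g (m + j + 1)) = u := funext b
        exact ⟨⟨a, by rw [this]; exact (mem_filter.1 hu).2⟩, this⟩
    have h5 : K * C.card ≤ 2 ^ n * (x - 1) := by
      rw [h4, mul_sum]
      calc ∑ u ∈ (univ : Finset (Fin n → ℤˣ)).filter (fun u => 2 * dist' u ε + 1 ≤ n), K *
          ((Icc 1 x).filter fun m => m ≡ r [MOD M] ∧ ∀ j : Fin n, g (m + j + 1) = u j).card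
          ≤ ∑ _u ∈ (univ : Finset (Fin n → ℤˣ)).filter (fun u => 2 * dist' u ε + 1 ≤ n), (x - 1) := by
            refine sum_le_sum fun u hu => ?_
            have := hcon u (mem_filter.1 hu).2
            omega
        _ ≤ ∑ _u : Fin n → ℤˣ, (x - 1) :=
            sum_le_sum_of_subset (filter_subset _ _)
        _ = 2 ^ n * (x - 1) := by
            rw [sum_const, card_univ, Fintype.card_pi, smul_eq_mul]
            simp [Fintype.card_units_int]
    have h6 : 2 ^ n * x ≤ K * C.card := by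
      calc 2 ^ n * x ≤ 2 ^ n * (8 * n * M * C.card) := Nat.mul_le_mul_left _ hx'
        _ = K * C.card := by rw [hK]; ring
    have h7 := h6.trans h5
    have h8 : x ≤ x - 1 := Nat.le_of_mul_le_mul_left h7 (by positivity)
    omega
  obtain ⟨u, hu⟩ : ∃ u : Fin n → ℤˣ, ∃ᶠ x : ℕ in F, 2 * dist' u ε + 1 ≤ n ∧ x ≤ K *
      ((Icc 1 x).filter fun m => m ≡ r [MOD M] ∧ ∀ j : Fin n, g (m + j + 1) = u j).card := by
    by_contra hcon
    push Not at hcon
    have h4 : ∀ u : Fin n → ℤˣ, ∀ᶠ x : ℕ in F, ¬ (2 * dist' u ε + 1 ≤ n ∧ x ≤ K *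
        ((Icc 1 x).filter fun m => m ≡ r [MOD M] ∧ ∀ j : Fin n, g (m + j + 1) = u j).card) := by
      intro u
      filter_upwards [hcon u] with x hx h
      exact absurd (hx h.1) (not_lt.2 h.2)
    obtain ⟨x, hx1, hx2⟩ := ((eventually_all.2 h4).and hpop).exists
    obtain ⟨u, hu⟩ := hx2
    exact hx1 u hu
  have hd : 2 * dist' u ε + 1 ≤ n := hu.exists.choose_spec.1
  refine ⟨(univ.filter fun j => u j ≠ ε j).image π, ?_, ?_, ?_⟩
  · intro p hp
    obtain ⟨j, _, rfl⟩ := mem_image.1 hp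
    exact h1 j
  · rw [card_image_of_injective _ h2]
    exact hd
  · refine ⟨K, (hu.filter_mono H.le).mono ?_⟩
    rintro x ⟨-, hx⟩
    refine hx.trans (Nat.mul_le_mul_left _ ?_)
    unfold count
    apply card_le_card
    intro m hm
    rw [mem_filter] at hm ⊢
    obtain ⟨hm1, hm2, hm3⟩ := hm
    refine ⟨hm1, fun j => ?_⟩
    rw [h3 g _ (by
      intro p hp
      obtain ⟨j, _, rfl⟩ := mem_image.1 hp
      exact h1 j) m hm2 j, hm3 j]
    by_cases h5 : u j ≠ ε j
    · have h6 : π j ∈ (univ.filter fun j => u j ≠ ε j).image π :=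
        mem_image.2 ⟨j, mem_filter.2 ⟨mem_univ _, h5⟩, rfl⟩
      simp only [h6, if_true, mul_neg, mul_one]
      exact (Int.units_ne_iff_eq_neg.1 (Ne.symm h5)).symm
    · have h6 : π j ∉ (univ.filter fun j => u j ≠ ε j).image π := by
        intro h
        obtain ⟨i, hi, hij⟩ := mem_image.1 h
        rw [h2 hij] at hi
        exact h5 (mem_filter.1 hi).2
      simp only [h6, if_false, mul_one]
      exact not_not.1 h5

end Pool.Agent.K9h88.FC
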