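import Mathlib
import Pool.Agent.K9h88.FC.Half

/-! # Classes with free places -/

set_option autoImplicit false

namespace Pool.Agent.K9h88.FC

open Finset Filter

/-- Chinese remainders with `a` free places -/
lemma crt3 (n a : ℕ) (P : Finset ℕ) (hP : ∀ p ∈ P, p.Prime) (hn : ∀ p ∈ P, n + a < p)
    (π : Fin n → ℕ) (hπ : ∀ j, π j ∈ P) (hinj : Function.Injective π) :
    ∃ r : ℕ, ∀ m : ℕ, m ≡ r [MOD ∏ p ∈ P, p ^ 2] →
      (∀ j : Fin n, (m + j + 1).factorization (π j) = 1 ∧ ∀ p ∈ P, p ≠ π j → ¬ p ∣ m + j + 1) ∧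
      ∀ i : Fin a, ∀ p ∈ P, ¬ p ∣ m + (n + i) + 1 := by
  classical
  obtain ⟨r, hr⟩ := crt n P hP (fun p hp => by have := hn p hp; omega) π hπ hinj
  -- the class of `crt` has all unused primes dividing `m`
  set c : ℕ → ℕ := fun p => if h : ∃ j, π j = p then p + (p ^ 2 - 1) * ((h.choose : ℕ) + 1) else 0
    with hc
  have hco : Set.Pairwise (P : Set ℕ) (Function.onFun Nat.Coprime fun p => p ^ 2) := by
    intro a ha a' ha' haa
    exact Nat.Coprime.pow 2 2 ((Nat.coprime_primes (hP a ha) (hP a' ha')).2 haa)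
  obtain ⟨r, hr⟩ := Nat.chineseRemainderOfFinset c (fun p => p ^ 2) P
    (fun p hp => pow_ne_zero _ (hP p hp).ne_zero) hco
  refine ⟨r, fun m hm => ?_⟩
  have hmc : ∀ p ∈ P, m ≡ c p [MOD p ^ 2] := fun p hp =>
    (hm.of_dvd (dvd_prod_of_mem (fun p => p ^ 2) hp)).trans (hr p hp)
  have key1 : ∀ j, m + j + 1 ≡ π j [MOD (π j) ^ 2] := by
    intro j
    have h := (hmc (π j) (hπ j)).add_right ((j : ℕ) + 1)
    have hex : ∃ i, π i = π j := ⟨j, rfl⟩
    have hch : hex.choose = j := hinj hex.choose_spec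
    have h2 : c (π j) + ((j : ℕ) + 1) = π j + π j ^ 2 * ((j : ℕ) + 1) := by
      rw [hc]
      simp only [dif_pos hex, hch]
      have h3 : 1 ≤ π j ^ 2 := Nat.one_le_pow _ _ (hP _ (hπ j)).pos
      obtain ⟨k, hk⟩ := Nat.exists_eq_add_of_le h3
      rw [hk, Nat.add_sub_cancel_left]
      ring
    rw [h2, ← add_assoc] at h
    refine h.trans ?_
    unfold Nat.ModEq
    simp
  have key0 : ∀ p ∈ P, (¬ ∃ j, π j = p) → p ∣ m := by
    intro p hp hT
    have h := hmc p hp
    have h2 : c p = 0 := by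
      rw [hc]
      simp only [dif_neg hT]
    rw [h2] at h
    exact (dvd_pow_self _ two_ne_zero).trans ((Nat.modEq_zero_iff_dvd).1 h)
  have keyd : ∀ j : Fin n, π j ∣ m + j + 1 := by
    intro j
    have h1 : m + j + 1 ≡ π j [MOD π j] := (key1 j).of_dvd (dvd_pow_self _ two_ne_zero)
    exact (Nat.modEq_zero_iff_dvd).1 (h1.trans (by unfold Nat.ModEq; simp))
  -- a prime of `P` divides only one of `m, …, m + n + a`
  have hone : ∀ p ∈ P, ∀ s t : ℕ, s ≤ n + a → t ≤ n + a → p ∣ m + s → p ∣ m + t → s = t := by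
    intro p hp s t hs ht h1 h2
    have hlt := hn p hp
    rcases lt_trichotomy s t with h | h | h
    · exfalso
      have h4 : m + t = (m + s) + (t - s) := by omega
      rw [h4] at h2
      have h5 := Nat.le_of_dvd (by omega) ((Nat.dvd_add_right h1).1 h2)
      omega
    · exact h
    · exfalso
      have h4 : m + s = (m + t) + (s - t) := by omega
      rw [h4] at h1
      have h5 := Nat.le_of_dvd (by omega) ((Nat.dvd_add_right h2).1 h1)
      omega
  have hwhere : ∀ p ∈ P, ∀ s : ℕ, 1 ≤ s → s ≤ n + a → p ∣ m + s →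
      ∃ j : Fin n, π j = p ∧ (j : ℕ) + 1 = s := by
    intro p hp s hs1 hs2 hd
    by_cases hT : ∃ j, π j = p
    · obtain ⟨j, hj⟩ := hT
      refine ⟨j, hj, ?_⟩
      have h1 := keyd j
      rw [hj, add_assoc] at h1
      exact hone p hp _ _ (by have := j.isLt; omega) hs2 h1 hd
    · exfalso
      have h0 := key0 p hp hT
      have := hone p hp 0 s (by omega) hs2 (by simpa using h0) hd
      omega
  constructor
  · intro j
    have hp := hP _ (hπ j)
    constructor
    · have h := key1 j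
      have hd2 : ¬ π j ^ 2 ∣ m + j + 1 := by
        intro h2
        have h3 : π j ≡ 0 [MOD π j ^ 2] := h.symm.trans ((Nat.modEq_zero_iff_dvd).2 h2)
        have h4 := (Nat.modEq_zero_iff_dvd).1 h3
        have h5 := Nat.le_of_dvd hp.pos h4
        nlinarith [hp.two_le]
      have hne : m + (j : ℕ) + 1 ≠ 0 := by omega
      apply le_antisymm
      · by_contra h6
        exact hd2 ((hp.pow_dvd_iff_le_factorization hne).2 (by omega))
      · exact (hp.dvd_iff_one_le_factorization hne).1 (keyd j)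
    · intro p hpP hne hd
      rw [add_assoc] at hd
      obtain ⟨i, hi, hij⟩ := hwhere p hpP (j + 1) (by omega) (by have := j.isLt; omega) hd
      apply hne
      rw [← hi]
      congr 1
      exact Fin.ext (by omega)
  · intro i p hpP hd
    rw [add_assoc] at hd
    obtain ⟨j, hj, hij⟩ := hwhere p hpP (n + i + 1) (by omega) (by have := i.isLt; omega) hd
    have := j.isLt
    omega

open Classical in
/-- few numbers of a class are followed by multiples of further elements of `Q` -/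
lemma unclean (a : ℕ) (Q : Set ℕ) (hQ : ∀ q ∈ Q, q.Prime) (hs : Summable (rec Q)) (η : ℝ)
    (hη : 0 < η) (A : Finset ℕ) (hAQ : (A : Set ℕ) ⊆ Q) :
    ∃ P : Finset ℕ, A ⊆ P ∧ (P : Set ℕ) ⊆ Q ∧ ∀ r : ℕ, ∀ᶠ x : ℕ in atTop,
      (((Icc 1 x).filter fun m => m ≡ r [MOD ∏ p ∈ P, p ^ 2] ∧
        ∃ j : Fin a, ∃ q ∈ Q, q ∉ P ∧ q ∣ m + j + 1).card : ℝ) ≤
        η * (x / ((∏ p ∈ P, p ^ 2 : ℕ) : ℝ)) := by
  obtain ⟨s, hs1⟩ := summable_iff_vanishing_norm.1 hs (η / (2 * (a + 1))) (by positivity)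
  set P : Finset ℕ := A ∪ s.filter fun q => q ∈ Q with hPdef
  have hPQ : ∀ p ∈ P, p ∈ Q := by
    intro p hp
    rw [hPdef, mem_union, mem_filter] at hp
    rcases hp with h | h
    · exact hAQ h
    · exact h.2
  refine ⟨P, subset_union_left, hPQ, fun r => ?_⟩
  set M := ∏ p ∈ P, p ^ 2 with hMdef
  have hM : 1 ≤ M := Nat.one_le_iff_ne_zero.2 (prod_ne_zero_iff.2 fun p hp =>
    pow_ne_zero _ (hQ p (hPQ p hp)).ne_zero)
  have hMR : (1 : ℝ) ≤ M := by exact_mod_cast hM
  have hM0 : (0 : ℝ) < M := by linarith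
  obtain ⟨T, hT⟩ := few_elements Q (fun q hq => (hQ q hq).one_le) hs (η / (4 * M * (a + 1)))
    (by positivity)
  obtain ⟨x₀, hx₀⟩ := exists_nat_ge (4 * M / η * (η * a + a * T))
  rw [eventually_atTop]
  refine ⟨x₀, fun x hx => ?_⟩
  have hx' : 4 * (M : ℝ) / η * (η * a + a * T) ≤ x := hx₀.trans (by exact_mod_cast hx)
  set C := (Icc 1 x).filter fun m => m ≡ r [MOD M] with hC
  set W := (Icc 1 (x + a)).filter fun q => q ∈ Q ∧ q ∉ P with hW
  have h1 : ((Icc 1 x).filter fun m => m ≡ r [MOD M] ∧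
      ∃ j : Fin a, ∃ q ∈ Q, q ∉ P ∧ q ∣ m + j + 1) ⊆
      (univ : Finset (Fin a)).biUnion fun j => W.biUnion fun q =>
        C.filter fun m => q ∣ m + j + 1 := by
    intro m hm
    rw [mem_filter, mem_Icc] at hm
    obtain ⟨⟨hm1, hm2⟩, hm3, j, q, hq, hqP, hd⟩ := hm
    rw [mem_biUnion]
    refine ⟨j, mem_univ _, ?_⟩
    rw [mem_biUnion]
    refine ⟨q, ?_, ?_⟩
    · rw [hW, mem_filter, mem_Icc]
      refine ⟨⟨(hQ q hq).one_le, ?_⟩, hq, hqP⟩
      have h5 := Nat.le_of_dvd (by omega) hd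
      have h7 := j.isLt
      omega
    · rw [mem_filter, hC, mem_filter, mem_Icc]
      exact ⟨⟨⟨hm1, hm2⟩, hm3⟩, hd⟩
  have h2 : (((Icc 1 x).filter fun m => m ≡ r [MOD M] ∧
      ∃ j : Fin a, ∃ q ∈ Q, q ∉ P ∧ q ∣ m + j + 1).card : ℝ) ≤
      ∑ j : Fin a, ∑ q ∈ W, ((C.filter fun m => q ∣ m + j + 1).card : ℝ) := by
    have h3 : ((Icc 1 x).filter fun m => m ≡ r [MOD M] ∧
      ∃ j : Fin a, ∃ q ∈ Q, q ∉ P ∧ q ∣ m + j + 1).card ≤
      ∑ j : Fin a, ∑ q ∈ W, (C.filter fun m => q ∣ m + j + 1).card :=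
      (card_le_card h1).trans (card_biUnion_le.trans (sum_le_sum fun j _ => card_biUnion_le))
    exact_mod_cast h3
  have h3 : ∀ j : Fin a, ∀ q ∈ W, ((C.filter fun m => q ∣ m + j + 1).card : ℝ) ≤
      x / M * rec Q q + 1 := by
    intro j q hq
    rw [hW, mem_filter, mem_Icc] at hq
    obtain ⟨⟨hq1, hq2⟩, hq3, hq4⟩ := hq
    have hqp := hQ q hq3
    have hco : Nat.Coprime q M := by
      rw [hMdef]
      apply Nat.Coprime.prod_right
      intro p hp
      apply Nat.Coprime.pow_right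
      rw [Nat.coprime_primes hqp (hQ p (hPQ p hp))]
      rintro rfl
      exact hq4 hp
    have h4 : (C.filter fun m => q ∣ m + j + 1).card ≤ x / (q * M) + 1 := by
      apply one_class (q * M) x (Nat.mul_pos hqp.pos hM)
      · intro m hm
        rw [mem_filter, hC, mem_filter, mem_Icc] at hm
        exact hm.1.1.2
      · intro m hm m' hm'
        rw [mem_filter, hC, mem_filter, mem_Icc] at hm hm'
        rw [← Nat.modEq_and_modEq_iff_modEq_mul hco]
        refine ⟨?_, hm.1.2.trans hm'.1.2.symm⟩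
        have h5 : m + (j + 1) ≡ m' + (j + 1) [MOD q] := by
          have e1 := (Nat.modEq_zero_iff_dvd).2 hm.2
          have e2 := (Nat.modEq_zero_iff_dvd).2 hm'.2
          rw [add_assoc] at e1 e2
          exact e1.trans e2.symm
        exact Nat.ModEq.add_right_cancel' _ h5
    have h5 : ((C.filter fun m => q ∣ m + j + 1).card : ℝ) ≤ ((x / (q * M) : ℕ) : ℝ) + 1 := by
      exact_mod_cast h4
    have h6 : ((x / (q * M) : ℕ) : ℝ) ≤ (x : ℝ) / ((q * M : ℕ) : ℝ) := Nat.cast_div_le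
    rw [rec_mem hq3]
    have h7 : (x : ℝ) / ((q * M : ℕ) : ℝ) = x / M * (1 / q) := by
      push_cast
      have : (q : ℝ) ≠ 0 := by exact_mod_cast hqp.ne_zero
      field_simp
    rw [h7] at h6
    linarith
  have h4 : ∑ q ∈ W, rec Q q ≤ η / (2 * (a + 1)) := by
    have h5 := hs1 W (by
      rw [Finset.disjoint_left]
      intro q hq hqs
      rw [hW, mem_filter] at hq
      exact hq.2.2 (mem_union_right _ (mem_filter.2 ⟨hqs, hq.2.1⟩)))
    rw [Real.norm_eq_abs] at h5
    exact (le_abs_self _).trans h5.le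
  have h5 : (W.card : ℝ) ≤ η / (4 * M * (a + 1)) * (x + a) + T := by
    have h6 := hT (x + a)
    have h7 : (W.card : ℝ) ≤ (((Icc 1 (x + a)).filter fun q => q ∈ Q).card : ℝ) := by
      norm_cast
      apply card_le_card
      intro q hq
      rw [hW, mem_filter] at hq
      exact mem_filter.2 ⟨hq.1, hq.2.1⟩
    refine h7.trans (h6.trans (le_of_eq ?_))
    push_cast
    ring
  have h6 : ∑ j : Fin a, ∑ q ∈ W, ((C.filter fun m => q ∣ m + j + 1).card : ℝ) ≤
      a * ((x : ℝ) / M * (η / (2 * (a + 1))) + (η / (4 * M * (a + 1)) * (x + a) + T)) := by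
    have h8 : ∑ j : Fin a, ∑ q ∈ W, ((C.filter fun m => q ∣ m + j + 1).card : ℝ) ≤
        ∑ _j : Fin a, ((x : ℝ) / M * (η / (2 * (a + 1))) +
          (η / (4 * M * (a + 1)) * (x + a) + T)) := by
      refine sum_le_sum fun j _ => ?_
      calc ∑ q ∈ W, ((C.filter fun m => q ∣ m + j + 1).card : ℝ)
          ≤ ∑ q ∈ W, (x / M * rec Q q + 1) := sum_le_sum fun q hq => h3 j q hq
        _ = x / M * ∑ q ∈ W, rec Q q + W.card := by
            rw [sum_add_distrib, ← mul_sum]
            simp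
        _ ≤ _ := add_le_add (mul_le_mul_of_nonneg_left h4 (by positivity)) h5
    rw [sum_const, card_univ, Fintype.card_fin, nsmul_eq_mul] at h8
    exact h8
  refine h2.trans (h6.trans ?_)
  -- the final estimate
  have hxx : (0 : ℝ) ≤ x := Nat.cast_nonneg _
  have ha0 : (0 : ℝ) ≤ a := Nat.cast_nonneg _
  have hfrac : (a : ℝ) / (a + 1) ≤ 1 := by
    rw [div_le_one (by positivity)]
    linarith
  have e1 : (a : ℝ) * ((x : ℝ) / M * (η / (2 * (a + 1)))) = η / 2 * (x / M) * (a / (a + 1)) := by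
    field_simp
  have e2 : (a : ℝ) * (η / (4 * M * (a + 1)) * (x + a)) =
      (η / 4 * (x / M) + η / 4 * (a / M)) * (a / (a + 1)) := by
    field_simp
  have e3 : η / 2 * ((x : ℝ) / M) * (a / (a + 1)) ≤ η / 2 * (x / M) * 1 :=
    mul_le_mul_of_nonneg_left hfrac (by positivity)
  have e4 : (η / 4 * ((x : ℝ) / M) + η / 4 * (a / M)) * (a / (a + 1)) ≤
      (η / 4 * (x / M) + η / 4 * (a / M)) * 1 :=
    mul_le_mul_of_nonneg_left hfrac (by positivity)
  have e5 : η / 4 * ((a : ℝ) / M) ≤ η * a := by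
    have : (a : ℝ) / M ≤ a := div_le_self ha0 hMR
    nlinarith
  have e6 : η * a + a * T ≤ η / 4 * (x / M) := by
    have h7 : 4 * (M : ℝ) / η * (η * a + a * T) * (η / (4 * M)) ≤ x * (η / (4 * M)) :=
      mul_le_mul_of_nonneg_right hx' (by positivity)
    have h8 : 4 * (M : ℝ) / η * (η * a + a * T) * (η / (4 * M)) = η * a + a * T := by
      field_simp
    have h9 : (x : ℝ) * (η / (4 * M)) = η / 4 * (x / M) := by
      field_simp
    rw [h8, h9] at h7
    exact h7
  calc (a : ℝ) * ((x : ℝ) / M * (η / (2 * (a + 1))) + (η / (4 * M * (a + 1)) * (x + a) + T))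
      = a * ((x : ℝ) / M * (η / (2 * (a + 1)))) + a * (η / (4 * M * (a + 1)) * (x + a)) +
        a * T := by ring
    _ ≤ η / 2 * (x / M) * 1 + (η / 4 * (x / M) + η / 4 * (a / M)) * 1 + a * T := by
        rw [e1, e2]
        linarith
    _ ≤ η * (x / M) := by linarith

end Pool.Agent.K9h88.FC
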