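import Mathlib
import Pool.Agent.K9h88.FC.Meas

/-! # Generic changes at an infinite set of primes -/

set_option autoImplicit false

namespace Pool.Agent.K9h88.FC

open Finset Filter MeasureTheory Topology

lemma flip_flip (Q : Set ℕ) (S : Finset ℕ) (ω : Q → Bool) : flip Q S (flip Q S ω) = ω := by
  classical
  funext k
  unfold flip
  by_cases h : (k : ℕ) ∈ S <;> simp [h]

lemma flip_continuous (Q : Set ℕ) (S : Finset ℕ) : Continuous (flip Q S) := by
  classical
  unfold flip
  refine continuous_pi fun k => ?_
  by_cases h : (k : ℕ) ∈ S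
  · simp only [h, if_true]
    have h1 : Continuous (fun b : Bool => !b) := continuous_of_discreteTopology
    have h2 : Continuous (fun ω : Q → Bool => ω k) := continuous_apply k
    exact h1.comp h2
  · simp only [h, if_false]
    exact continuous_apply k

/-- turning coins as a homeomorphism -/
noncomputable def flipHomeo (Q : Set ℕ) (S : Finset ℕ) : (Q → Bool) ≃ₜ (Q → Bool) where
  toFun := flip Q S
  invFun := flip Q S
  left_inv := flip_flip Q S
  right_inv := flip_flip Q S
  continuous_toFun := flip_continuous Q S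
  continuous_invFun := flip_continuous Q S

/-- **(g)** generic changes -/
theorem generic (g : ℕ → ℤˣ) (Q : Set ℕ) (hQ : Q.Infinite) (hp : ∀ p ∈ Q, p.Prime) :
    ∀ᶠ ω in residual (Q → Bool), ∀ (n : ℕ) (ε : Fin n → ℤˣ),
      PosUpper (change g (chosen Q ω)) ε := by
  classical
  rw [eventually_countable_forall]
  intro n
  rw [eventually_countable_forall]
  intro ε
  set B : Set (Q → Bool) := {ω | ¬ PosUpper (change g (chosen Q ω)) ε} with hB
  have hBm : MeasurableSet B := (meas_pos g Q ε).compl
  obtain ⟨U, hU, hBU⟩ := hBm.residualEq_isOpen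
  rcases U.eq_empty_or_nonempty with rfl | ⟨ω₀, hω₀⟩
  · filter_upwards [hBU] with ω hω
    have h1 : ω ∉ B := fun h => by
      have : (∅ : Set (Q → Bool)) ω := hω ▸ h
      exact this
    rw [hB, Set.mem_setOf_eq, not_not] at h1
    exact h1
  · exfalso
    obtain ⟨I, u, hu, hIU⟩ := isOpen_pi_iff.1 hU ω₀ hω₀
    obtain ⟨F, hF1, hF2, hF3, hF4⟩ := exists_part Q hQ n n (I.image Subtype.val)
    set C : Set (Q → Bool) := {ω | ∀ a ∈ I, ω a = ω₀ a} with hC
    have hCU : C ⊆ U := fun ω hω => hIU fun a ha => by
      rw [hω a ha]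
      exact (hu a ha).2
    have hCo : IsOpen C := by
      have : C = (I : Set Q).pi fun a => {ω₀ a} := by
        ext ω
        simp [hC, Set.mem_pi]
      rw [this]
      exact isOpen_set_pi I.finite_toSet fun a _ => isOpen_discrete _
    have h1 : ∀ᶠ ω in residual (Q → Bool), ω ∈ U → ω ∈ B := by
      filter_upwards [hBU] with ω hω hωU
      have : U ω := hωU
      rw [← hω] at this
      exact this
    have h2 : ∀ S : Finset ℕ, ∀ᶠ ω in residual (Q → Bool), flip Q S ω ∈ U → flip Q S ω ∈ B := by
      intro S
      have h3 : Tendsto (flip Q S) (residual (Q → Bool)) (residual (Q → Bool)) := by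
        have h4 := (flipHomeo Q S).residual_map_eq
        exact h4.le
      exact h3.eventually h1
    have h3 : ∀ᶠ ω in residual (Q → Bool), ∀ S ∈ F.powerset, flip Q S ω ∈ U → flip Q S ω ∈ B := by
      rw [Filter.eventually_all_finset]
      exact fun S _ => h2 S
    have h4 : Dense {ω : Q → Bool | ∀ S ∈ F.powerset, flip Q S ω ∈ U → flip Q S ω ∈ B} :=
      dense_of_mem_residual h3
    obtain ⟨ω, hωC, hω⟩ := h4.inter_open_nonempty C hCo ⟨ω₀, fun a _ => rfl⟩
    have h5 := few_flips g Q F (fun p hpF => hp p (hF1 hpF)) hF2 hF1 ε ω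
    have h6 : (F.powerset.filter fun S : Finset ℕ =>
        ¬ PosUpper (change g (chosen Q (flip Q S ω))) ε) = F.powerset := by
      rw [filter_eq_self]
      intro S hS
      apply hω S hS
      apply hCU
      intro a ha
      have h7 : (a : ℕ) ∉ S := by
        intro h8
        exact Finset.disjoint_left.1 hF4 (mem_powerset.1 hS h8) (mem_image_of_mem _ ha)
      unfold flip
      simp only [h7, if_false]
      exact hωC a ha
    rw [h6, card_powerset, hF3] at h5
    have h7 := Nat.sum_range_choose n
    rw [sum_range_succ, Nat.choose_self] at h7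
    omega

end Pool.Agent.K9h88.FC
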