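import Mathlib
import Pool.Agent.K9h88.FC.Crt3

/-! # Few bad changes, with three free places -/

set_option autoImplicit false

namespace Pool.Agent.K9h88.FC

open Finset Filter

variable {F : Filter ℕ} {g : ℕ → ℤˣ} {c : ℝ}

lemma change_none (g : ℕ → ℤˣ) (D : Set ℕ) (m : ℕ) (h : ∀ p ∈ D, ¬ p ∣ m) :
    change g D m = g m := by
  classical
  unfold change Finsupp.prod
  rw [prod_eq_one, mul_one]
  intro p hp
  rw [Nat.support_factorization] at hp
  have : p ∉ D := fun hpD => h p hpD (Nat.dvd_of_mem_primeFactors hp)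
  simp [this]

lemma on_class3' (n : ℕ) (P : Finset ℕ) (hP : ∀ p ∈ P, p.Prime) (hn : ∀ p ∈ P, n + 3 < p)
    (A : Finset ℕ) (hA : A ∈ P.powersetCard n) :
    ∃ (π : Fin n → ℕ) (r : ℕ), (∀ j, π j ∈ A) ∧ Function.Injective π ∧
      ∀ (g : ℕ → ℤˣ) (D : Finset ℕ), D ⊆ P → ∀ m : ℕ, m ≡ r [MOD ∏ p ∈ P, p ^ 2] →
        (∀ i : Fin n, change g D (m + i + 1) =
          g (m + i + 1) * if π i ∈ D then (-1 : ℤˣ) else 1) ∧
        ∀ i : Fin 3, change g D (m + (n + i) + 1) = g (m + (n + i) + 1) := by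
  classical
  rw [mem_powersetCard] at hA
  have hπ : ∀ j, A.orderEmbOfFin hA.2 j ∈ P := fun j => hA.1 (orderEmbOfFin_mem A hA.2 j)
  obtain ⟨r, hr⟩ := crt3 n 3 P hP hn (A.orderEmbOfFin hA.2) hπ (A.orderEmbOfFin hA.2).injective
  refine ⟨A.orderEmbOfFin hA.2, r, fun j => orderEmbOfFin_mem A hA.2 j,
    (A.orderEmbOfFin hA.2).injective, ?_⟩
  intro g D hD m hm
  obtain ⟨h0, h3⟩ := hr m hm
  refine ⟨fun j => ?_, fun i => ?_⟩
  · obtain ⟨h1, h2⟩ := h0 j
    have h := change_of_known g (D : Set ℕ) (P : Set ℕ) (by exact_mod_cast hD) (m + j + 1) (by omega)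
      (A.orderEmbOfFin hA.2 j) (hP _ (hπ j)) h1 (fun p hp hne => h2 p (by exact_mod_cast hp) hne)
    rw [h]
    simp only [mem_coe]
  · exact change_none g (D : Set ℕ) _ fun p hp => h3 i p (hD hp)

open Classical in
/-- **few bad changes, improved** -/
theorem few3' (H : Hyp F (fun n => sg (g n)) c) (hF : F.NeBot) (n : ℕ) (P : Finset ℕ)
    (hP : ∀ p ∈ P, p.Prime) (hn : ∀ p ∈ P, n + 3 < p) :
    (∀ᶠ x in F, ∀ ε : Fin (n + 3) → ℤˣ, (P.powerset.filter fun D : Finset ℕ =>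
      ¬ x ≤ ⌈32 / c⌉₊ * 2 ^ n * (∏ p ∈ P, p ^ 2) * count (change g D) ε x).card ≤
        ∑ i ∈ range n, P.card.choose i) ∧
    ∃ X : ℕ → ℕ, StrictMono X ∧ ∀ ε : Fin (n + 3) → ℤˣ, (P.powerset.filter fun D : Finset ℕ =>
      ¬ ∀ k, X k ≤ ⌈32 / c⌉₊ * 2 ^ n * (∏ p ∈ P, p ^ 2) * count (change g D) ε (X k)).card ≤
        ∑ i ∈ range n, P.card.choose i := by
  set M := ∏ p ∈ P, p ^ 2 with hMdef
  have hM : 1 ≤ M := Nat.one_le_iff_ne_zero.2 (prod_ne_zero_iff.2 fun p hp =>
    pow_ne_zero _ (hP p hp).ne_zero)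
  have h0 : ∀ A : Finset ℕ, ∃ (π : Fin n → ℕ) (r : ℕ), A ∈ P.powersetCard n →
      (∀ j, π j ∈ A) ∧ Function.Injective π ∧
      ∀ (g : ℕ → ℤˣ) (D : Finset ℕ), D ⊆ P → ∀ m : ℕ, m ≡ r [MOD M] →
        (∀ i : Fin n, change g D (m + i + 1) =
          g (m + i + 1) * if π i ∈ D then (-1 : ℤˣ) else 1) ∧
        ∀ i : Fin 3, change g D (m + (n + i) + 1) = g (m + (n + i) + 1) := by
    intro A
    by_cases hA : A ∈ P.powersetCard n
    · obtain ⟨π, r, h⟩ := on_class3' n P hP hn A hA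
      exact ⟨π, r, fun _ => h⟩
    · exact ⟨fun _ => 0, 0, fun h => absurd h hA⟩
  choose π r hπ using h0
  have hM0 : (0 : ℝ) < M := by exact_mod_cast hM
  have hc0 := H.c0
  set K : ℕ := ⌈32 / c⌉₊ * 2 ^ n * M with hK
  set Good : ℕ → (P.powersetCard n × (Fin 3 → ℤˣ) → Fin n → ℤˣ) → Prop := fun x u =>
    ∀ a : P.powersetCard n × (Fin 3 → ℤˣ), x ≤ K *
      ((Icc 1 x).filter fun m => m ≡ r a.1 [MOD M] ∧ (∀ i : Fin n, g (m + i + 1) = u a i) ∧
        ∀ i : Fin 3, g (m + (n + i) + 1) = a.2 i).card with hGood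
  have hpop : ∀ᶠ x in F, ∃ u, Good x u := by
    have h1 : ∀ a : P.powersetCard n × (Fin 3 → ℤˣ), ∀ᶠ x : ℕ in F, ∃ u : Fin n → ℤˣ, x ≤ K *
      ((Icc 1 x).filter fun m => m ≡ r a.1 [MOD M] ∧ (∀ i : Fin n, g (m + i + 1) = u i) ∧
        ∀ i : Fin 3, g (m + (n + i) + 1) = a.2 i).card := by
      intro a
      filter_upwards [pop3 H n M hM (r a.1) a.2] with x hx
      obtain ⟨u, hu⟩ := hx
      refine ⟨u, ?_⟩
      have h2 : (x : ℝ) ≤ 32 / c * 2 ^ n * M *
          (((Icc 1 x).filter fun m => m ≡ r a.1 [MOD M] ∧ (∀ i : Fin n, g (m + i + 1) = u i) ∧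
            ∀ i : Fin 3, g (m + (n + i) + 1) = a.2 i).card : ℝ) := by
        have h3 : (x : ℝ) = 32 * M / c * (c / (32 * M) * x) := by field_simp
        have h4 := mul_le_mul_of_nonneg_left hu (by positivity : (0 : ℝ) ≤ 32 * M / c)
        rw [← h3] at h4
        refine h4.trans (le_of_eq ?_)
        ring
      have h3 : (32 / c * 2 ^ n * M : ℝ) ≤ K := by
        rw [hK]
        push_cast
        have := Nat.le_ceil (32 / c)
        gcongr
      have h4 : (x : ℝ) ≤ ((K * ((Icc 1 x).filter fun m => m ≡ r a.1 [MOD M] ∧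
          (∀ i : Fin n, g (m + i + 1) = u i) ∧
            ∀ i : Fin 3, g (m + (n + i) + 1) = a.2 i).card : ℕ) : ℝ) := by
        push_cast
        exact h2.trans (mul_le_mul_of_nonneg_right h3 (Nat.cast_nonneg _))
      exact_mod_cast h4
    filter_upwards [eventually_all.2 h1] with x hx
    choose u hu using hx
    exact ⟨u, hu⟩
  refine ⟨?_, ?_⟩
  · filter_upwards [hpop] with x hx ε
    obtain ⟨u, hu⟩ := hx
    have h := few_of3 g n P {x} M K π r
      (fun A e => if hA : A ∈ P.powersetCard n then u (⟨A, hA⟩, e) else 1) hπ (by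
        rintro A hA e y rfl
        have h1 := hu (⟨A, hA⟩, e)
        simp only [hA, dif_pos]
        exact h1) ε
    simpa using h
  · obtain ⟨u, hu⟩ : ∃ u, ∃ᶠ x in F, Good x u := by
      by_contra hcon
      push Not at hcon
      have h1 : ∀ u, ∀ᶠ x in F, ¬ Good x u := by
        intro u
        have := hcon u
        simpa [Filter.not_frequently] using this
      obtain ⟨x, hx1, hx2⟩ := ((eventually_all.2 h1).and hpop).exists
      obtain ⟨u, hu⟩ := hx2
      exact hx1 u hu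
    obtain ⟨X, hX, hX2⟩ := extraction_of_frequently_atTop (hu.filter_mono H.le)
    refine ⟨X, hX, fun ε => ?_⟩
    have h := few_of3 g n P (Set.range X) M K π r
      (fun A e => if hA : A ∈ P.powersetCard n then u (⟨A, hA⟩, e) else 1) hπ (by
        rintro A hA e y ⟨k, rfl⟩
        have h1 := hX2 k (⟨A, hA⟩, e)
        simp only [hA, dif_pos]
        exact h1) ε
    simpa using h

open Classical in
/-- **thin sets of primes, improved** -/
theorem thin3 (H : Hyp F (fun n => sg (g n)) c) (hF : F.NeBot) {n : ℕ} (Q : Set ℕ)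
    (hQ : ∀ q ∈ Q, q.Prime) (hn : ∀ q ∈ Q, n + 3 < q) (hs : Summable (rec Q))
    (ε : Fin (n + 3) → ℤˣ) (R : Finset ℕ) (hR : (R : Set ℕ) ⊆ Q) :
    (R.powerset.filter fun T : Finset ℕ => ∃ D : Set ℕ, D ⊆ Q ∧ D ∩ (R : Set ℕ) = (T : Set ℕ) ∧
      ¬ PosUpper (change g D) ε).card ≤ ∑ i ∈ range n, R.card.choose i := by
  apply vc n
  · intro D hD
    exact mem_powerset.1 (mem_filter.1 hD).1
  · intro A hA hsh
    obtain ⟨hAR, hAn⟩ := mem_powersetCard.1 hA
    have hAQ : (A : Set ℕ) ⊆ Q := fun p hp => hR (hAR hp)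
    have hc0 := H.c0
    obtain ⟨P, hAP, hPQ, hun⟩ := unclean (n + 3) Q hQ hs (c / (64 * 2 ^ n)) (by positivity) A hAQ
    set π : Fin n → ℕ := fun j => A.orderEmbOfFin hAn j with hπ
    have h1 : ∀ j, π j ∈ A := fun j => orderEmbOfFin_mem A hAn j
    have h2 : Function.Injective π := (A.orderEmbOfFin hAn).injective
    obtain ⟨r, hr⟩ := crt3 n 3 P (fun p hp => hQ p (hPQ hp)) (fun p hp => hn p (hPQ hp)) π
      (fun j => hAP (h1 j)) h2
    set M := ∏ p ∈ P, p ^ 2 with hMdef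
    have hM : 1 ≤ M := Nat.one_le_iff_ne_zero.2 (prod_ne_zero_iff.2 fun p hp =>
      pow_ne_zero _ (hQ p (hPQ hp)).ne_zero)
    have hM0 : (0 : ℝ) < M := by exact_mod_cast hM
    set e : Fin 3 → ℤˣ := fun i => ε (Fin.natAdd n i) with he
    -- the clean popular places
    set G : ℕ → (Fin n → ℤˣ) → Finset ℕ := fun x u => (Icc 1 x).filter fun m =>
      (m ≡ r [MOD M] ∧ (∀ i : Fin n, g (m + i + 1) = u i) ∧
        ∀ i : Fin 3, g (m + (n + i) + 1) = e i) ∧
      ¬ ∃ j : Fin (n + 3), ∃ q ∈ Q, q ∉ P ∧ q ∣ m + j + 1 with hG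
    have hpop : ∀ᶠ x : ℕ in F, ∃ u : Fin n → ℤˣ, (x : ℝ) ≤ 64 * 2 ^ n * M / c * (G x u).card := by
      filter_upwards [pop3 H n M hM r e, H.le (hun r)] with x hx1 hx2
      obtain ⟨u, hu⟩ := hx1
      refine ⟨u, ?_⟩
      set B1 := (Icc 1 x).filter fun m => m ≡ r [MOD M] ∧ (∀ i : Fin n, g (m + i + 1) = u i) ∧
        ∀ i : Fin 3, g (m + (n + i) + 1) = e i with hB1
      set B2 := (Icc 1 x).filter fun m => m ≡ r [MOD M] ∧
        ∃ j : Fin (n + 3), ∃ q ∈ Q, q ∉ P ∧ q ∣ m + j + 1 with hB2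
      have h3 : B1 ⊆ G x u ∪ B2 := by
        intro m hm
        rw [hB1, mem_filter] at hm
        rw [mem_union, hG, hB2, mem_filter, mem_filter]
        by_cases h : ∃ j : Fin (n + 3), ∃ q ∈ Q, q ∉ P ∧ q ∣ m + j + 1
        · exact Or.inr ⟨hm.1, hm.2.1, h⟩
        · exact Or.inl ⟨hm.1, hm.2, h⟩
      have h4 : (B1.card : ℝ) ≤ (G x u).card + B2.card := by
        exact_mod_cast (card_le_card h3).trans (card_union_le _ _)
      have h5 : c / (32 * M) * x ≤ 2 ^ n * ((G x u).card + c / (64 * 2 ^ n) * (x / M)) := by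
        refine hu.trans (mul_le_mul_of_nonneg_left ?_ (by positivity))
        linarith
      have h6 : (2 : ℝ) ^ n * ((G x u).card + c / (64 * 2 ^ n) * (x / M)) =
          2 ^ n * (G x u).card + c / (64 * M) * x := by
        field_simp
      have h7 : c / (32 * M) * x = 2 * (c / (64 * M) * x) := by field_simp; ring
      rw [h6, h7] at h5
      have h8 : c / (64 * M) * x ≤ 2 ^ n * (G x u).card := by linarith
      have h9 : (x : ℝ) = 64 * M / c * (c / (64 * M) * x) := by field_simp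
      have h10 := mul_le_mul_of_nonneg_left h8 (by positivity : (0 : ℝ) ≤ 64 * M / c)
      rw [← h9] at h10
      refine h10.trans (le_of_eq ?_)
      ring
    obtain ⟨u, hu⟩ : ∃ u : Fin n → ℤˣ, ∃ᶠ x : ℕ in F,
        (x : ℝ) ≤ 64 * 2 ^ n * M / c * (G x u).card := by
      by_contra hcon
      push Not at hcon
      have h4 : ∀ u : Fin n → ℤˣ, ∀ᶠ x : ℕ in F,
          ¬ (x : ℝ) ≤ 64 * 2 ^ n * M / c * (G x u).card := by
        intro u
        filter_upwards [hcon u] with x hx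
        exact not_le.2 hx
      obtain ⟨x, hx1, hx2⟩ := ((eventually_all.2 h4).and hpop).exists
      obtain ⟨u, hu⟩ := hx2
      exact hx1 u hu
    obtain ⟨T, hT, hTA⟩ := hsh
      (t := (univ.filter fun j => ε (Fin.castAdd 3 j) ≠ u j).image π) (by
      intro p hp
      obtain ⟨j, _, rfl⟩ := mem_image.1 hp
      exact h1 j)
    obtain ⟨-, D, hDQ, hDR, hbad⟩ := mem_filter.1 hT
    apply hbad
    have hmem : ∀ j, π j ∈ D ↔ ε (Fin.castAdd 3 j) ≠ u j := by
      intro j
      have h4 : π j ∈ D ↔ π j ∈ A ∩ T := by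
        have h5 : π j ∈ (T : Set ℕ) ↔ π j ∈ D ∩ (R : Set ℕ) := by rw [hDR]
        rw [mem_inter]
        constructor
        · intro h
          exact ⟨h1 j, h5.2 ⟨h, hAR (h1 j)⟩⟩
        · intro h
          exact (h5.1 h.2).1
      rw [h4, hTA, mem_image]
      constructor
      · rintro ⟨j', hj', h5⟩
        rw [← h2 h5]
        exact (mem_filter.1 hj').2
      · intro h5
        exact ⟨j, mem_filter.2 ⟨mem_univ _, h5⟩, rfl⟩
    refine ⟨⌈64 * 2 ^ n * M / c⌉₊, (hu.filter_mono H.le).mono ?_⟩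
    intro x hx
    have h4 : (G x u).card ≤ count (change g D) ε x := by
      unfold count
      apply card_le_card
      intro m hm
      rw [hG, mem_filter] at hm
      rw [mem_filter]
      obtain ⟨hm1, ⟨hm2, hm3, hm4⟩, hm5⟩ := hm
      obtain ⟨h5, h6⟩ := hr m hm2
      have hclean : ∀ s : ℕ, s < n + 3 → ∀ q ∈ Q, q ∉ P → ¬ q ∣ m + s + 1 := by
        intro s hs q hq hqP hd
        exact hm5 ⟨⟨s, hs⟩, q, hq, hqP, hd⟩
      refine ⟨hm1, fun j => ?_⟩
      refine Fin.addCases (fun i => ?_) (fun i => ?_) j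
      · rw [Fin.val_castAdd]
        obtain ⟨h7, h8⟩ := h5 i
        rw [change_of_known g D Q hDQ (m + i + 1) (by omega) (π i) (hQ _ (hAQ (h1 i))) h7
          (fun q hq hne => by
            by_cases hqP : q ∈ P
            · exact h8 q hqP hne
            · exact hclean i (by have := i.isLt; omega) q hq hqP), hm3 i]
        by_cases h9 : ε (Fin.castAdd 3 i) = u i
        · have h10 : π i ∉ D := by
            rw [hmem]
            simpa using h9
          simp [h10, h9]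
        · have h10 : π i ∈ D := (hmem i).2 h9
          simp only [h10, if_true, mul_neg, mul_one]
          exact (Int.units_ne_iff_eq_neg.1 h9).symm
      · rw [Fin.val_natAdd]
        rw [change_none g D _ (fun q hqD => by
          by_cases hqP : q ∈ P
          · exact h6 i q hqP
          · exact hclean (n + i) (by have := i.isLt; omega) q (hDQ hqD) hqP), hm4 i]
    have h5 : (x : ℝ) ≤ ((⌈64 * 2 ^ n * M / c⌉₊ * count (change g D) ε x : ℕ) : ℝ) := by
      push_cast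
      refine hx.trans ?_
      have h6 : ((G x u).card : ℝ) ≤ count (change g D) ε x := by exact_mod_cast h4
      exact mul_le_mul (Nat.le_ceil _) h6 (Nat.cast_nonneg _) (Nat.cast_nonneg _)
    exact_mod_cast h5

end Pool.Agent.K9h88.FC
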