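import Mathlib
import Pool.Agent.K9h88.FC.Half
import Pool.Agent.Y958.TC.Two
import Pool.Agent.Y958.U.Fin
import Pool.Agent.Y958.U.Lam
import Pool.Agent.Y958.U.Diag

/-! # The hypotheses for the Liouville function -/

set_option autoImplicit false

namespace Pool.Agent.K9h88.FC

open Finset Filter
open Pool.Agent.TH823.MRS (ExpoSmall expo_lam lam_bdd lam_flip)
open Pool.Agent.Y958.U (LZ LZ_iff LZ_sub LZ_union LZ_bdd lam_real s_avc unif dv ls ls_eq li_mem)
open Pool.Agent.Y958.TC (two Av ind)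

/-- the filter of the sets whose complement has logarithmic density zero -/
def logF : Filter ℕ where
  sets := {S | LZ Sᶜ}
  univ_sets := by
    show LZ Set.univᶜ
    rw [Set.compl_univ]
    exact LZ_bdd ∅ 0 (fun n h => absurd h (Set.notMem_empty n))
  sets_of_superset := by
    intro S T hS hST
    exact LZ_sub (Set.compl_subset_compl.2 hST) hS
  inter_sets := by
    intro S T hS hT
    show LZ (S ∩ T)ᶜ
    rw [Set.compl_inter]
    exact LZ_union hS hT

lemma mem_logF (S : Set ℕ) : S ∈ logF ↔ LZ Sᶜ := Iff.rfl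

lemma logF_of {p : ℕ → Prop} (h : LZ {x | ¬ p x}) : ∀ᶠ x in logF, p x := h

lemma logF_le : logF ≤ atTop := by
  intro S hS
  obtain ⟨K, hK⟩ := mem_atTop_sets.1 hS
  show LZ Sᶜ
  apply LZ_bdd _ K
  intro n hn
  by_contra h
  exact hn (hK n (not_lt.1 h))

lemma not_LZ_univ : ¬ LZ Set.univ := by
  intro h1
  obtain ⟨X₀, hX₀⟩ := (LZ_iff _).1 h1 (1 / 2) (by norm_num)
  have h2 := hX₀ (max X₀ 2) (le_max_left _ _)
  have h3 : ls Set.univ (max X₀ 2) = (harmonic (max X₀ 2) : ℝ) := by
    rw [ls_eq, harmonic_eq_sum_Icc]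
    push_cast
    refine sum_congr rfl fun n _ => ?_
    rw [li_mem (Set.mem_univ n), one_div]
  rw [h3] at h2
  have h4 := log_add_one_le_harmonic (max X₀ 2)
  have h5 : (2 : ℝ) ≤ ((max X₀ 2 : ℕ) : ℝ) := by exact_mod_cast le_max_right X₀ 2
  have h6 : Real.log ((max X₀ 2 : ℕ) : ℝ) ≤ Real.log (((max X₀ 2 : ℕ) : ℝ) + 1) :=
    Real.log_le_log (by linarith) (by linarith)
  have h7 : 0 < Real.log ((max X₀ 2 : ℕ) : ℝ) := Real.log_pos (by linarith)
  push_cast at h2 h4 h5 h6 h7
  linarith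

lemma logF_neBot : logF.NeBot := by
  refine ⟨fun h => ?_⟩
  have h1 : (∅ : Set ℕ) ∈ logF := by
    rw [h]
    exact mem_bot
  rw [mem_logF, Set.compl_empty] at h1
  exact not_LZ_univ h1

lemma sg_lam (n : ℕ) : sg (lam n) = ((Pool.Agent.H376R2.MR.lam n : ℤ) : ℝ) := by
  rw [lam_real]
  unfold sg lam
  push_cast
  rfl

lemma dv_class (M r : ℕ) (hM : 1 ≤ M) : dv (fun n => n ≡ r [MOD M]) M = 1 / M := by
  classical
  unfold dv
  have h : (range M).filter (fun n => n ≡ r [MOD M]) = {r % M} := by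
    ext m
    rw [mem_filter, mem_range, mem_singleton]
    unfold Nat.ModEq
    constructor
    · rintro ⟨h1, h2⟩
      rw [← h2, Nat.mod_eq_of_lt h1]
    · rintro rfl
      exact ⟨Nat.mod_lt _ hM, Nat.mod_mod _ _⟩
  have h2 : (((range M).filter (fun n => n ≡ r [MOD M])).card : ℝ) = 1 := by
    rw [h]; simp
  rw [← h2]
  congr!

/-- the hypotheses hold for the Liouville function -/
theorem hyp_lam : ∃ c : ℝ, Hyp logF (fun n => sg (lam n)) c := by
  classical
  have hE : ExpoSmall (fun n => (Pool.Agent.H376R2.MR.lam n : ℂ)) := fun ε hε A hA =>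
    expo_lam ε hε A hA
  obtain ⟨c, hc0, hc1, hU⟩ := unif 3
  refine ⟨c, logF_le, fun n => sg_or _, hc0, hc1, ?_, ?_⟩
  · intro h hh q hq w hw1 hwq δ hδ
    have h1 := two s_avc Pool.Agent.H376R2.MR.lam lam_bdd lam_flip hE h hh q hq w hw1 hwq δ hδ
    apply logF_of
    refine LZ_sub ?_ h1
    intro N hN
    rw [Set.mem_setOf_eq] at hN ⊢
    rw [not_le] at hN
    have hN0 : (0 : ℝ) < N := by
      rcases Nat.eq_zero_or_pos N with h0 | h0
      · subst h0
        simp at hN
      · exact_mod_cast h0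
    have e : ∑ n ∈ range N, w n * sg (lam n) * sg (lam (n + h)) =
        ∑ n ∈ range N, w n * (Pool.Agent.H376R2.MR.lam n : ℝ) *
          (Pool.Agent.H376R2.MR.lam (n + h) : ℝ) :=
      sum_congr rfl fun n _ => by rw [sg_lam, sg_lam]
    rw [e] at hN
    unfold Av
    rw [abs_div, abs_of_pos hN0, lt_div_iff₀ hN0]
    exact hN
  · intro M hM r p hp
    have h1 := hU Pool.Agent.H376R2.MR.lam lam_bdd lam_flip hE (fun n => n ≡ r [MOD M]) M hM
      (fun n => by
        unfold Nat.ModEq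
        rw [Nat.add_mod_right]) (by
        rw [dv_class M r hM]
        have : (0 : ℝ) < M := by exact_mod_cast hM
        positivity) p (fun _ => 1) hp (fun _ => Or.inl rfl) ⟨0, rfl⟩
    rw [dv_class M r hM] at h1
    apply logF_of
    refine LZ_sub ?_ h1
    intro N hN
    rw [Set.mem_setOf_eq] at hN ⊢
    rw [not_le] at hN
    have hN0 : (0 : ℝ) < N := by
      rcases Nat.eq_zero_or_pos N with h0 | h0
      · subst h0
        simp at hN
      · exact_mod_cast h0
    have e : ∑ n ∈ range N, cl M r n * (sg (lam (n + p 0)) * sg (lam (n + p 1)) *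
        sg (lam (n + p 2))) = ∑ n ∈ range N, ind (fun n => n ≡ r [MOD M]) n *
          ∏ i, ((Pool.Agent.H376R2.MR.lam (n + p i) : ℤ) : ℝ) ^ 1 := by
      refine sum_congr rfl fun n _ => ?_
      rw [sg_lam, sg_lam, sg_lam, Fin.prod_univ_three, pow_one, pow_one, pow_one]
      congr 1
      unfold cl ind
      by_cases h : n ≡ r [MOD M]
      · rw [if_pos h, if_pos h]
      · rw [if_neg h, if_neg h]
    rw [e] at hN
    unfold Av
    rw [abs_div, abs_of_pos hN0, lt_div_iff₀ hN0]
    exact hN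

end Pool.Agent.K9h88.FC
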