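import Mathlib
import Pool.Agent.K9h88.FC.Half

/-! # All patterns at the same time, improved -/

set_option autoImplicit false

namespace Pool.Agent.K9h88.FC

open Finset Filter

variable {F : Filter ℕ} {g : ℕ → ℤˣ} {c : ℝ}

open Classical in
/-- almost all sets of `n` primes -/
lemma n_changesW (n W : ℕ) (P : Finset ℕ) (B : Finset ℕ → Prop)
    (h : (P.powerset.filter fun D => B D).card ≤ W * ∑ i ∈ range n, P.card.choose i)
    (L : ℕ) (hL : n * (L + 2) ≤ P.card) :
    L * ((P.powersetCard n).filter fun D => B D).card ≤ W * P.card.choose n := by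
  have h1 : ((P.powersetCard n).filter fun D => B D).card ≤
      (P.powerset.filter fun D => B D).card := by
    apply card_le_card
    intro D hD
    rw [mem_filter, mem_powersetCard] at hD
    rw [mem_filter, mem_powerset]
    exact ⟨hD.1.1, hD.2⟩
  calc L * ((P.powersetCard n).filter fun D => B D).card
      ≤ L * (W * ∑ i ∈ range n, P.card.choose i) := Nat.mul_le_mul_left _ (h1.trans h)
    _ = W * (L * ∑ i ∈ range n, P.card.choose i) := by ring
    _ ≤ W * P.card.choose n := Nat.mul_le_mul_left _ (choose_growth _ _ _ hL)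

open Classical in
/-- some set of `n` primes -/
lemma n_changesW_exists (n W : ℕ) (P : Finset ℕ) (B : Finset ℕ → Prop)
    (h : (P.powerset.filter fun D => B D).card ≤ W * ∑ i ∈ range n, P.card.choose i)
    (hL : n * (W + 3) ≤ P.card) : ∃ D ∈ P.powersetCard n, ¬ B D := by
  by_contra hcon
  push Not at hcon
  have h1 := n_changesW n W P B h (W + 1) hL
  rw [filter_true_of_mem hcon, card_powersetCard] at h1
  have h2 : 0 < P.card.choose n := by
    apply Nat.choose_pos
    calc n = n * 1 := (mul_one n).symm
      _ ≤ n * (W + 3) := Nat.mul_le_mul_left _ (by omega)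
      _ ≤ P.card := hL
  have h3 : (W + 1) * P.card.choose n = W * P.card.choose n + P.card.choose n := by ring
  omega

open Classical in
/-- all patterns at the same time -/
lemma full_of (n a K : ℕ) (P : Finset ℕ) (g : ℕ → ℤˣ) (X : ℕ → ℕ) (S : ℕ)
    (h : ∀ ε : Fin a → ℤˣ, (P.powerset.filter fun D : Finset ℕ =>
      ¬ ∀ k, X k ≤ K * count (change g D) ε (X k)).card ≤ S) :
    (P.powerset.filter fun D : Finset ℕ => ¬ Full (change g D) a K X).card ≤ 2 ^ a * S := by
  have hsub : (P.powerset.filter fun D : Finset ℕ => ¬ Full (change g D) a K X) ⊆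
      (univ : Finset (Fin a → ℤˣ)).biUnion fun ε => P.powerset.filter fun D : Finset ℕ => ¬ ∀ k,
        X k ≤ K * count (change g D) ε (X k) := by
    intro D hD
    rw [mem_filter] at hD
    rw [mem_biUnion]
    by_contra hcon
    apply hD.2
    intro ε k
    by_contra h1
    exact hcon ⟨ε, mem_univ _, mem_filter.2 ⟨hD.1, fun h2 => h1 (h2 k)⟩⟩
  calc _ ≤ _ := card_le_card hsub
    _ ≤ ∑ ε : Fin a → ℤˣ, (P.powerset.filter fun D : Finset ℕ => ¬ ∀ k,
        X k ≤ K * count (change g D) ε (X k)).card := card_biUnion_le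
    _ ≤ ∑ _ε : Fin a → ℤˣ, S := sum_le_sum fun ε _ => h ε
    _ = 2 ^ a * S := by
        rw [sum_const, card_univ, Fintype.card_pi, smul_eq_mul]
        simp [Fintype.card_units_int]

end Pool.Agent.K9h88.FC
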