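import Pool.Agent.K9h88.FC.LamFew2
import Pool.Agent.K9h88.FC.Many2
import Pool.Agent.K9h88.FC.Gen

/-!
# Definitions for the statements
-/

set_option autoImplicit false

namespace Pool.Agent.K9h88.FC

open Finset Filter MeasureTheory

/-- `P` consists of primes greater than `n` -/
def Above (n : ℕ) (P : Set ℕ) : Prop := ∀ p ∈ P, p.Prime ∧ n < p

/-- all the sign patterns of length `a` occur in `f` with positive upper density -/
def Complete (a : ℕ) (f : ℕ → ℤˣ) : Prop := ∀ ε : Fin a → ℤˣ, PosUpper f ε

open Classical in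
/-- the sets `D ⊆ P` such that the pattern `ε` begins at fewer than `x / K` of the numbers `m ≤ x` in
the function `g` changed at `D` -/
noncomputable def badAt {a : ℕ} (g : ℕ → ℤˣ) (P : Finset ℕ) (ε : Fin a → ℤˣ) (K x : ℕ) :
    Finset (Finset ℕ) :=
  P.powerset.filter fun D : Finset ℕ => ¬ x ≤ K * count (change g (D : Set ℕ)) ε x

open Classical in
/-- the traces `D ∩ R` on `R` of the sets `D ⊆ Q` such that the pattern `ε` does not occur with
positive upper density in the function `g` changed at `D` -/
noncomputable def badTraces {a : ℕ} (g : ℕ → ℤˣ) (Q : Set ℕ) (R : Finset ℕ) (ε : Fin a → ℤˣ) :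
    Finset (Finset ℕ) :=
  R.powerset.filter fun T : Finset ℕ => ∃ D : Set ℕ, D ⊆ Q ∧ D ∩ (R : Set ℕ) = (T : Set ℕ) ∧
    ¬ PosUpper (change g D) ε

lemma summable_rec (Q : Set ℕ) (h : Summable fun q : Q => (1 : ℝ) / (q : ℕ)) :
    Summable (rec Q) := by
  classical
  have h1 : Summable (Q.indicator fun q : ℕ => (1 : ℝ) / q) := by
    rw [← summable_subtype_iff_indicator]
    exact h
  refine h1.congr fun q => ?_
  unfold Pool.Agent.K9h88.FC.rec Set.indicator
  by_cases hq : q ∈ Q <;> simp [hq]

open Classical in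
lemma complete_of {a K : ℕ} {P : Finset ℕ} {g : ℕ → ℤˣ} {X : ℕ → ℕ} (hX : StrictMono X) {B : ℕ}
    (h : (P.powerset.filter fun D : Finset ℕ => ¬ Full (change g D) a K X).card ≤ B) :
    (P.powerset.filter fun D : Finset ℕ => ¬ Complete a (change g D)).card ≤ B := by
  refine le_trans (card_le_card ?_) h
  intro D hD
  rw [mem_filter] at hD ⊢
  exact ⟨hD.1, fun h1 => hD.2 fun ε => full_pos hX h1 ε⟩

lemma lam_prime (p : ℕ) (hp : p.Prime) : lam p = -1 := by
  unfold lam
  rw [Nat.primeFactorsList_prime hp]
  simp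

open Classical in
/-- the Liouville function changed at `D`: completely multiplicative, `1` at the primes in `D` and
`-1` at the other primes -/
lemma lam_change_spec (D : Set ℕ) : CM (change lam D) ∧
    ∀ p : ℕ, p.Prime → change lam D p = if p ∈ D then 1 else -1 := by
  refine ⟨change_cm lam_cm D, fun p hp => ?_⟩
  by_cases h : p ∈ D
  · rw [change_prime_mem lam D p hp h, lam_prime p hp, if_pos h, neg_neg]
  · rw [change_prime_notMem lam D p hp h, lam_prime p hp, if_neg h]

end Pool.Agent.K9h88.FC
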